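import Pool.Agent.LibBary.Stability

/-!
Transfer of a violated Poincare inequality from the limit measure to nearby measures.
-/

open MeasureTheory ProbabilityTheory Filter InnerProductSpace
open scoped ENNReal NNReal Topology

namespace Pool.Agent.LibBary

variable {n : ℕ}

/-- The Poincare gap of a test function. -/
noncomputable def gap (f : EuclideanSpace ℝ (Fin n) → ℝ)
    (ν : Measure (EuclideanSpace ℝ (Fin n))) : ℝ :=
  ∫ x, f x ^ 2 ∂ν - (∫ x, f x ∂ν) ^ 2 - ∫ x, ‖gradient f x‖ ^ 2 ∂ν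

theorem norm_gradient (f : EuclideanSpace ℝ (Fin n) → ℝ) (x : EuclideanSpace ℝ (Fin n)) :
    ‖gradient f x‖ = ‖fderiv ℝ f x‖ := by
  unfold gradient
  exact LinearIsometryEquiv.norm_map _ _

theorem contDiff_gradient {f : EuclideanSpace ℝ (Fin n) → ℝ} (hf : ContDiff ℝ (⊤ : ℕ∞) f) :
    ContDiff ℝ (⊤ : ℕ∞) (fun x => gradient f x) := by
  unfold gradient
  have h1 : ContDiff ℝ (⊤ : ℕ∞) (fderiv ℝ f) := hf.fderiv_right (by simp)
  exact ((toDual ℝ (EuclideanSpace ℝ (Fin n))).symm.contDiff).comp h1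

theorem hasCompactSupport_gradient {f : EuclideanSpace ℝ (Fin n) → ℝ} (hf : HasCompactSupport f) :
    HasCompactSupport (fun x => gradient f x) := by
  unfold gradient
  exact (hf.fderiv (𝕜 := ℝ)).comp_left (g := fun L => (toDual ℝ (EuclideanSpace ℝ (Fin n))).symm L)
    (by simp)

/-- Lipschitz functions have close integrals against coupled measures. -/
theorem lipschitz_close {φ : EuclideanSpace ℝ (Fin n) → ℝ} {L : ℝ≥0} (hL : LipschitzWith L φ)
    (hc : Continuous φ) (hcs : HasCompactSupport φ)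
    {ν ν' : Measure (EuclideanSpace ℝ (Fin n))} [IsProbabilityMeasure ν]
    {π : Measure (EuclideanSpace ℝ (Fin n) × EuclideanSpace ℝ (Fin n))}
    (h1 : π.map Prod.fst = ν) (h2 : π.map Prod.snd = ν') (hfin : cost π < ∞) {η : ℝ} (hη : 0 < η)
    (hcost : (cost π).toReal ≤ η ^ 2) :
    |∫ x, φ x ∂ν - ∫ x, φ x ∂ν'| ≤ L * η := by
  have hπ : IsProbabilityMeasure π := by
    constructor
    have h4 : π.map Prod.fst Set.univ = 1 := by rw [h1]; exact measure_univ
    rwa [Measure.map_apply measurable_fst MeasurableSet.univ, Set.preimage_univ] at h4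
  obtain ⟨C, hC⟩ := hc.bounded_above_of_compact_support hcs
  have i1 : Integrable (fun p : EuclideanSpace ℝ (Fin n) × EuclideanSpace ℝ (Fin n) => φ p.1) π :=
    Integrable.of_bound (hc.comp continuous_fst).aestronglyMeasurable C
      (Eventually.of_forall fun p => hC _)
  have i2 : Integrable (fun p : EuclideanSpace ℝ (Fin n) × EuclideanSpace ℝ (Fin n) => φ p.2) π :=
    Integrable.of_bound (hc.comp continuous_snd).aestronglyMeasurable C
      (Eventually.of_forall fun p => hC _)
  have i3 : Integrable (fun p : EuclideanSpace ℝ (Fin n) × EuclideanSpace ℝ (Fin n) =>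
      ‖p.1 - p.2‖ ^ 2) π := by
    refine ⟨(by fun_prop), ?_⟩
    rw [hasFiniteIntegral_iff_ofReal (Eventually.of_forall fun p => sq_nonneg _)]
    refine lt_of_le_of_lt (le_of_eq ?_) hfin
    unfold cost
    refine lintegral_congr fun p => ?_
    rw [← ofReal_norm, ENNReal.ofReal_pow (norm_nonneg _)]
  have hcost' : ∫ p, ‖p.1 - p.2‖ ^ 2 ∂π ≤ η ^ 2 := by
    refine le_trans (le_of_eq ?_) hcost
    rw [integral_eq_lintegral_of_nonneg_ae (Eventually.of_forall fun p => sq_nonneg _)
      (by fun_prop)]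
    congr 1
    unfold cost
    refine lintegral_congr fun p => ?_
    rw [← ofReal_norm, ENNReal.ofReal_pow (norm_nonneg _)]
  rw [← h1, ← h2, integral_map measurable_fst.aemeasurable hc.aestronglyMeasurable,
    integral_map measurable_snd.aemeasurable hc.aestronglyMeasurable, ← integral_sub i1 i2]
  have i4 : Integrable (fun p : EuclideanSpace ℝ (Fin n) × EuclideanSpace ℝ (Fin n) =>
      L * ((η + ‖p.1 - p.2‖ ^ 2 / η) / 2)) π :=
    (((integrable_const η).add (i3.div_const η)).div_const 2).const_mul _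
  calc |∫ p, (φ p.1 - φ p.2) ∂π| ≤ ∫ p, |φ p.1 - φ p.2| ∂π := abs_integral_le_integral_abs
    _ ≤ ∫ p, L * ((η + ‖p.1 - p.2‖ ^ 2 / η) / 2) ∂π := by
        refine integral_mono (i1.sub i2).abs i4 fun p => ?_
        have h5 := hL.dist_le_mul p.1 p.2
        rw [Real.dist_eq, dist_eq_norm] at h5
        refine h5.trans (mul_le_mul_of_nonneg_left ?_ L.coe_nonneg)
        have h6 : ‖p.1 - p.2‖ ^ 2 / η * η = ‖p.1 - p.2‖ ^ 2 := by field_simp
        have h7 : 0 ≤ (η - ‖p.1 - p.2‖) ^ 2 / η := by positivity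
        have h8 : (η - ‖p.1 - p.2‖) ^ 2 / η = η - 2 * ‖p.1 - p.2‖ + ‖p.1 - p.2‖ ^ 2 / η := by
          field_simp
          ring
        linarith
    _ = L * ((η + (∫ p, ‖p.1 - p.2‖ ^ 2 ∂π) / η) / 2) := by
        rw [integral_const_mul, integral_div, integral_add (integrable_const η) (i3.div_const η),
          integral_div]
        simp
    _ ≤ L * η := by
        refine mul_le_mul_of_nonneg_left ?_ L.coe_nonneg
        have : (∫ p, ‖p.1 - p.2‖ ^ 2 ∂π) / η ≤ η := by
          rw [div_le_iff₀ hη]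
          nlinarith
        linarith

/-- The Poincare gap is stable under small perturbations in the Wasserstein sense. -/
theorem gap_pos_of_close {f : EuclideanSpace ℝ (Fin n) → ℝ} (hf : ContDiff ℝ (⊤ : ℕ∞) f)
    (hcs : HasCompactSupport f) {ν' : Measure (EuclideanSpace ℝ (Fin n))}
    [IsProbabilityMeasure ν'] (hgap : 0 < gap f ν') :
    ∃ η : ℝ, 0 < η ∧ ∀ (ν : Measure (EuclideanSpace ℝ (Fin n)))
      (π : Measure (EuclideanSpace ℝ (Fin n) × EuclideanSpace ℝ (Fin n))), IsProbabilityMeasure ν →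
      π.map Prod.fst = ν → π.map Prod.snd = ν' → cost π < ∞ → (cost π).toReal ≤ η ^ 2 →
      0 < gap f ν := by
  have hg := contDiff_gradient hf
  have hgs := hasCompactSupport_gradient hcs
  -- the three Lipschitz functions
  obtain ⟨L₁, hL₁⟩ := hf.lipschitzWith_of_hasCompactSupport hcs (by simp)
  have hf2 : ContDiff ℝ (⊤ : ℕ∞) (fun x => f x ^ 2) := hf.pow 2
  have hcs2 : HasCompactSupport (fun x => f x ^ 2) :=
    hcs.comp_left (g := fun t : ℝ => t ^ 2) (by simp)
  obtain ⟨L₂, hL₂⟩ := hf2.lipschitzWith_of_hasCompactSupport hcs2 (by simp)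
  have hf3 : ContDiff ℝ (⊤ : ℕ∞) (fun x => ‖gradient f x‖ ^ 2) := hg.norm_sq ℝ
  have hcs3 : HasCompactSupport (fun x => ‖gradient f x‖ ^ 2) :=
    hgs.comp_left (g := fun t : EuclideanSpace ℝ (Fin n) => ‖t‖ ^ 2) (by simp)
  obtain ⟨L₃, hL₃⟩ := hf3.lipschitzWith_of_hasCompactSupport hcs3 (by simp)
  obtain ⟨C, hC⟩ := hf.continuous.bounded_above_of_compact_support hcs
  have hCnn : 0 ≤ C := (norm_nonneg _).trans (hC 0)
  set M : ℝ := L₂ + 2 * C * L₁ + L₃ with hM
  have hMnn : 0 ≤ M := by positivity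
  refine ⟨gap f ν' / (2 * (M + 1)), by positivity, fun ν π hν h1 h2 hfin hcost => ?_⟩
  set η := gap f ν' / (2 * (M + 1)) with hη
  have hηpos : 0 < η := by positivity
  have e1 := lipschitz_close hL₁ hf.continuous hcs h1 h2 hfin hηpos hcost
  have e2 := lipschitz_close hL₂ hf2.continuous hcs2 h1 h2 hfin hηpos hcost
  have e3 := lipschitz_close hL₃ hf3.continuous hcs3 h1 h2 hfin hηpos hcost
  have hbound : ∀ (ρ : Measure (EuclideanSpace ℝ (Fin n))) [IsProbabilityMeasure ρ],
      |∫ x, f x ∂ρ| ≤ C := by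
    intro ρ _
    have := norm_integral_le_of_norm_le_const (μ := ρ) (Eventually.of_forall hC)
    simpa using this
  have b1 := hbound ν
  have b2 := hbound ν'
  have e4 : |(∫ x, f x ∂ν) ^ 2 - (∫ x, f x ∂ν') ^ 2| ≤ 2 * C * (L₁ * η) := by
    have : (∫ x, f x ∂ν) ^ 2 - (∫ x, f x ∂ν') ^ 2
        = (∫ x, f x ∂ν + ∫ x, f x ∂ν') * (∫ x, f x ∂ν - ∫ x, f x ∂ν') := by ring
    rw [this, abs_mul]
    refine mul_le_mul ?_ e1 (abs_nonneg _) (by positivity)
    refine (abs_add_le _ _).trans ?_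
    linarith
  have e5 : M * η < gap f ν' := by
    rw [hη, mul_div_assoc', div_lt_iff₀ (by positivity)]
    nlinarith
  unfold gap at *
  have a1 := abs_le.1 e2
  have a2 := abs_le.1 e3
  have a3 := abs_le.1 e4
  rw [hM] at e5
  nlinarith [a1.1, a2.2, a3.2]

/-- A positive gap makes the Poincare constant larger than one. -/
theorem one_lt_poincareConstant {f : EuclideanSpace ℝ (Fin n) → ℝ} (hf : ContDiff ℝ (⊤ : ℕ∞) f)
    (hcs : HasCompactSupport f) {ν : Measure (EuclideanSpace ℝ (Fin n))}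
    [IsProbabilityMeasure ν] (hgap : 0 < gap f ν) : 1 < poincareConstant ν := by
  have hg := contDiff_gradient hf
  have hgs := hasCompactSupport_gradient hcs
  obtain ⟨C, hC⟩ := hf.continuous.bounded_above_of_compact_support hcs
  obtain ⟨C', hC'⟩ := hg.continuous.bounded_above_of_compact_support hgs
  have i1 : MemLp f 2 ν := MemLp.of_bound hf.continuous.aestronglyMeasurable C
    (Eventually.of_forall hC)
  have i2 : MemLp (fun x => gradient f x) 2 ν := MemLp.of_bound hg.continuous.aestronglyMeasurable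
    C' (Eventually.of_forall hC')
  set V : ℝ := ∫ x, f x ^ 2 ∂ν - (∫ x, f x ∂ν) ^ 2 with hV
  set D : ℝ := ∫ x, ‖gradient f x‖ ^ 2 ∂ν with hD
  have hDnn : 0 ≤ D := integral_nonneg fun x => sq_nonneg _
  have hVD : D < V := by
    have : 0 < V - D := hgap
    linarith
  have hVeq : evariance f ν = ENNReal.ofReal V := by
    rw [← i1.ofReal_variance_eq, variance_eq_sub i1]
    rfl
  have hDeq : ∫⁻ x, ‖gradient f x‖ₑ ^ 2 ∂ν = ENNReal.ofReal D := by
    rw [hD, ofReal_integral_eq_lintegral_ofReal i2.norm.integrable_sq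
      (Eventually.of_forall fun x => sq_nonneg _)]
    refine lintegral_congr fun x => ?_
    rw [← ofReal_norm, ENNReal.ofReal_pow (norm_nonneg _)]
  have hkey : ENNReal.ofReal V / ENNReal.ofReal D ≤ poincareConstant ν := by
    refine le_sInf fun c hc => ?_
    have := hc f hf hcs
    rw [hVeq, hDeq] at this
    exact ENNReal.div_le_of_le_mul this
  refine lt_of_lt_of_le ?_ hkey
  rw [ENNReal.lt_div_iff_mul_lt (Or.inr ENNReal.one_ne_top) (Or.inl ENNReal.ofReal_ne_top),
    one_mul]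
  exact (ENNReal.ofReal_lt_ofReal_iff (by linarith)).2 hVD

end Pool.Agent.LibBary
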