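import Mathlib

/-!
Definitions for the Poincare constant of Wasserstein barycenters of strongly log-concave measures.
-/

open MeasureTheory ProbabilityTheory
open scoped ENNReal NNReal Topology

namespace Pool.Agent.LibBary

/-- The measure `exp(-V) dx` on `ℝⁿ`, for `V` with values in the extended reals. -/
noncomputable def expMeasure {n : ℕ} (V : EuclideanSpace ℝ (Fin n) → EReal) :
    Measure (EuclideanSpace ℝ (Fin n)) :=
  volume.withDensity (fun x => EReal.exp (-V x))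

/-- `μ` is a `κ`-strongly log-concave probability measure on `ℝⁿ`: it is `Z⁻¹ exp(-V) dx` with `V` a
proper lower semicontinuous function with values in `(-∞, ∞]`, with `0 < Z < ∞` the total mass of
`exp(-V) dx`, and with `V - κ |x|² / 2` convex (its epigraph is convex). -/
def IsStronglyLogConcave {n : ℕ} (κ : ℝ) (μ : Measure (EuclideanSpace ℝ (Fin n))) : Prop :=
  ∃ V : EuclideanSpace ℝ (Fin n) → EReal,
    (∀ x, V x ≠ ⊥) ∧ (∃ x, V x ≠ ⊤) ∧ LowerSemicontinuous V ∧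
    Convex ℝ {p : EuclideanSpace ℝ (Fin n) × ℝ |
      V p.1 ≤ ((κ / 2 * ‖p.1‖ ^ 2 + p.2 : ℝ) : EReal)} ∧
    0 < expMeasure V Set.univ ∧ expMeasure V Set.univ < ∞ ∧
    μ = (expMeasure V Set.univ)⁻¹ • expMeasure V

/-- The squared quadratic Wasserstein distance: the infimum of `∫ |x - y|² dπ` over couplings. -/
noncomputable def W2sq {n : ℕ} (μ ν : Measure (EuclideanSpace ℝ (Fin n))) : ℝ≥0∞ :=
  ⨅ (π : Measure (EuclideanSpace ℝ (Fin n) × EuclideanSpace ℝ (Fin n)))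
    (_ : π.map Prod.fst = μ) (_ : π.map Prod.snd = ν), ∫⁻ p, ‖p.1 - p.2‖ₑ ^ 2 ∂π

/-- `ν` is a barycenter of `μ₁, …, μ_N` with weights `λ₁, …, λ_N`: a probability measure which
minimises `ρ ↦ ∑ λᵢ W₂²(ρ, μᵢ)` among all probability measures. -/
def IsBarycenter {n N : ℕ} (lam : Fin N → ℝ) (μ : Fin N → Measure (EuclideanSpace ℝ (Fin n)))
    (ν : Measure (EuclideanSpace ℝ (Fin n))) : Prop :=
  IsProbabilityMeasure ν ∧ ∀ ρ : Measure (EuclideanSpace ℝ (Fin n)), IsProbabilityMeasure ρ →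
    ∑ i, ENNReal.ofReal (lam i) * W2sq ν (μ i) ≤ ∑ i, ENNReal.ofReal (lam i) * W2sq ρ (μ i)

/-- The Poincare constant: the least `C ∈ [0, ∞]` with `Var_μ f ≤ C ∫ |∇f|² dμ` for all smooth
compactly supported `f`. -/
noncomputable def poincareConstant {n : ℕ} (μ : Measure (EuclideanSpace ℝ (Fin n))) : ℝ≥0∞ :=
  sInf {C : ℝ≥0∞ | ∀ f : EuclideanSpace ℝ (Fin n) → ℝ,
    ContDiff ℝ (⊤ : ℕ∞) f → HasCompactSupport f →
      evariance f μ ≤ C * ∫⁻ x, ‖gradient f x‖ₑ ^ 2 ∂μ}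

/-- `μ` splits off a curvature-saturating Gaussian factor in the direction of the unit vector `e`:
under `ℝⁿ = ℝ e ⊕ e^⊥`, `μ` is the product of `N(⟨e, m⟩, κ⁻¹)`, with `m` the mean of `μ`,
and a probability measure `ν` on `e^⊥` (a probability measure on `ℝⁿ` concentrated on `e^⊥`). -/
def SplitsOffGaussian {n : ℕ} (κ : ℝ) (e : EuclideanSpace ℝ (Fin n))
    (μ : Measure (EuclideanSpace ℝ (Fin n))) : Prop :=
  ∃ ν : Measure (EuclideanSpace ℝ (Fin n)), IsProbabilityMeasure ν ∧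
    (∀ᵐ y ∂ν, inner ℝ e y = 0) ∧
    μ = ((gaussianReal (inner ℝ e (∫ x, x ∂μ)) (Real.toNNReal κ⁻¹)).prod ν).map
      (fun p => p.1 • e + p.2)

end Pool.Agent.LibBary
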