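import Pool.Agent.LibBary.Defs

/-!
Existence of Wasserstein barycenters, by compactness of sets of couplings.
-/

open MeasureTheory ProbabilityTheory Filter BoundedContinuousFunction
open scoped ENNReal NNReal Topology

namespace Pool.Agent.LibBary

section Lsc

variable {X : Type*} [TopologicalSpace X] [MeasurableSpace X] [OpensMeasurableSpace X]

/-- The integral of a continuous `ℝ≥0`-valued function is lower semicontinuous. -/
theorem lowerSemicontinuous_lintegral (c : X → ℝ≥0) (hc : Continuous c) :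
    LowerSemicontinuous (fun π : ProbabilityMeasure X => ∫⁻ x, (c x : ℝ≥0∞) ∂(π : Measure X)) := by
  have key : ∀ π : ProbabilityMeasure X, ∫⁻ x, (c x : ℝ≥0∞) ∂(π : Measure X)
      = ⨆ k : ℕ, ∫⁻ x, ((min (c x) (k : ℝ≥0) : ℝ≥0) : ℝ≥0∞) ∂(π : Measure X) := by
    intro π
    rw [← lintegral_iSup]
    · refine lintegral_congr fun x => ?_
      refine le_antisymm ?_ (iSup_le fun k => by exact_mod_cast min_le_left _ _)
      obtain ⟨k, hk⟩ := exists_nat_ge (c x)
      refine le_iSup_of_le k ?_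
      rw [min_eq_left hk]
    · intro k
      exact (hc.min continuous_const).measurable.coe_nnreal_ennreal
    · intro i j hij x
      simp only
      norm_cast
      exact min_le_min le_rfl (by exact_mod_cast hij)
  simp_rw [key]
  refine lowerSemicontinuous_iSup fun k => Continuous.lowerSemicontinuous ?_
  let g : X →ᵇ ℝ≥0 := BoundedContinuousFunction.mkOfBound
    ⟨fun x => min (c x) (k : ℝ≥0), hc.min continuous_const⟩ (k : ℝ) (by
      intro x y
      rw [NNReal.dist_eq, abs_le]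
      have h1 : ((min (c x) (k : ℝ≥0) : ℝ≥0) : ℝ) ≤ k := by exact_mod_cast min_le_right _ _
      have h2 : ((min (c y) (k : ℝ≥0) : ℝ≥0) : ℝ) ≤ k := by exact_mod_cast min_le_right _ _
      have h3 : (0 : ℝ) ≤ ((min (c x) (k : ℝ≥0) : ℝ≥0) : ℝ) := NNReal.coe_nonneg _
      have h4 : (0 : ℝ) ≤ ((min (c y) (k : ℝ≥0) : ℝ≥0) : ℝ) := NNReal.coe_nonneg _
      simp only [ContinuousMap.coe_mk]
      constructor <;> linarith)
  exact ProbabilityMeasure.continuous_lintegral_boundedContinuousFunction g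

end Lsc

variable {n : ℕ}

/-- The quadratic cost of a coupling. -/
noncomputable def cost (π : Measure (EuclideanSpace ℝ (Fin n) × EuclideanSpace ℝ (Fin n))) : ℝ≥0∞ :=
  ∫⁻ p, ‖p.1 - p.2‖ₑ ^ 2 ∂π

theorem lowerSemicontinuous_cost : LowerSemicontinuous
    (fun π : ProbabilityMeasure (EuclideanSpace ℝ (Fin n) × EuclideanSpace ℝ (Fin n)) =>
      cost (π : Measure (EuclideanSpace ℝ (Fin n) × EuclideanSpace ℝ (Fin n)))) := by
  have h := lowerSemicontinuous_lintegral
    (X := EuclideanSpace ℝ (Fin n) × EuclideanSpace ℝ (Fin n)) (fun p => ‖p.1 - p.2‖₊ ^ 2)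
    (by fun_prop)
  simpa [cost, enorm_eq_nnnorm] using h

theorem W2sq_le_cost {μ ν : Measure (EuclideanSpace ℝ (Fin n))}
    {π : Measure (EuclideanSpace ℝ (Fin n) × EuclideanSpace ℝ (Fin n))}
    (h1 : π.map Prod.fst = μ) (h2 : π.map Prod.snd = ν) : W2sq μ ν ≤ cost π :=
  iInf_le_of_le π (iInf_le_of_le h1 (iInf_le_of_le h2 le_rfl))

theorem exists_coupling_of_W2sq_lt {μ ν : Measure (EuclideanSpace ℝ (Fin n))} {M : ℝ≥0∞}
    (h : W2sq μ ν < M) :
    ∃ π : Measure (EuclideanSpace ℝ (Fin n) × EuclideanSpace ℝ (Fin n)),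
      π.map Prod.fst = μ ∧ π.map Prod.snd = ν ∧ cost π < M := by
  simp only [W2sq, iInf_lt_iff] at h
  obtain ⟨π, h1, h2, h3⟩ := h
  exact ⟨π, h1, h2, h3⟩

theorem norm_sq_le_two (a b : EuclideanSpace ℝ (Fin n)) :
    ‖a‖ₑ ^ 2 ≤ 2 * ‖a - b‖ₑ ^ 2 + 2 * ‖b‖ₑ ^ 2 := by
  have h : ‖a‖ ^ 2 ≤ 2 * ‖a - b‖ ^ 2 + 2 * ‖b‖ ^ 2 := by
    have h1 : ‖a‖ ≤ ‖a - b‖ + ‖b‖ := by
      have := norm_add_le (a - b) b
      simpa using this
    nlinarith [norm_nonneg a, norm_nonneg (a - b), norm_nonneg b, sq_nonneg (‖a - b‖ - ‖b‖)]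
  rw [← ofReal_norm, ← ofReal_norm, ← ofReal_norm,
    ← ENNReal.ofReal_pow (norm_nonneg _), ← ENNReal.ofReal_pow (norm_nonneg _),
    ← ENNReal.ofReal_pow (norm_nonneg _)]
  have h2 : ∀ t : ℝ, 2 * ENNReal.ofReal t = ENNReal.ofReal (2 * t) := by
    intro t
    rw [ENNReal.ofReal_mul (by norm_num)]
    simp
  rw [h2, h2, ← ENNReal.ofReal_add (by positivity) (by positivity)]
  exact ENNReal.ofReal_le_ofReal h

/-- The couplings with a given second marginal and cost at most `M` form a tight set. -/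
theorem isTight_couplings (μ : Measure (EuclideanSpace ℝ (Fin n))) [IsProbabilityMeasure μ]
    (hμ : ∫⁻ x, ‖x‖ₑ ^ 2 ∂μ < ∞) {M : ℝ≥0∞} (hM : M < ∞) :
    IsTightMeasureSet {π : Measure (EuclideanSpace ℝ (Fin n) × EuclideanSpace ℝ (Fin n)) |
      π.map Prod.snd = μ ∧ cost π ≤ M} := by
  refine IsTightMeasureSet.prodMk ?_ ?_
  · set B : ℝ≥0∞ := 2 * M + 2 * ∫⁻ x, ‖x‖ₑ ^ 2 ∂μ with hB
    have hBtop : B < ∞ := by
      rw [hB]
      exact ENNReal.add_lt_top.2 ⟨ENNReal.mul_lt_top (by simp) hM,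
        ENNReal.mul_lt_top (by simp) hμ⟩
    have hmom : ∀ ρ ∈ Measure.fst '' {π : Measure (EuclideanSpace ℝ (Fin n) ×
        EuclideanSpace ℝ (Fin n)) | π.map Prod.snd = μ ∧ cost π ≤ M}, ∫⁻ x, ‖x‖ₑ ^ 2 ∂ρ ≤ B := by
      rintro ρ ⟨π, ⟨h1, h2⟩, rfl⟩
      rw [Measure.fst, lintegral_map (by fun_prop) measurable_fst]
      calc ∫⁻ p, ‖p.1‖ₑ ^ 2 ∂π ≤ ∫⁻ p, (2 * ‖p.1 - p.2‖ₑ ^ 2 + 2 * ‖p.2‖ₑ ^ 2) ∂π :=
            lintegral_mono fun p => norm_sq_le_two _ _
        _ = 2 * cost π + 2 * ∫⁻ x, ‖x‖ₑ ^ 2 ∂μ := by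
            rw [lintegral_add_left (by fun_prop), lintegral_const_mul _ (by fun_prop),
              lintegral_const_mul _ (by fun_prop), ← h1,
              lintegral_map (by fun_prop) measurable_snd, cost]
        _ ≤ B := by rw [hB]; gcongr
    refine isTightMeasureSet_of_tendsto_measure_norm_gt ?_
    have hbound : ∀ r : ℝ, 0 < r → (⨆ ρ ∈ Measure.fst '' {π : Measure (EuclideanSpace ℝ (Fin n) ×
        EuclideanSpace ℝ (Fin n)) | π.map Prod.snd = μ ∧ cost π ≤ M}, ρ {x | r < ‖x‖})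
        ≤ B / ENNReal.ofReal (r ^ 2) := by
      intro r hr
      refine iSup₂_le fun ρ hρ => ?_
      have hsub : {x : EuclideanSpace ℝ (Fin n) | r < ‖x‖} ⊆
          {x | ENNReal.ofReal (r ^ 2) ≤ ‖x‖ₑ ^ 2} := by
        intro x hx
        have hx' : r < ‖x‖ := hx
        change ENNReal.ofReal (r ^ 2) ≤ ‖x‖ₑ ^ 2
        rw [← ofReal_norm, ← ENNReal.ofReal_pow (norm_nonneg _)]
        exact ENNReal.ofReal_le_ofReal (by nlinarith)
      calc ρ {x | r < ‖x‖} ≤ ρ {x | ENNReal.ofReal (r ^ 2) ≤ ‖x‖ₑ ^ 2} := measure_mono hsub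
        _ ≤ (∫⁻ x, ‖x‖ₑ ^ 2 ∂ρ) / ENNReal.ofReal (r ^ 2) :=
            meas_ge_le_lintegral_div (by fun_prop)
              (by rw [Ne, ENNReal.ofReal_eq_zero, not_le]; positivity) ENNReal.ofReal_ne_top
        _ ≤ B / ENNReal.ofReal (r ^ 2) := by gcongr; exact hmom ρ hρ
    have hlim : Tendsto (fun r : ℝ => B / ENNReal.ofReal (r ^ 2)) atTop (𝓝 0) := by
      have h1 : Tendsto (fun r : ℝ => ENNReal.ofReal (r ^ 2)) atTop (𝓝 ∞) :=
        ENNReal.tendsto_ofReal_nhds_top.2 (tendsto_pow_atTop (by norm_num))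
      have h2 := ENNReal.Tendsto.div_const (a := 0) (m := id) (f := 𝓝 (0 : ℝ≥0∞)) (b := 1)
        (tendsto_id) (Or.inr (by simp))
      have h3 := ENNReal.Tendsto.const_div (a := B) h1 (Or.inr hBtop.ne)
      simpa using h3
    refine tendsto_of_tendsto_of_tendsto_of_le_of_le' tendsto_const_nhds hlim
      (Eventually.of_forall fun r => zero_le) ?_
    filter_upwards [eventually_gt_atTop 0] with r hr using hbound r hr
  · refine (isTightMeasureSet_singleton (μ := μ)).subset ?_
    rintro ρ ⟨π, ⟨h1, h2⟩, rfl⟩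
    exact h1

theorem isClosed_map_eq {X Y : Type*} [TopologicalSpace X] [MeasurableSpace X]
    [OpensMeasurableSpace X] [TopologicalSpace Y] [MeasurableSpace Y] [BorelSpace Y]
    [HasOuterApproxClosed Y] {f : X → Y} (hf : Continuous f) (μ : Measure Y)
    [IsProbabilityMeasure μ] :
    IsClosed {π : ProbabilityMeasure X | (π : Measure X).map f = μ} := by
  have h1 : Continuous (fun π : ProbabilityMeasure X => π.map hf.aemeasurable) :=
    ProbabilityMeasure.continuous_map hf
  have h2 : {π : ProbabilityMeasure X | (π : Measure X).map f = μ}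
      = (fun π : ProbabilityMeasure X => π.map hf.aemeasurable) ⁻¹' {⟨μ, inferInstance⟩} := by
    ext π
    constructor
    · intro h
      exact Subtype.ext h
    · intro h
      exact congrArg Subtype.val h
  rw [h2]
  exact isClosed_singleton.preimage h1

theorem isClosed_map_eq_map {X Y ι : Type*} [TopologicalSpace X] [MeasurableSpace X]
    [OpensMeasurableSpace X] [TopologicalSpace Y] [MeasurableSpace Y] [BorelSpace Y]
    [HasOuterApproxClosed Y] {f : X → Y} (hf : Continuous f) (i j : ι) :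
    IsClosed {π : ι → ProbabilityMeasure X | (π i : Measure X).map f = (π j : Measure X).map f} := by
  have h1 : Continuous (fun π : ProbabilityMeasure X => π.map hf.aemeasurable) :=
    ProbabilityMeasure.continuous_map hf
  have h2 : {π : ι → ProbabilityMeasure X | (π i : Measure X).map f = (π j : Measure X).map f}
      = {π | (π i).map hf.aemeasurable = (π j).map hf.aemeasurable} := by
    ext π
    constructor
    · intro h
      exact Subtype.ext h
    · intro h
      exact congrArg Subtype.val h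
  rw [h2]
  exact isClosed_eq (h1.comp (continuous_apply i)) (h1.comp (continuous_apply j))

/-- Existence of a barycenter. -/
theorem exists_isBarycenter {N : ℕ} (hN : 0 < N) (lam : Fin N → ℝ) (hlam : ∀ i, 0 < lam i)
    (μ : Fin N → Measure (EuclideanSpace ℝ (Fin n))) [∀ i, IsProbabilityMeasure (μ i)]
    (hμ : ∀ i, ∫⁻ x, ‖x‖ₑ ^ 2 ∂(μ i) < ∞) : ∃ ν, IsBarycenter lam μ ν := by
  classical
  let i₀ : Fin N := ⟨0, hN⟩
  let X := EuclideanSpace ℝ (Fin n) × EuclideanSpace ℝ (Fin n)
  let P := ProbabilityMeasure X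
  let J : (Fin N → P) → ℝ≥0∞ := fun π =>
    ∑ i, ENNReal.ofReal (lam i) * cost (n := n) (π i : Measure X)
  have hJ : LowerSemicontinuous J := by
    refine lowerSemicontinuous_sum fun i _ => ?_
    have h1 : LowerSemicontinuous (fun π : Fin N → P => cost (n := n) (π i : Measure X)) :=
      LowerSemicontinuous.comp lowerSemicontinuous_cost (continuous_apply i)
    have h2 : Continuous (fun t : ℝ≥0∞ => ENNReal.ofReal (lam i) * t) :=
      ENNReal.continuous_const_mul ENNReal.ofReal_ne_top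
    exact h2.comp_lowerSemicontinuous h1 (fun a b hab => mul_le_mul_right hab _)
  let A : Set (Fin N → P) := {π | (∀ i, (π i : Measure X).map Prod.snd = μ i) ∧
    ∀ i j, (π i : Measure X).map Prod.fst = (π j : Measure X).map Prod.fst}
  have hAclosed : IsClosed A := by
    have h1 : IsClosed {π : Fin N → P | ∀ i, (π i : Measure X).map Prod.snd = μ i} := by
      simp only [Set.ofPred_forall]
      exact isClosed_iInter fun i => IsClosed.preimage (f := fun π : Fin N → P => π i)
        (continuous_apply i) (isClosed_map_eq (X := X) continuous_snd (μ i))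
    have h2 : IsClosed {π : Fin N → P | ∀ i j, (π i : Measure X).map Prod.fst
        = (π j : Measure X).map Prod.fst} := by
      simp only [Set.ofPred_forall]
      exact isClosed_iInter fun i => isClosed_iInter fun j =>
        isClosed_map_eq_map continuous_fst i j
    exact h1.inter h2
  -- a starting point
  let π₀ : Fin N → P := fun i => ⟨(μ i₀).prod (μ i), inferInstance⟩
  have hπ₀A : π₀ ∈ A := by
    constructor
    · intro i
      change ((μ i₀).prod (μ i)).map Prod.snd = μ i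
      simp
    · intro i j
      change ((μ i₀).prod (μ i)).map Prod.fst = ((μ i₀).prod (μ j)).map Prod.fst
      simp
  have hJ₀ : J π₀ < ∞ := by
    refine ENNReal.sum_lt_top.2 fun i _ => ENNReal.mul_lt_top ENNReal.ofReal_lt_top ?_
    change cost ((μ i₀).prod (μ i)) < ∞
    calc cost ((μ i₀).prod (μ i))
        ≤ ∫⁻ p, (2 * ‖p.1‖ₑ ^ 2 + 2 * ‖p.2‖ₑ ^ 2) ∂((μ i₀).prod (μ i)) := by
          refine lintegral_mono fun p => ?_
          have := norm_sq_le_two (p.1 - p.2) (-p.2)
          simpa using this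
      _ = 2 * ∫⁻ x, ‖x‖ₑ ^ 2 ∂(μ i₀) + 2 * ∫⁻ x, ‖x‖ₑ ^ 2 ∂(μ i) := by
          rw [lintegral_add_left (by fun_prop), lintegral_const_mul _ (by fun_prop),
            lintegral_const_mul _ (by fun_prop)]
          congr 2
          · rw [← lintegral_map (f := fun x => ‖x‖ₑ ^ 2) (by fun_prop) measurable_fst]
            simp
          · rw [← lintegral_map (f := fun x => ‖x‖ₑ ^ 2) (by fun_prop) measurable_snd]
            simp
      _ < ∞ := ENNReal.add_lt_top.2 ⟨ENNReal.mul_lt_top (by simp) (hμ _),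
          ENNReal.mul_lt_top (by simp) (hμ _)⟩
  -- the sublevel set
  let S : Set (Fin N → P) := A ∩ {π | J π ≤ J π₀}
  have hSclosed : IsClosed S := hAclosed.inter (hJ.isClosed_preimage (J π₀))
  let K : Fin N → Set P := fun i => closure {π : P | (π : Measure X).map Prod.snd = μ i ∧
    cost (π : Measure X) ≤ J π₀ / ENNReal.ofReal (lam i)}
  have hlam' : ∀ i, ENNReal.ofReal (lam i) ≠ 0 := fun i => by
    simpa using hlam i
  have hK : ∀ i, IsCompact (K i) := by
    intro i
    refine isCompact_closure_of_isTightMeasureSet ?_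
    have hfin : J π₀ / ENNReal.ofReal (lam i) < ∞ := ENNReal.div_lt_top hJ₀.ne (hlam' i)
    refine (isTight_couplings (μ i) (hμ i) hfin).subset ?_
    rintro ρ ⟨π, ⟨h1, h2⟩, rfl⟩
    exact ⟨h1, h2⟩
  have hSsub : S ⊆ Set.univ.pi K := by
    rintro π ⟨hπA, hπJ⟩ i -
    refine subset_closure ⟨hπA.1 i, ?_⟩
    have h1 : ENNReal.ofReal (lam i) * cost (n := n) (π i : Measure X) ≤ J π₀ := by
      refine le_trans ?_ hπJ
      exact Finset.single_le_sum
        (f := fun i => ENNReal.ofReal (lam i) * cost (n := n) (π i : Measure X))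
        (fun _ _ => zero_le) (Finset.mem_univ i)
    rw [ENNReal.le_div_iff_mul_le (Or.inl (hlam' i)) (Or.inl ENNReal.ofReal_ne_top), mul_comm]
    exact h1
  have hπ₀S : π₀ ∈ S := ⟨hπ₀A, le_refl (J π₀)⟩
  have hScompact : IsCompact S := (isCompact_univ_pi hK).of_isClosed_subset hSclosed hSsub
  obtain ⟨π, hπS, hπmin⟩ := LowerSemicontinuousOn.exists_isMinOn (s := S) ⟨π₀, hπ₀S⟩
    hScompact (hJ.lowerSemicontinuousOn S)
  have hmin : ∀ π' ∈ A, J π ≤ J π' := by
    intro π' hπ'
    by_cases h : J π' ≤ J π₀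
    · exact hπmin ⟨hπ', h⟩
    · exact (hπmin hπ₀S).trans (not_le.1 h).le
  refine ⟨(π i₀ : Measure X).map Prod.fst, ?_, ?_⟩
  · exact Measure.isProbabilityMeasure_map measurable_fst.aemeasurable
  intro ρ hρ
  have h1 : ∑ i, ENNReal.ofReal (lam i) * W2sq ((π i₀ : Measure X).map Prod.fst) (μ i) ≤ J π := by
    refine Finset.sum_le_sum fun i _ => ?_
    gcongr
    exact W2sq_le_cost (hπS.1.2 i i₀) (hπS.1.1 i)
  refine h1.trans ?_
  by_cases htop : ∑ i, ENNReal.ofReal (lam i) * W2sq ρ (μ i) = ∞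
  · rw [htop]; exact le_top
  have hfin : ∀ i, W2sq ρ (μ i) < ∞ := by
    intro i
    have h2 := ENNReal.sum_ne_top.1 htop i (Finset.mem_univ i)
    by_contra h3
    rw [not_lt, top_le_iff] at h3
    rw [h3, ENNReal.mul_top (hlam' i)] at h2
    exact h2 rfl
  refine ENNReal.le_of_forall_pos_le_add fun ε hε _ => ?_
  have hsum : 0 < ∑ i, lam i := Finset.sum_pos (fun i _ => hlam i) ⟨i₀, Finset.mem_univ _⟩
  set η : ℝ≥0∞ := (ε : ℝ≥0∞) / ENNReal.ofReal (∑ i, lam i) with hη
  have hηpos : 0 < η := by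
    rw [hη]
    exact ENNReal.div_pos (by exact_mod_cast hε.ne') ENNReal.ofReal_ne_top
  choose π' hπ'1 hπ'2 hπ'3 using fun i =>
    exists_coupling_of_W2sq_lt (ENNReal.lt_add_right (hfin i).ne hηpos.ne')
  have hπ'prob : ∀ i, IsProbabilityMeasure (π' i) := by
    intro i
    constructor
    have h4 : (π' i).map Prod.fst Set.univ = 1 := by rw [hπ'1 i]; exact measure_univ
    rwa [Measure.map_apply measurable_fst MeasurableSet.univ, Set.preimage_univ] at h4
  let π'' : Fin N → P := fun i => ⟨π' i, hπ'prob i⟩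
  have hπ''A : π'' ∈ A := by
    constructor
    · intro i; exact hπ'2 i
    · intro i j
      change (π' i).map Prod.fst = (π' j).map Prod.fst
      rw [hπ'1, hπ'1]
  calc J π ≤ J π'' := hmin _ hπ''A
    _ ≤ ∑ i, ENNReal.ofReal (lam i) * (W2sq ρ (μ i) + η) := by
        refine Finset.sum_le_sum fun i _ => ?_
        gcongr
        exact (hπ'3 i).le
    _ = ∑ i, ENNReal.ofReal (lam i) * W2sq ρ (μ i) + ε := by
        simp_rw [mul_add]
        rw [Finset.sum_add_distrib, ← Finset.sum_mul, ← ENNReal.ofReal_sum_of_nonneg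
          (fun i _ => (hlam i).le), hη, ENNReal.mul_div_cancel (by simpa using hsum)
          ENNReal.ofReal_ne_top]

end Pool.Agent.LibBary
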