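import Pool.Agent.LibBary.TestFn

/-!
Assembly: three `1`-strongly log-concave measures all of whose barycenters have Poincare constant
larger than one.
-/

open MeasureTheory ProbabilityTheory Filter
open scoped ENNReal NNReal Topology

namespace Pool.Agent.LibBary

variable {n : ℕ} (i₀ i₁ i₂ : Fin n) (h01 : i₀ ≠ i₁) (h02 : i₀ ≠ i₂) (h12 : i₁ ≠ i₂)

theorem dThin_pos (i : Fin n) {δ : ℝ} (hδ : 0 < δ) (j : Fin n) : 0 < dThin i δ j := by
  unfold dThin
  split_ifs
  · exact hδ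
  · exact one_pos

theorem dThin_le (i : Fin n) {δ : ℝ} (hδ : δ ≤ 1) (j : Fin n) : dThin i δ j ≤ 1 := by
  unfold dThin
  split_ifs
  · exact hδ
  · exact le_rfl

theorem dThird_pos {r : ℝ} (h0 : 0 < r) (j : Fin n) : 0 < dThird i₀ i₁ i₂ r j := by
  unfold dThird
  split_ifs <;> positivity

theorem dThird_le {r : ℝ} (h1 : r < 1) (j : Fin n) : dThird i₀ i₁ i₂ r j ≤ 1 := by
  unfold dThird
  split_ifs <;> linarith

include h01 h02 h12

theorem data_slc {r δ : ℝ} (h0 : 0 < r) (h1 : r < 1) (hδ : 0 < δ) (hδ1 : δ ≤ 1) (i : Fin 3) :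
    IsStronglyLogConcave 1 (data i₀ i₁ i₂ r δ i) := by
  fin_cases i
  · exact slc_gauss (dThin i₂ δ) (dThin_pos i₂ hδ) (dThin_le i₂ hδ1)
  · exact slc_gauss (dThin i₁ δ) (dThin_pos i₁ hδ) (dThin_le i₁ hδ1)
  · refine slc_pert i₀ i₁ i₂ h01 h02 h12 (dThird i₀ i₁ i₂ r) (dThird_pos i₀ i₁ i₂ h0)
      (dThird_le i₀ i₁ i₂ h1) ?_ ?_ ?_
    · simp only [dThird, if_true]; linarith
    · simp only [dThird, if_neg h01.symm, if_true]; linarith
    · simp only [dThird, if_neg h02.symm, if_neg h12.symm, if_true]; linarith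

theorem data_prob (r δ : ℝ) (i : Fin 3) : IsProbabilityMeasure (data i₀ i₁ i₂ r δ i) := by
  have := isProbabilityMeasure_Qm i₀ i₁ i₂ h01 h12
  fin_cases i
  · exact Measure.isProbabilityMeasure_map (measurable_scl _).aemeasurable
  · exact Measure.isProbabilityMeasure_map (measurable_scl _).aemeasurable
  · exact Measure.isProbabilityMeasure_map (measurable_scl _).aemeasurable

theorem data_moment (r δ : ℝ) (i : Fin 3) :
    ∫⁻ x, ‖x‖ₑ ^ 2 ∂(data i₀ i₁ i₂ r δ i) < ∞ := by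
  fin_cases i
  · exact lintegral_enorm_sq_map_scl_lt_top (gam n) _ lintegral_sq_gam
  · exact lintegral_enorm_sq_map_scl_lt_top (gam n) _ lintegral_sq_gam
  · exact lintegral_enorm_sq_map_scl_lt_top (Qm i₀ i₁ i₂) _ (lintegral_sq_Qm i₀ i₁ i₂ h01 h02 h12)

theorem data_splits (r δ : ℝ) (i₃ : Fin n) (h03 : i₀ ≠ i₃) (h13 : i₁ ≠ i₃) (h23 : i₂ ≠ i₃)
    (i : Fin 3) :
    SplitsOffGaussian 1 (EuclideanSpace.single i₃ (1 : ℝ)) (data i₀ i₁ i₂ r δ i) := by
  have := isProbabilityMeasure_Qm i₀ i₁ i₂ h01 h12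
  fin_cases i
  · exact splits_of_resample (dThin i₂ δ) i₃ (by simp [dThin, h23.symm]) (gam n) (resample_gam i₃)
  · exact splits_of_resample (dThin i₁ δ) i₃ (by simp [dThin, h13.symm]) (gam n) (resample_gam i₃)
  · exact splits_of_resample (dThird i₀ i₁ i₂ r) i₃
      (by simp [dThird, h03.symm, h13.symm, h23.symm]) (Qm i₀ i₁ i₂)
      (resample_other i₀ i₁ i₂ i₃ h03 h13 h23)

/-- The main construction. -/
theorem main_construction : ∃ r δ : ℝ, 0 < r ∧ r < 1 ∧ 0 < δ ∧ δ ≤ 1 ∧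
    (∃ ν, IsBarycenter (weights r) (data i₀ i₁ i₂ r δ) ν) ∧
    ∀ ν, IsBarycenter (weights r) (data i₀ i₁ i₂ r δ) ν → 1 < poincareConstant ν := by
  obtain ⟨r, f, h0, h1, hf, hcs, hgap⟩ := exists_gap_pos i₀ i₁ i₂ h01 h02 h12
  have := isProbabilityMeasure_Qm i₀ i₁ i₂ h01 h12
  have hstarprob : IsProbabilityMeasure (nuStar i₀ i₁ i₂ r) :=
    Measure.isProbabilityMeasure_map (measurable_scl _).aemeasurable
  obtain ⟨η, hη, hclose⟩ := gap_pos_of_close hf hcs hgap
  have ht := taub_pos h1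
  set δ : ℝ := min 1 (min (taub r / 4) (η ^ 2 * taub r / (4 * (2 * n + 1)))) with hδ
  have hδpos : 0 < δ := lt_min one_pos (lt_min (by positivity) (by positivity))
  have hδ1 : δ ≤ 1 := min_le_left _ _
  have hδ2 : δ ≤ taub r / 4 := (min_le_right _ _).trans (min_le_left _ _)
  have hδ3 : δ ≤ η ^ 2 * taub r / (4 * (2 * n + 1)) := (min_le_right _ _).trans (min_le_right _ _)
  refine ⟨r, δ, h0, h1, hδpos, hδ1, ?_, ?_⟩
  · have hp := data_prob i₀ i₁ i₂ h01 h02 h12 r δ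
    exact exists_isBarycenter (by norm_num) (weights r) (weights_pos h0 h1)
      (data i₀ i₁ i₂ r δ) (data_moment i₀ i₁ i₂ h01 h02 h12 r δ)
  · intro ν hν
    obtain ⟨π, hπ1, hπ2, hπ3, hπ4⟩ := stability i₀ i₁ i₂ h01 h02 h12 h0 h1 hδpos hδ2 hν
    have hν1 := hν.1
    refine one_lt_poincareConstant hf hcs (hclose ν π hν.1 hπ1 hπ2 hπ3 (hπ4.trans ?_))
    rw [le_div_iff₀ (by positivity)] at hδ3
    rw [div_mul_eq_mul_div, div_le_iff₀ ht]
    linarith

section Replicate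

/-- Index map used to replicate the third measure. -/
def rep (N : ℕ) (i : Fin N) : Fin 3 := if i.val = 0 then 0 else if i.val = 1 then 1 else 2

/-- The size of a fibre of `rep`. -/
def fib (N : ℕ) (k : Fin 3) : ℕ := (Finset.univ.filter (fun j : Fin N => rep N j = k)).card

/-- Weights of the replicated family. -/
noncomputable def repW (N : ℕ) (w : Fin 3 → ℝ) (i : Fin N) : ℝ := w (rep N i) / fib N (rep N i)

omit h01 h02 h12 in
theorem fib_pos {N : ℕ} (hN : 3 ≤ N) (k : Fin 3) : 0 < fib N k := by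
  unfold fib
  rw [Finset.card_pos]
  fin_cases k
  · exact ⟨⟨0, by omega⟩, by simp [rep]⟩
  · exact ⟨⟨1, by omega⟩, by simp [rep]⟩
  · exact ⟨⟨2, by omega⟩, by simp [rep]⟩

omit h01 h02 h12 in
theorem repW_pos {N : ℕ} (hN : 3 ≤ N) {w : Fin 3 → ℝ} (hw : ∀ k, 0 < w k) (i : Fin N) :
    0 < repW N w i :=
  div_pos (hw _) (by exact_mod_cast fib_pos hN _)

omit h01 h02 h12 in
theorem sum_repW {N : ℕ} (hN : 3 ≤ N) (w : Fin 3 → ℝ) : ∑ i, repW N w i = ∑ k, w k := by
  rw [← Finset.sum_fiberwise Finset.univ (rep N) (repW N w)]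
  refine Finset.sum_congr rfl fun k _ => ?_
  have h1 : ∀ i ∈ Finset.univ.filter (fun i : Fin N => rep N i = k),
      repW N w i = w k / fib N k := by
    intro i hi
    rw [Finset.mem_filter] at hi
    unfold repW
    rw [hi.2]
  rw [Finset.sum_congr rfl h1, Finset.sum_const, nsmul_eq_mul]
  have h2 : (fib N k : ℝ) ≠ 0 := by exact_mod_cast (fib_pos hN k).ne'
  change (fib N k : ℝ) * (w k / fib N k) = w k
  field_simp

omit h01 h02 h12 in
theorem sum_repW_mul {N : ℕ} (hN : 3 ≤ N) (w : Fin 3 → ℝ) (F : Fin 3 → ℝ≥0∞) :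
    ∑ i, ENNReal.ofReal (repW N w i) * F (rep N i) = ∑ k, ENNReal.ofReal (w k) * F k := by
  rw [← Finset.sum_fiberwise Finset.univ (rep N)
    (fun i => ENNReal.ofReal (repW N w i) * F (rep N i))]
  refine Finset.sum_congr rfl fun k _ => ?_
  have h1 : ∀ i ∈ Finset.univ.filter (fun i : Fin N => rep N i = k),
      ENNReal.ofReal (repW N w i) * F (rep N i) = ENNReal.ofReal (w k / fib N k) * F k := by
    intro i hi
    rw [Finset.mem_filter] at hi
    unfold repW
    rw [hi.2]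
  rw [Finset.sum_congr rfl h1, Finset.sum_const, nsmul_eq_mul]
  have h2 : (0 : ℝ) < fib N k := by exact_mod_cast fib_pos hN k
  have h3 : ((Finset.univ.filter (fun i : Fin N => rep N i = k)).card : ℝ≥0∞)
      = ENNReal.ofReal (fib N k) := by
    rw [ENNReal.ofReal_natCast]
    rfl
  rw [h3, ← mul_assoc, ← ENNReal.ofReal_mul h2.le]
  congr 2
  field_simp

omit h01 h02 h12 in
/-- Replicating a measure and dividing its weight does not change the barycenters. -/
theorem isBarycenter_rep {N : ℕ} (hN : 3 ≤ N) (w : Fin 3 → ℝ)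
    (μ : Fin 3 → Measure (EuclideanSpace ℝ (Fin n))) (ν : Measure (EuclideanSpace ℝ (Fin n))) :
    IsBarycenter (repW N w) (fun i => μ (rep N i)) ν ↔ IsBarycenter w μ ν := by
  unfold IsBarycenter
  simp_rw [fun ρ : Measure (EuclideanSpace ℝ (Fin n)) =>
    sum_repW_mul hN w (fun k => W2sq ρ (μ k))]

end Replicate

end Pool.Agent.LibBary
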