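import Pool.Agent.LibBary.Defs

/-!
The standard Gaussian measure on `Fin n → ℝ`: resampling a coordinate, its density.
-/

open MeasureTheory ProbabilityTheory Filter
open scoped ENNReal NNReal Topology

namespace Pool.Agent.LibBary

variable {n : ℕ}

/-- The standard Gaussian measure on `Fin n → ℝ`. -/
noncomputable def gam (n : ℕ) : Measure (Fin n → ℝ) := Measure.pi (fun _ => gaussianReal 0 1)

instance : IsProbabilityMeasure (gam n) := by unfold gam; infer_instance

/-- Resampling the coordinate `j`. -/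
theorem resample (j : Fin n) {w w₁ : (Fin n → ℝ) → ℝ≥0∞} (hw : Measurable w)
    (hw1 : ∀ g, ∫⁻ t, w (Function.update g j t) ∂(gaussianReal 0 1) = w₁ g) :
    (((gam n).withDensity w).prod (gaussianReal 0 1)).map (fun p => Function.update p.1 j p.2)
      = (gam n).withDensity w₁ := by
  have hupd : Measurable (fun p : (Fin n → ℝ) × ℝ => Function.update p.1 j p.2) :=
    measurable_update'
  have hw1m : Measurable w₁ := by
    have : w₁ = fun g => ∫⁻ t, w (Function.update g j t) ∂(gaussianReal 0 1) := by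
      funext g; exact (hw1 g).symm
    rw [this]
    exact (hw.comp hupd).lintegral_prod_right'
  refine Measure.ext_of_lintegral _ fun F hF => ?_
  rw [lintegral_map hF hupd]
  set H : (Fin n → ℝ) → ℝ≥0∞ := fun g => ∫⁻ t, F (Function.update g j t) ∂(gaussianReal 0 1)
    with hH
  have hHm : Measurable H := (hF.comp hupd).lintegral_prod_right'
  rw [lintegral_prod (fun p => F (Function.update p.1 j p.2)) (hF.comp hupd).aemeasurable]
  change ∫⁻ g, H g ∂((gam n).withDensity w) = _
  rw [lintegral_withDensity_eq_lintegral_mul _ hw hHm,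
    lintegral_withDensity_eq_lintegral_mul _ hw1m hF]
  unfold gam
  refine lintegral_eq_of_lmarginal_eq {j} (hw.mul hHm) (hw1m.mul hF) ?_
  rw [lmarginal_singleton, lmarginal_singleton]
  funext g
  simp only [Pi.mul_apply]
  have hHu : ∀ t, H (Function.update g j t) = H g := by
    intro t
    simp only [hH, Function.update_idem]
  have hw1u : ∀ t, w₁ (Function.update g j t) = w₁ g := by
    intro t
    rw [← hw1, ← hw1]
    simp only [Function.update_idem]
  simp only [hHu, hw1u]
  rw [lintegral_mul_const (H g) (f := fun t => w (Function.update g j t))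
      (hw.comp (measurable_update g)), hw1,
    lintegral_const_mul (w₁ g) (f := fun t => F (Function.update g j t))
      (hF.comp (measurable_update g))]

/-- Product formula for lintegrals over a product of finitely many copies. -/
theorem lintegral_fin_prod : ∀ {m : ℕ} (μ : Fin m → Measure ℝ) [∀ i, SigmaFinite (μ i)]
    (f : Fin m → ℝ → ℝ≥0∞) (_ : ∀ i, Measurable (f i)),
    ∫⁻ x, ∏ i, f i (x i) ∂(Measure.pi μ) = ∏ i, ∫⁻ t, f i t ∂(μ i) := by
  intro m
  induction m with
  | zero =>
    intro μ _ f _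
    simp
  | succ m ih =>
    intro μ _ f hf
    have hmp := (measurePreserving_piFinSuccAbove μ 0).symm
    rw [← hmp.lintegral_comp_emb (MeasurableEquiv.measurableEmbedding _)]
    simp_rw [MeasurableEquiv.piFinSuccAbove_symm_apply, Fin.insertNthEquiv,
      Fin.prod_univ_succ, Fin.insertNth_zero]
    simp only [Fin.zero_succAbove, cast_eq, Equiv.coe_fn_mk, Fin.cons_zero, Fin.cons_succ]
    have hg : Measurable (fun y : Fin m → ℝ => ∏ x, f (Fin.succ x) (y x)) :=
      Finset.measurable_prod _ fun i _ => (hf _).comp (measurable_pi_apply i)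
    rw [lintegral_prod_mul (hf 0).aemeasurable hg.aemeasurable, ih _ _ (fun i => hf _)]

theorem gam_eq_withDensity : gam n = (ENNReal.ofReal (√(2 * Real.pi))⁻¹) ^ n •
    volume.withDensity (fun g : Fin n → ℝ => ENNReal.ofReal (Real.exp (-∑ j, g j ^ 2 / 2))) := by
  unfold gam
  refine Measure.pi_eq (μ := fun _ : Fin n => gaussianReal 0 1) fun s hs => ?_
  have h1 : ∀ i, (gaussianReal 0 1) (s i)
      = ENNReal.ofReal (√(2 * Real.pi))⁻¹ * ∫⁻ t, (s i).indicator
        (fun t => ENNReal.ofReal (Real.exp (-(t ^ 2 / 2)))) t := by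
    intro i
    rw [gaussianReal_of_var_ne_zero _ one_ne_zero, withDensity_apply _ (hs i),
      lintegral_indicator (hs i), ← lintegral_const_mul _ (by fun_prop)]
    refine lintegral_congr fun t => ?_
    rw [gaussianPDF, gaussianPDFReal, ← ENNReal.ofReal_mul (by positivity)]
    congr 2
    · simp
    · congr 1; simp; ring
  simp_rw [h1]
  rw [Finset.prod_mul_distrib, Finset.prod_const, Finset.card_univ, Fintype.card_fin,
    Measure.smul_apply, smul_eq_mul, withDensity_apply _ (MeasurableSet.univ_pi hs),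
    ← lintegral_fin_prod (fun _ : Fin n => volume) (fun i => (s i).indicator
      (fun t => ENNReal.ofReal (Real.exp (-(t ^ 2 / 2)))))
      (fun i => Measurable.indicator (by fun_prop) (hs i)),
    ← lintegral_indicator (MeasurableSet.univ_pi hs)]
  congr 1
  refine lintegral_congr fun g => ?_
  by_cases hg : g ∈ Set.univ.pi s
  · rw [Set.indicator_of_mem hg]
    have : ∀ i, (s i).indicator (fun t => ENNReal.ofReal (Real.exp (-(t ^ 2 / 2)))) (g i)
        = ENNReal.ofReal (Real.exp (-(g i ^ 2 / 2))) := fun i =>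
      Set.indicator_of_mem (hg i (Set.mem_univ i)) _
    simp_rw [this]
    rw [← ENNReal.ofReal_prod_of_nonneg (fun i _ => (Real.exp_pos _).le), ← Real.exp_sum,
      Finset.sum_neg_distrib]
  · rw [Set.indicator_of_notMem hg]
    symm
    simp only [Set.mem_pi, Set.mem_univ, true_implies, not_forall] at hg
    obtain ⟨i, hi⟩ := hg
    exact Finset.prod_eq_zero (Finset.mem_univ i) (Set.indicator_of_notMem hi _)

theorem integral_odd_gaussian {φ : ℝ → ℝ} (hodd : ∀ t, φ (-t) = -φ t) :
    ∫ t, φ t ∂(gaussianReal 0 1) = 0 := by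
  have h1 : (gaussianReal 0 1).map (fun x => -x) = gaussianReal 0 1 := by
    rw [gaussianReal_map_neg, neg_zero]
  have h2 : ∫ t, φ t ∂(gaussianReal 0 1) = ∫ t, φ (-t) ∂(gaussianReal 0 1) := by
    conv_lhs => rw [← h1]
    exact (MeasurableEquiv.neg ℝ).measurableEmbedding.integral_map _
  have h3 : ∫ t, φ (-t) ∂(gaussianReal 0 1) = -∫ t, φ t ∂(gaussianReal 0 1) := by
    rw [← integral_neg]
    exact integral_congr_ae (Eventually.of_forall fun t => hodd t)
  linarith

theorem lintegral_one_add_odd {φ : ℝ → ℝ} (hφ : Measurable φ) (hodd : ∀ t, φ (-t) = -φ t)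
    (hb : ∀ t, |φ t| ≤ 1) :
    ∫⁻ t, ENNReal.ofReal (1 + φ t) ∂(gaussianReal 0 1) = 1 := by
  have hint : Integrable φ (gaussianReal 0 1) :=
    Integrable.of_bound hφ.aestronglyMeasurable 1 (Eventually.of_forall fun t => by
      rw [Real.norm_eq_abs]; exact hb t)
  rw [← ofReal_integral_eq_lintegral_ofReal (f := fun t => 1 + φ t)
    ((integrable_const 1).add hint)
    (Eventually.of_forall fun t => by
      have := abs_le.1 (hb t)
      change (0 : ℝ) ≤ 1 + φ t
      linarith)]
  rw [integral_add (integrable_const 1) hint, integral_odd_gaussian hodd]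
  simp

theorem integral_sq_gaussian : ∫ t, t ^ 2 ∂(gaussianReal 0 1) = 1 := by
  have h := variance_fun_id_gaussianReal (μ := 0) (v := 1)
  rw [variance_eq_integral (by fun_prop)] at h
  simpa [integral_id_gaussianReal] using h

theorem integrable_sq_gaussian : Integrable (fun t : ℝ => t ^ 2) (gaussianReal 0 1) :=
  (memLp_id_gaussianReal (μ := 0) (v := 1) 2).integrable_sq

theorem lintegral_sq_gaussian : ∫⁻ t, ENNReal.ofReal (t ^ 2) ∂(gaussianReal 0 1) = 1 := by
  rw [← ofReal_integral_eq_lintegral_ofReal integrable_sq_gaussian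
    (Eventually.of_forall fun t => sq_nonneg t), integral_sq_gaussian]
  simp

/-- The perturbation of the Gaussian density. -/
noncomputable def pert (i₀ i₁ i₂ : Fin n) (g : Fin n → ℝ) : ℝ :=
  1 + 1 / 20 * (Real.arctan (g i₀) * (Real.sin (g i₁) * Real.sin (g i₂)))

theorem abs_arctan_le (x : ℝ) : |Real.arctan x| ≤ 2 := by
  have h1 := Real.arctan_lt_pi_div_two x
  have h2 := Real.neg_pi_div_two_lt_arctan x
  have h3 := Real.pi_lt_four
  rw [abs_le]
  constructor <;> linarith

theorem abs_term_le (a b c : ℝ) : |Real.arctan a * (Real.sin b * Real.sin c)| ≤ 2 := by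
  rw [abs_mul, abs_mul]
  have h1 := abs_arctan_le a
  have h2 := Real.abs_sin_le_one b
  have h3 := Real.abs_sin_le_one c
  have h4 : |Real.sin b| * |Real.sin c| ≤ 1 := mul_le_one₀ h2 (abs_nonneg _) h3
  nlinarith [abs_nonneg (Real.arctan a), abs_nonneg (Real.sin b), abs_nonneg (Real.sin c),
    mul_nonneg (abs_nonneg (Real.sin b)) (abs_nonneg (Real.sin c))]

theorem pert_ge (i₀ i₁ i₂ : Fin n) (g : Fin n → ℝ) : 9 / 10 ≤ pert i₀ i₁ i₂ g := by
  have := abs_le.1 (abs_term_le (g i₀) (g i₁) (g i₂))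
  unfold pert
  linarith

theorem pert_le (i₀ i₁ i₂ : Fin n) (g : Fin n → ℝ) : pert i₀ i₁ i₂ g ≤ 11 / 10 := by
  have := abs_le.1 (abs_term_le (g i₀) (g i₁) (g i₂))
  unfold pert
  linarith

theorem continuous_pert (i₀ i₁ i₂ : Fin n) : Continuous (pert i₀ i₁ i₂) := by
  unfold pert
  have := Real.continuous_arctan
  fun_prop

/-- The perturbed Gaussian measure. -/
noncomputable def Qm (i₀ i₁ i₂ : Fin n) : Measure (Fin n → ℝ) :=
  (gam n).withDensity (fun g => ENNReal.ofReal (pert i₀ i₁ i₂ g))

theorem measurable_ofReal_pert (i₀ i₁ i₂ : Fin n) :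
    Measurable (fun g => ENNReal.ofReal (pert i₀ i₁ i₂ g)) :=
  (continuous_pert i₀ i₁ i₂).measurable.ennreal_ofReal

/-- Resampling a coordinate which appears in the perturbation through an odd function gives the
standard Gaussian measure. -/
theorem resample_one (i₀ i₁ i₂ : Fin n) (h01 : i₀ ≠ i₁) (h12 : i₁ ≠ i₂) :
    ((Qm i₀ i₁ i₂).prod (gaussianReal 0 1)).map (fun p => Function.update p.1 i₁ p.2) = gam n := by
  have h := resample (n := n) i₁ (w := fun g => ENNReal.ofReal (pert i₀ i₁ i₂ g)) (w₁ := fun _ => 1)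
    (measurable_ofReal_pert i₀ i₁ i₂) (fun g => ?_)
  · simpa [Qm] using h
  simp only [pert, Function.update_self, Function.update_of_ne h01, Function.update_of_ne h12.symm]
  refine lintegral_one_add_odd (φ := fun t =>
    1 / 20 * (Real.arctan (g i₀) * (Real.sin t * Real.sin (g i₂)))) ?_ ?_ ?_
  · have := Real.measurable_sin
    fun_prop
  · intro t
    simp only [Real.sin_neg]
    ring
  · intro t
    have := abs_term_le (g i₀) t (g i₂)
    rw [abs_mul, abs_of_pos (by norm_num : (0 : ℝ) < 1 / 20)]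
    linarith

theorem resample_two (i₀ i₁ i₂ : Fin n) (h02 : i₀ ≠ i₂) (h12 : i₁ ≠ i₂) :
    ((Qm i₀ i₁ i₂).prod (gaussianReal 0 1)).map (fun p => Function.update p.1 i₂ p.2) = gam n := by
  have h := resample (n := n) i₂ (w := fun g => ENNReal.ofReal (pert i₀ i₁ i₂ g)) (w₁ := fun _ => 1)
    (measurable_ofReal_pert i₀ i₁ i₂) (fun g => ?_)
  · simpa [Qm] using h
  simp only [pert, Function.update_self, Function.update_of_ne h02, Function.update_of_ne h12]
  refine lintegral_one_add_odd (φ := fun t =>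
    1 / 20 * (Real.arctan (g i₀) * (Real.sin (g i₁) * Real.sin t))) ?_ ?_ ?_
  · have := Real.measurable_sin
    fun_prop
  · intro t
    simp only [Real.sin_neg]
    ring
  · intro t
    have := abs_term_le (g i₀) (g i₁) t
    rw [abs_mul, abs_of_pos (by norm_num : (0 : ℝ) < 1 / 20)]
    linarith

/-- Resampling a coordinate which does not appear in the perturbation. -/
theorem resample_other (i₀ i₁ i₂ j : Fin n) (h0 : i₀ ≠ j) (h1 : i₁ ≠ j) (h2 : i₂ ≠ j) :
    ((Qm i₀ i₁ i₂).prod (gaussianReal 0 1)).map (fun p => Function.update p.1 j p.2)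
      = Qm i₀ i₁ i₂ := by
  refine resample (n := n) j (w := fun g => ENNReal.ofReal (pert i₀ i₁ i₂ g))
    (w₁ := fun g => ENNReal.ofReal (pert i₀ i₁ i₂ g))
    (measurable_ofReal_pert i₀ i₁ i₂) (fun g => ?_)
  simp only [pert, Function.update_of_ne h0, Function.update_of_ne h1, Function.update_of_ne h2]
  simp

theorem resample_gam (j : Fin n) :
    ((gam n).prod (gaussianReal 0 1)).map (fun p => Function.update p.1 j p.2) = gam n := by
  have h := resample (n := n) j (w := fun _ => 1) (w₁ := fun _ => 1) measurable_const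
    (fun g => by simp)
  simpa using h

/-- Functions which do not depend on the coordinate `i₁`. -/
theorem lintegral_Qm_one (i₀ i₁ i₂ : Fin n) (h01 : i₀ ≠ i₁) (h12 : i₁ ≠ i₂)
    {F : (Fin n → ℝ) → ℝ≥0∞} (hF : Measurable F) (hFi : ∀ g t, F (Function.update g i₁ t) = F g) :
    ∫⁻ g, F g ∂(Qm i₀ i₁ i₂) = ∫⁻ g, F g ∂(gam n) := by
  conv_rhs => rw [← resample_one i₀ i₁ i₂ h01 h12]
  rw [lintegral_map hF measurable_update',
    lintegral_prod (fun p => F (Function.update p.1 i₁ p.2)) (hF.comp measurable_update').aemeasurable]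
  simp [hFi]

theorem lintegral_Qm_two (i₀ i₁ i₂ : Fin n) (h02 : i₀ ≠ i₂) (h12 : i₁ ≠ i₂)
    {F : (Fin n → ℝ) → ℝ≥0∞} (hF : Measurable F) (hFi : ∀ g t, F (Function.update g i₂ t) = F g) :
    ∫⁻ g, F g ∂(Qm i₀ i₁ i₂) = ∫⁻ g, F g ∂(gam n) := by
  conv_rhs => rw [← resample_two i₀ i₁ i₂ h02 h12]
  rw [lintegral_map hF measurable_update',
    lintegral_prod (fun p => F (Function.update p.1 i₂ p.2)) (hF.comp measurable_update').aemeasurable]
  simp [hFi]

theorem isProbabilityMeasure_Qm (i₀ i₁ i₂ : Fin n) (h01 : i₀ ≠ i₁) (h12 : i₁ ≠ i₂) :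
    IsProbabilityMeasure (Qm i₀ i₁ i₂) := by
  constructor
  have h := lintegral_Qm_one i₀ i₁ i₂ h01 h12 (F := fun _ => 1) measurable_const (fun _ _ => rfl)
  simpa using h

theorem lintegral_sq_gam (j : Fin n) : ∫⁻ g, ENNReal.ofReal (g j ^ 2) ∂(gam n) = 1 := by
  have h := (measurePreserving_eval (fun _ : Fin n => gaussianReal 0 1) j)
  have h2 : ∫⁻ t, ENNReal.ofReal (t ^ 2) ∂((gam n).map (Function.eval j)) = 1 := by
    unfold gam
    rw [h.map_eq, lintegral_sq_gaussian]
  rwa [lintegral_map (by fun_prop) (measurable_pi_apply j)] at h2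

theorem lintegral_sq_Qm (i₀ i₁ i₂ : Fin n) (h01 : i₀ ≠ i₁) (h02 : i₀ ≠ i₂) (h12 : i₁ ≠ i₂)
    (j : Fin n) : ∫⁻ g, ENNReal.ofReal (g j ^ 2) ∂(Qm i₀ i₁ i₂) = 1 := by
  have hm : Measurable (fun g : Fin n → ℝ => ENNReal.ofReal (g j ^ 2)) := by fun_prop
  by_cases hj : j = i₁
  · subst hj
    rw [lintegral_Qm_two i₀ j i₂ h02 h12 hm, lintegral_sq_gam]
    intro g t
    rw [Function.update_of_ne h12]
  · rw [lintegral_Qm_one i₀ i₁ i₂ h01 h12 hm, lintegral_sq_gam]
    intro g t
    rw [Function.update_of_ne hj]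

end Pool.Agent.LibBary
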