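import Pool.Agent.LibBary.Gauss

/-!
Strong log-concavity of scaled perturbations of the standard Gaussian measure.
-/

open MeasureTheory ProbabilityTheory Filter
open scoped ENNReal NNReal Topology

namespace Pool.Agent.LibBary

variable {n : ℕ}

/-- Diagonal scaling into Euclidean space. -/
noncomputable def scl (d : Fin n → ℝ) (g : Fin n → ℝ) : EuclideanSpace ℝ (Fin n) :=
  WithLp.toLp 2 (fun j => d j * g j)

@[simp] theorem scl_apply (d g : Fin n → ℝ) (j : Fin n) : scl d g j = d j * g j := rfl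

theorem continuous_scl (d : Fin n → ℝ) : Continuous (scl d) := by
  unfold scl
  fun_prop

theorem measurable_scl (d : Fin n → ℝ) : Measurable (scl d) := (continuous_scl d).measurable

/-- The scaling as a linear equivalence. -/
noncomputable def sclLin (d : Fin n → ℝ) (hd : ∀ j, 0 < d j) :
    (Fin n → ℝ) ≃ₗ[ℝ] EuclideanSpace ℝ (Fin n) where
  toFun := scl d
  invFun x := fun j => x j / d j
  map_add' g h := by
    ext j
    simp [mul_add]
  map_smul' c g := by
    ext j
    simp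
    ring
  left_inv g := by
    funext j
    simp [(hd j).ne']
  right_inv x := by
    ext j
    have := (hd j).ne'
    simp only [scl_apply]
    field_simp

theorem sclLin_apply (d : Fin n → ℝ) (hd : ∀ j, 0 < d j) (g : Fin n → ℝ) :
    sclLin d hd g = scl d g := rfl

theorem exists_map_scl_volume (d : Fin n → ℝ) (hd : ∀ j, 0 < d j) :
    ∃ c : ℝ≥0, (volume : Measure (Fin n → ℝ)).map (scl d)
      = c • (volume : Measure (EuclideanSpace ℝ (Fin n))) := by
  have h1 : ((volume : Measure (Fin n → ℝ)).map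
      (sclLin d hd).toContinuousLinearEquiv).IsAddHaarMeasure :=
    (sclLin d hd).toContinuousLinearEquiv.isAddHaarMeasure_map volume
  exact ⟨_, Measure.isAddLeftInvariant_eq_smul
    ((volume : Measure (Fin n → ℝ)).map (sclLin d hd).toContinuousLinearEquiv)
    (volume : Measure (EuclideanSpace ℝ (Fin n)))⟩

theorem map_withDensity_comp {X Y : Type*} [MeasurableSpace X] [MeasurableSpace Y] {μ : Measure X}
    {L : X → Y} (hL : Measurable L) {f : Y → ℝ≥0∞} (hf : Measurable f) :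
    (μ.withDensity (fun x => f (L x))).map L = (μ.map L).withDensity f := by
  refine Measure.ext_of_lintegral _ fun F hF => ?_
  rw [lintegral_map hF hL, lintegral_withDensity_eq_lintegral_mul μ
    (f := fun x => f (L x)) (hf.comp hL) (g := fun x => F (L x)) (hF.comp hL),
    lintegral_withDensity_eq_lintegral_mul _ hf hF, lintegral_map (hf.mul hF) hL]
  rfl

/-- General criterion for `1`-strong log-concavity of a scaled perturbed Gaussian. -/
theorem isStronglyLogConcave_map (d : Fin n → ℝ) (hd : ∀ j, 0 < d j) {w : (Fin n → ℝ) → ℝ}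
    (hwc : Continuous w) (hw : ∀ g, 0 < w g)
    (hprob : IsProbabilityMeasure ((gam n).withDensity (fun g => ENNReal.ofReal (w g))))
    (hconv : ConvexOn ℝ Set.univ
      (fun g : Fin n → ℝ => ∑ j, (1 - d j ^ 2) / 2 * g j ^ 2 - Real.log (w g))) :
    IsStronglyLogConcave 1 (((gam n).withDensity (fun g => ENNReal.ofReal (w g))).map (scl d)) := by
  set ψ : (Fin n → ℝ) → ℝ := fun g => ∑ j, g j ^ 2 / 2 - Real.log (w g) with hψ
  have hψc : Continuous ψ := by
    refine Continuous.sub (by fun_prop) ?_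
    exact hwc.log (fun g => (hw g).ne')
  let inv : EuclideanSpace ℝ (Fin n) → (Fin n → ℝ) := (sclLin d hd).symm
  have hinvapp : ∀ x j, inv x j = x j / d j := fun x j => rfl
  have hinvc : Continuous inv := (sclLin d hd).symm.toContinuousLinearEquiv.continuous
  have hinvL : ∀ g, inv (scl d g) = g := fun g => (sclLin d hd).symm_apply_apply g
  set V : EuclideanSpace ℝ (Fin n) → EReal := fun x => ((ψ (inv x) : ℝ) : EReal) with hV
  have hexp : ∀ x, EReal.exp (-V x) = ENNReal.ofReal (Real.exp (-ψ (inv x))) := by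
    intro x
    simp only [hV]
    rw [← EReal.coe_neg, EReal.exp_coe]
  have hexpm : Measurable (fun x => ENNReal.ofReal (Real.exp (-ψ (inv x)))) := by
    have : Continuous (fun x => Real.exp (-ψ (inv x))) :=
      Real.continuous_exp.comp (hψc.comp hinvc).neg
    exact this.measurable.ennreal_ofReal
  obtain ⟨c, hc⟩ := exists_map_scl_volume d hd
  set C : ℝ≥0∞ := (ENNReal.ofReal (√(2 * Real.pi))⁻¹) ^ n with hC
  have hdens : (gam n).withDensity (fun g => ENNReal.ofReal (w g))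
      = C • (volume : Measure (Fin n → ℝ)).withDensity
        (fun g => (fun x => ENNReal.ofReal (Real.exp (-ψ (inv x)))) (scl d g)) := by
    rw [gam_eq_withDensity, withDensity_smul_measure, ← withDensity_mul]
    · congr 2
      funext g
      simp only [Pi.mul_apply]
      rw [← ENNReal.ofReal_mul (Real.exp_pos _).le, hinvL]
      congr 1
      simp only [hψ]
      rw [neg_sub, sub_eq_add_neg, Real.exp_add, Real.exp_log (hw g), mul_comm]
    · exact (Real.continuous_exp.comp (by fun_prop)).measurable.ennreal_ofReal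
    · exact hwc.measurable.ennreal_ofReal
  have hμ : ((gam n).withDensity (fun g => ENNReal.ofReal (w g))).map (scl d)
      = (C * c) • expMeasure V := by
    unfold expMeasure
    rw [hdens, Measure.map_smul, map_withDensity_comp (measurable_scl d) hexpm, hc]
    simp_rw [hexp]
    rw [show (c • (volume : Measure (EuclideanSpace ℝ (Fin n))))
      = (c : ℝ≥0∞) • (volume : Measure (EuclideanSpace ℝ (Fin n))) from rfl,
      withDensity_smul_measure, smul_smul]
  have hone : (C * c) * expMeasure V Set.univ = 1 := by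
    have h1 : ((gam n).withDensity (fun g => ENNReal.ofReal (w g))).map (scl d) Set.univ = 1 := by
      rw [Measure.map_apply (measurable_scl d) MeasurableSet.univ, Set.preimage_univ]
      exact measure_univ
    rw [hμ, Measure.smul_apply, smul_eq_mul] at h1
    exact h1
  have hZ0 : expMeasure V Set.univ ≠ 0 := by
    intro h; rw [h, mul_zero] at hone; exact zero_ne_one hone
  have hZtop : expMeasure V Set.univ ≠ ∞ := by
    intro h
    rw [h] at hone
    rcases eq_or_ne (C * c) 0 with h0 | h0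
    · rw [h0, zero_mul] at hone; exact zero_ne_one hone
    · rw [ENNReal.mul_top h0] at hone; exact ENNReal.top_ne_one hone
  refine ⟨V, fun x => EReal.coe_ne_bot _, ⟨0, EReal.coe_ne_top _⟩, ?_, ?_,
    pos_iff_ne_zero.2 hZ0, lt_top_iff_ne_top.2 hZtop, ?_⟩
  · exact (continuous_coe_real_ereal.comp (hψc.comp hinvc)).lowerSemicontinuous
  · have hconv2 : ConvexOn ℝ Set.univ (fun x : EuclideanSpace ℝ (Fin n) =>
        ∑ j, (1 - d j ^ 2) / 2 * (inv x) j ^ 2 - Real.log (w (inv x))) := by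
      have := hconv.comp_linearMap ((sclLin d hd).symm : EuclideanSpace ℝ (Fin n) →ₗ[ℝ] (Fin n → ℝ))
      exact this
    have heq : ∀ x : EuclideanSpace ℝ (Fin n), ψ (inv x) = 1 / 2 * ‖x‖ ^ 2 +
        (∑ j, (1 - d j ^ 2) / 2 * (inv x) j ^ 2 - Real.log (w (inv x))) := by
      intro x
      rw [EuclideanSpace.real_norm_sq_eq, Finset.mul_sum, ← add_sub_assoc,
        ← Finset.sum_add_distrib]
      simp only [hψ]
      congr 1
      refine Finset.sum_congr rfl fun j _ => ?_
      rw [hinvapp]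
      have := (hd j).ne'
      field_simp
      ring
    have hset : {p : EuclideanSpace ℝ (Fin n) × ℝ |
        V p.1 ≤ ((1 / 2 * ‖p.1‖ ^ 2 + p.2 : ℝ) : EReal)}
        = {p : EuclideanSpace ℝ (Fin n) × ℝ | p.1 ∈ Set.univ ∧
          (∑ j, (1 - d j ^ 2) / 2 * (inv p.1) j ^ 2 - Real.log (w (inv p.1))) ≤ p.2} := by
      ext p
      change ((ψ (inv p.1) : ℝ) : EReal) ≤ ((1 / 2 * ‖p.1‖ ^ 2 + p.2 : ℝ) : EReal) ↔ _ ∧ _
      rw [EReal.coe_le_coe_iff, heq, add_le_add_iff_left]
      simp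
    rw [hset]
    exact hconv2.convex_epigraph
  · rw [hμ]
    congr 1
    exact ENNReal.eq_inv_of_mul_eq_one_left hone

/-- Convexity along lines implies convexity. -/
theorem convexOn_of_lines {E : Type*} [AddCommGroup E] [Module ℝ E] {f : E → ℝ}
    (h : ∀ x v : E, ConvexOn ℝ Set.univ (fun t : ℝ => f (x + t • v))) :
    ConvexOn ℝ Set.univ f := by
  refine ⟨convex_univ, fun x _ y _ a b ha hb hab => ?_⟩
  have h1 := (h x (y - x)).2 (Set.mem_univ 0) (Set.mem_univ 1) ha hb hab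
  simp only [smul_eq_mul, mul_zero, mul_one, zero_add, zero_smul, add_zero, one_smul,
    add_sub_cancel] at h1
  have h2 : a • x + b • y = x + b • (y - x) := by
    have : a = 1 - b := by linarith
    rw [this, sub_smul, one_smul, smul_sub]
    abel
  rw [h2]
  exact h1

/-- The one-dimensional convexity estimate. -/
theorem convexOn_line (u₀ u₁ u₂ v₀ v₁ v₂ : ℝ) : ConvexOn ℝ Set.univ (fun t : ℝ =>
    1 / 4 * ((u₀ + t * v₀) ^ 2 + (u₁ + t * v₁) ^ 2 + (u₂ + t * v₂) ^ 2)
      - Real.log (1 + 1 / 20 * (Real.arctan (u₀ + t * v₀) *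
        (Real.sin (u₁ + t * v₁) * Real.sin (u₂ + t * v₂))))) := by
  set B : ℝ → ℝ := fun t => 1 + 1 / 20 * (Real.arctan (u₀ + t * v₀) *
        (Real.sin (u₁ + t * v₁) * Real.sin (u₂ + t * v₂))) with hB
  have hBlow : ∀ t, 9 / 10 ≤ B t := by
    intro t
    have := abs_le.1 (abs_term_le (u₀ + t * v₀) (u₁ + t * v₁) (u₂ + t * v₂))
    simp only [hB]
    linarith
  have hA : ∀ u v t : ℝ, HasDerivAt (fun t : ℝ => u + t * v) v t := by
    intro u v t
    simpa using ((hasDerivAt_id t).mul_const v).const_add u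
  -- the two factors and their derivatives
  set P : ℝ → ℝ := fun t => Real.arctan (u₀ + t * v₀) with hP
  set P' : ℝ → ℝ := fun t => (1 + (u₀ + t * v₀) ^ 2)⁻¹ * v₀ with hP'
  set P'' : ℝ → ℝ := fun t => -(2 * (u₀ + t * v₀) * v₀) / (1 + (u₀ + t * v₀) ^ 2) ^ 2 * v₀ with hP''
  set Q : ℝ → ℝ := fun t => Real.sin (u₁ + t * v₁) * Real.sin (u₂ + t * v₂) with hQ
  set Q' : ℝ → ℝ := fun t => Real.cos (u₁ + t * v₁) * v₁ * Real.sin (u₂ + t * v₂)
    + Real.sin (u₁ + t * v₁) * (Real.cos (u₂ + t * v₂) * v₂) with hQ'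
  set Q'' : ℝ → ℝ := fun t => (-Real.sin (u₁ + t * v₁) * v₁ * v₁ * Real.sin (u₂ + t * v₂)
    + Real.cos (u₁ + t * v₁) * v₁ * (Real.cos (u₂ + t * v₂) * v₂))
    + (Real.cos (u₁ + t * v₁) * v₁ * (Real.cos (u₂ + t * v₂) * v₂)
    + Real.sin (u₁ + t * v₁) * (-Real.sin (u₂ + t * v₂) * v₂ * v₂)) with hQ''
  have dP : ∀ t, HasDerivAt P (P' t) t := fun t =>
    ((hA u₀ v₀ t).arctan).congr_deriv (by simp only [hP', one_div])
  have dP' : ∀ t, HasDerivAt P' (P'' t) t := by
    intro t
    have h1 : HasDerivAt (fun t : ℝ => 1 + (u₀ + t * v₀) ^ 2) (2 * (u₀ + t * v₀) * v₀) t := by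
      refine (((hA u₀ v₀ t).fun_pow 2).const_add 1).congr_deriv ?_
      norm_num
    exact (h1.fun_inv (by positivity : (1 : ℝ) + (u₀ + t * v₀) ^ 2 ≠ 0)).mul_const v₀
  have dQ : ∀ t, HasDerivAt Q (Q' t) t := fun t =>
    ((hA u₁ v₁ t).sin).mul ((hA u₂ v₂ t).sin)
  have dQ' : ∀ t, HasDerivAt Q' (Q'' t) t := fun t =>
    ((((hA u₁ v₁ t).cos).mul_const v₁).mul ((hA u₂ v₂ t).sin)).add
      (((hA u₁ v₁ t).sin).mul (((hA u₂ v₂ t).cos).mul_const v₂))
  have dB : ∀ t, HasDerivAt B (1 / 20 * (P' t * Q t + P t * Q' t)) t := by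
    intro t
    exact (((dP t).mul (dQ t)).const_mul (1 / 20)).const_add 1
  have dB' : ∀ t, HasDerivAt (fun t => 1 / 20 * (P' t * Q t + P t * Q' t))
      (1 / 20 * ((P'' t * Q t + P' t * Q' t) + (P' t * Q' t + P t * Q'' t))) t := by
    intro t
    exact ((((dP' t).mul (dQ t)).add ((dP t).mul (dQ' t))).const_mul (1 / 20))
  have bP : ∀ t, |P t| ≤ 2 := fun t => abs_arctan_le _
  have bP' : ∀ t, |P' t| ≤ |v₀| := by
    intro t
    simp only [hP']
    rw [abs_mul]
    have h1 : |(1 + (u₀ + t * v₀) ^ 2)⁻¹| ≤ 1 := by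
      rw [abs_of_pos (by positivity)]
      exact inv_le_one_of_one_le₀ (by nlinarith [sq_nonneg (u₀ + t * v₀)])
    nlinarith [abs_nonneg v₀]
  have bP'' : ∀ t, |P'' t| ≤ |v₀| ^ 2 := by
    intro t
    simp only [hP'']
    set A := u₀ + t * v₀ with hAdef
    have h1 : -(2 * A * v₀) / (1 + A ^ 2) ^ 2 * v₀ = -(2 * A / (1 + A ^ 2) ^ 2) * v₀ ^ 2 := by
      field_simp
    rw [h1, abs_mul, abs_neg, abs_div, abs_of_pos (by positivity : 0 < (1 + A ^ 2) ^ 2),
      abs_pow]
    have h2 : |2 * A| / (1 + A ^ 2) ^ 2 ≤ 1 := by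
      rw [div_le_one (by positivity), abs_le]
      constructor <;> nlinarith [sq_nonneg A, sq_nonneg (A + 1), sq_nonneg (A - 1),
        sq_nonneg (A ^ 2)]
    nlinarith [sq_nonneg |v₀|]
  have bQ : ∀ t, |Q t| ≤ 1 := by
    intro t
    simp only [hQ]
    rw [abs_mul]
    exact mul_le_one₀ (Real.abs_sin_le_one _) (abs_nonneg _) (Real.abs_sin_le_one _)
  have bQ' : ∀ t, |Q' t| ≤ |v₁| + |v₂| := by
    intro t
    simp only [hQ']
    refine (abs_add_le _ _).trans (add_le_add ?_ ?_)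
    · rw [abs_mul, abs_mul]
      have h1 := Real.abs_cos_le_one (u₁ + t * v₁)
      have h2 := Real.abs_sin_le_one (u₂ + t * v₂)
      calc |Real.cos (u₁ + t * v₁)| * |v₁| * |Real.sin (u₂ + t * v₂)| ≤ 1 * |v₁| * 1 := by gcongr
        _ = |v₁| := by ring
    · rw [abs_mul, abs_mul]
      have h1 := Real.abs_sin_le_one (u₁ + t * v₁)
      have h2 := Real.abs_cos_le_one (u₂ + t * v₂)
      calc |Real.sin (u₁ + t * v₁)| * (|Real.cos (u₂ + t * v₂)| * |v₂|) ≤ 1 * (1 * |v₂|) := by
            gcongr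
        _ = |v₂| := by ring
  have bQ'' : ∀ t, |Q'' t| ≤ (|v₁| + |v₂|) ^ 2 := by
    intro t
    simp only [hQ'']
    have hs1 := Real.abs_sin_le_one (u₁ + t * v₁)
    have hs2 := Real.abs_sin_le_one (u₂ + t * v₂)
    have hc1 := Real.abs_cos_le_one (u₁ + t * v₁)
    have hc2 := Real.abs_cos_le_one (u₂ + t * v₂)
    have e1 : |(-Real.sin (u₁ + t * v₁) * v₁ * v₁ * Real.sin (u₂ + t * v₂))| ≤ |v₁| * |v₁| := by
      rw [abs_mul, abs_mul, abs_mul, abs_neg]
      calc |Real.sin (u₁ + t * v₁)| * |v₁| * |v₁| * |Real.sin (u₂ + t * v₂)|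
          ≤ 1 * |v₁| * |v₁| * 1 := by gcongr
        _ = |v₁| * |v₁| := by ring
    have e2 : |Real.cos (u₁ + t * v₁) * v₁ * (Real.cos (u₂ + t * v₂) * v₂)| ≤ |v₁| * |v₂| := by
      rw [abs_mul, abs_mul, abs_mul]
      calc |Real.cos (u₁ + t * v₁)| * |v₁| * (|Real.cos (u₂ + t * v₂)| * |v₂|)
          ≤ 1 * |v₁| * (1 * |v₂|) := by gcongr
        _ = |v₁| * |v₂| := by ring
    have e3 : |Real.sin (u₁ + t * v₁) * (-Real.sin (u₂ + t * v₂) * v₂ * v₂)| ≤ |v₂| * |v₂| := by
      rw [abs_mul, abs_mul, abs_mul, abs_neg]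
      calc |Real.sin (u₁ + t * v₁)| * (|Real.sin (u₂ + t * v₂)| * |v₂| * |v₂|)
          ≤ 1 * (1 * |v₂| * |v₂|) := by gcongr
        _ = |v₂| * |v₂| := by ring
    calc _ ≤ (|v₁| * |v₁| + |v₁| * |v₂|) + (|v₁| * |v₂| + |v₂| * |v₂|) := by
          refine (abs_add_le _ _).trans (add_le_add ?_ ?_)
          · exact (abs_add_le _ _).trans (add_le_add e1 e2)
          · exact (abs_add_le _ _).trans (add_le_add e2 e3)
      _ = (|v₁| + |v₂|) ^ 2 := by ring
  refine convexOn_of_hasDerivWithinAt2_nonneg convex_univ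
    (f' := fun t => 1 / 4 * (2 * (u₀ + t * v₀) * v₀ + 2 * (u₁ + t * v₁) * v₁
      + 2 * (u₂ + t * v₂) * v₂) - (1 / 20 * (P' t * Q t + P t * Q' t)) / B t)
    (f'' := fun t => 1 / 4 * (2 * v₀ * v₀ + 2 * v₁ * v₁ + 2 * v₂ * v₂)
      - ((1 / 20 * ((P'' t * Q t + P' t * Q' t) + (P' t * Q' t + P t * Q'' t))) * B t
        - (1 / 20 * (P' t * Q t + P t * Q' t)) * (1 / 20 * (P' t * Q t + P t * Q' t)))
        / B t ^ 2) ?_ ?_ ?_ ?_
  · refine Continuous.continuousOn (Continuous.sub (by fun_prop) (Continuous.log ?_ ?_))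
    · exact continuous_iff_continuousAt.2 fun t => (dB t).continuousAt
    · intro t
      have := hBlow t
      positivity
  · intro t _
    have hBt : B t ≠ 0 := by have := hBlow t; positivity
    have h1 : ∀ u v : ℝ, HasDerivAt (fun t : ℝ => (u + t * v) ^ 2) (2 * (u + t * v) * v) t := by
      intro u v
      refine ((hA u v t).fun_pow 2).congr_deriv ?_
      norm_num
    exact (((((h1 u₀ v₀).add (h1 u₁ v₁)).add (h1 u₂ v₂)).const_mul (1 / 4)).sub
      ((dB t).log hBt)).hasDerivWithinAt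
  · intro t _
    have hBt : B t ≠ 0 := by have := hBlow t; positivity
    have h1 : ∀ u v : ℝ, HasDerivAt (fun t : ℝ => 2 * (u + t * v) * v) (2 * v * v) t := by
      intro u v
      exact ((hA u v t).const_mul 2).mul_const v
    exact (((((h1 u₀ v₀).add (h1 u₁ v₁)).add (h1 u₂ v₂)).const_mul (1 / 4)).sub
      ((dB' t).div (dB t) hBt)).hasDerivWithinAt
  · intro t _
    have hBt := hBlow t
    have hBpos : 0 < B t := by linarith
    set D2 := 1 / 20 * ((P'' t * Q t + P' t * Q' t) + (P' t * Q' t + P t * Q'' t)) with hD2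
    set D1 := 1 / 20 * (P' t * Q t + P t * Q' t) with hD1
    have h1 : |D2| ≤ 1 / 20 * (|v₀| ^ 2 + 2 * (|v₀| * (|v₁| + |v₂|)) + 2 * (|v₁| + |v₂|) ^ 2) := by
      rw [hD2, abs_mul, abs_of_pos (by norm_num : (0 : ℝ) < 1 / 20)]
      gcongr
      have e1 : |P'' t * Q t| ≤ |v₀| ^ 2 * 1 := by
        rw [abs_mul]
        exact mul_le_mul (bP'' t) (bQ t) (abs_nonneg _) (by positivity)
      have e2 : |P' t * Q' t| ≤ |v₀| * (|v₁| + |v₂|) := by
        rw [abs_mul]
        exact mul_le_mul (bP' t) (bQ' t) (abs_nonneg _) (by positivity)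
      have e3 : |P t * Q'' t| ≤ 2 * (|v₁| + |v₂|) ^ 2 := by
        rw [abs_mul]
        exact mul_le_mul (bP t) (bQ'' t) (abs_nonneg _) (by positivity)
      calc _ ≤ (|v₀| ^ 2 * 1 + |v₀| * (|v₁| + |v₂|))
            + (|v₀| * (|v₁| + |v₂|) + 2 * (|v₁| + |v₂|) ^ 2) := by
            refine (abs_add_le _ _).trans (add_le_add ?_ ?_)
            · exact (abs_add_le _ _).trans (add_le_add e1 e2)
            · exact (abs_add_le _ _).trans (add_le_add e2 e3)
        _ = _ := by ring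
    have h2 : |D2| ≤ 3 / 10 * (v₀ ^ 2 + v₁ ^ 2 + v₂ ^ 2) := by
      refine h1.trans ?_
      have k0 := sq_abs v₀
      have k1 := sq_abs v₁
      have k2 := sq_abs v₂
      nlinarith [sq_nonneg (|v₀| - (|v₁| + |v₂|)), sq_nonneg (|v₁| - |v₂|), sq_nonneg |v₀|,
        sq_nonneg |v₁|, sq_nonneg |v₂|]
    have h3 : (D2 * B t - D1 * D1) / B t ^ 2 ≤ 1 / 2 * (v₀ ^ 2 + v₁ ^ 2 + v₂ ^ 2) := by
      rw [div_le_iff₀ (by positivity)]
      have h4 := (abs_le.1 h2).2
      have h5 : 0 ≤ v₀ ^ 2 + v₁ ^ 2 + v₂ ^ 2 := by positivity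
      have h6 : D2 * B t ≤ 3 / 10 * (v₀ ^ 2 + v₁ ^ 2 + v₂ ^ 2) * B t := by gcongr
      have h7 : 3 / 10 * (v₀ ^ 2 + v₁ ^ 2 + v₂ ^ 2) * B t
          ≤ 1 / 2 * (v₀ ^ 2 + v₁ ^ 2 + v₂ ^ 2) * B t ^ 2 := by
        have h8 : 3 / 10 * B t ≤ 1 / 2 * B t ^ 2 := by nlinarith
        nlinarith
      nlinarith [mul_self_nonneg D1]
    change (0 : ℝ) ≤ 1 / 4 * (2 * v₀ * v₀ + 2 * v₁ * v₁ + 2 * v₂ * v₂)
      - (D2 * B t - D1 * D1) / B t ^ 2
    nlinarith

theorem convexOn_sq_line (c u v : ℝ) (hc : 0 ≤ c) :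
    ConvexOn ℝ Set.univ (fun t : ℝ => c * (u + t * v) ^ 2) := by
  refine ⟨convex_univ, fun x _ y _ a b ha hb hab => ?_⟩
  simp only [smul_eq_mul]
  have ha' : a = 1 - b := by linarith
  subst ha'
  have h1 : 0 ≤ c * ((1 - b) * b * ((x - y) * v) ^ 2) := by positivity
  nlinarith

/-- The potential of the third measure minus the quadratic part is convex. -/
theorem convexOn_pot (i₀ i₁ i₂ : Fin n) (h01 : i₀ ≠ i₁) (h02 : i₀ ≠ i₂) (h12 : i₁ ≠ i₂)
    (c : Fin n → ℝ) (hc : ∀ j, 0 ≤ c j) (hc0 : 1 / 4 ≤ c i₀) (hc1 : 1 / 4 ≤ c i₁)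
    (hc2 : 1 / 4 ≤ c i₂) :
    ConvexOn ℝ Set.univ
      (fun g : Fin n → ℝ => ∑ j, c j * g j ^ 2 - Real.log (pert i₀ i₁ i₂ g)) := by
  refine convexOn_of_lines fun x v => ?_
  set c' : Fin n → ℝ := fun j => c j - ((if j = i₀ then 1 / 4 else 0) +
    (if j = i₁ then 1 / 4 else 0) + (if j = i₂ then 1 / 4 else 0)) with hc'
  have hc'0 : ∀ j, 0 ≤ c' j := by
    intro j
    simp only [hc']
    by_cases h0 : j = i₀
    · subst h0
      simp [h01, h02]
      linarith
    · by_cases h1 : j = i₁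
      · subst h1
        simp [h0, h12]
        linarith
      · by_cases h2 : j = i₂
        · subst h2
          simp [h0, h1]
          linarith
        · simp [h0, h1, h2, hc j]
  have hsum : ∀ g : Fin n → ℝ, ∑ j, c j * g j ^ 2 = ∑ j, c' j * g j ^ 2
      + 1 / 4 * (g i₀ ^ 2 + g i₁ ^ 2 + g i₂ ^ 2) := by
    intro g
    simp only [hc', sub_mul, add_mul, ite_mul, zero_mul, Finset.sum_sub_distrib,
      Finset.sum_add_distrib, Finset.sum_ite_eq', Finset.mem_univ, if_true]
    ring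
  have h1 : ConvexOn ℝ Set.univ (fun t : ℝ => ∑ j, c' j * (x j + t * v j) ^ 2) := by
    have : (fun t : ℝ => ∑ j, c' j * (x j + t * v j) ^ 2)
        = ∑ j, (fun t : ℝ => c' j * (x j + t * v j) ^ 2) := by
      funext t
      simp
    rw [this]
    exact Finset.sum_induction _ (ConvexOn ℝ Set.univ) (fun a b => ConvexOn.add)
      (convexOn_const 0 convex_univ) (fun j _ => convexOn_sq_line _ _ _ (hc'0 j))
  have h2 := h1.add (convexOn_line (x i₀) (x i₁) (x i₂) (v i₀) (v i₁) (v i₂))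
  refine h2.congr fun t _ => ?_
  simp only [Pi.add_apply, Pi.smul_apply, smul_eq_mul, hsum, pert]
  ring

theorem slc_gauss (d : Fin n → ℝ) (hd : ∀ j, 0 < d j) (hd1 : ∀ j, d j ≤ 1) :
    IsStronglyLogConcave 1 ((gam n).map (scl d)) := by
  have h := isStronglyLogConcave_map (n := n) d hd (w := fun _ => 1) continuous_const
    (fun _ => one_pos) (by simpa using (inferInstance : IsProbabilityMeasure (gam n))) ?_
  · simpa using h
  refine convexOn_of_lines fun x v => ?_
  have : (fun t : ℝ => ∑ j, (1 - d j ^ 2) / 2 * (x + t • v) j ^ 2 - Real.log 1)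
        = ∑ j, (fun t : ℝ => (1 - d j ^ 2) / 2 * (x j + t * v j) ^ 2) := by
    funext t
    simp
  rw [this]
  refine Finset.sum_induction _ (ConvexOn ℝ Set.univ) (fun a b => ConvexOn.add)
      (convexOn_const 0 convex_univ) (fun j _ => convexOn_sq_line _ _ _ ?_)
  have h1 := hd j
  have h2 := hd1 j
  nlinarith

theorem slc_pert (i₀ i₁ i₂ : Fin n) (h01 : i₀ ≠ i₁) (h02 : i₀ ≠ i₂) (h12 : i₁ ≠ i₂)
    (d : Fin n → ℝ) (hd : ∀ j, 0 < d j) (hd1 : ∀ j, d j ≤ 1) (hd0 : d i₀ ≤ 1 / 2)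
    (hd1' : d i₁ ≤ 1 / 2) (hd2 : d i₂ ≤ 1 / 2) :
    IsStronglyLogConcave 1 ((Qm i₀ i₁ i₂).map (scl d)) := by
  refine isStronglyLogConcave_map (n := n) d hd (w := pert i₀ i₁ i₂) (continuous_pert i₀ i₁ i₂)
    (fun g => by have := pert_ge i₀ i₁ i₂ g; linarith) (isProbabilityMeasure_Qm i₀ i₁ i₂ h01 h12) ?_
  have h1 := hd i₀
  have h2 := hd i₁
  have h3 := hd i₂
  refine convexOn_pot i₀ i₁ i₂ h01 h02 h12 (fun j => (1 - d j ^ 2) / 2) (fun j => ?_) ?_ ?_ ?_
  · have h4 := hd j
    have h5 := hd1 j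
    nlinarith
  · nlinarith
  · nlinarith
  · nlinarith

/-- If the coordinate `i₃` of a probability measure can be resampled, the scaled measure splits off
a Gaussian factor. -/
theorem splits_of_resample (d : Fin n → ℝ) (i₃ : Fin n) (hd3 : d i₃ = 1)
    (Q : Measure (Fin n → ℝ)) [IsProbabilityMeasure Q]
    (hres : (Q.prod (gaussianReal 0 1)).map (fun p => Function.update p.1 i₃ p.2) = Q) :
    SplitsOffGaussian 1 (EuclideanSpace.single i₃ (1 : ℝ)) (Q.map (scl d)) := by
  set e : EuclideanSpace ℝ (Fin n) := EuclideanSpace.single i₃ (1 : ℝ) with he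
  let π : (Fin n → ℝ) → EuclideanSpace ℝ (Fin n) := fun g => scl d (Function.update g i₃ 0)
  have hmem : ∀ g : Fin n → ℝ, inner ℝ e (π g) = 0 := by
    intro g
    rw [he, EuclideanSpace.inner_single_left]
    simp [π]
  have hπ : Measurable π := (measurable_scl d).comp (measurable_update_left (a := i₃))
  have hdecomp : ∀ (g : Fin n → ℝ) (t : ℝ), scl d (Function.update g i₃ t)
      = t • e + scl d (Function.update g i₃ 0) := by
    intro g t
    ext j
    by_cases hj : j = i₃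
    · subst hj
      simp [he, hd3]
    · simp [he, hj]
  have hmean : inner ℝ e (∫ x, x ∂(Q.map (scl d))) = 0 := by
    by_cases hint : Integrable (fun x : EuclideanSpace ℝ (Fin n) => x) (Q.map (scl d))
    · rw [← integral_inner hint]
      have h1 : ∀ x : EuclideanSpace ℝ (Fin n), inner ℝ e x = x i₃ := by
        intro x
        rw [he, EuclideanSpace.inner_single_left]
        simp
      simp_rw [h1]
      rw [integral_map (measurable_scl d).aemeasurable (by fun_prop)]
      simp only [scl_apply, hd3, one_mul]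
      have hm3 : Measurable (fun x : Fin n → ℝ => x i₃) := measurable_pi_apply i₃
      rw [← hres, integral_map (f := fun x : Fin n → ℝ => x i₃) measurable_update'.aemeasurable
        hm3.aestronglyMeasurable]
      simp only [Function.update_self]
      have h2 : ∫ p : (Fin n → ℝ) × ℝ, p.2 ∂(Q.prod (gaussianReal 0 1))
          = ∫ t, t ∂((Q.prod (gaussianReal 0 1)).map Prod.snd) := by
        rw [integral_map measurable_snd.aemeasurable (by fun_prop)]
      rw [h2]
      simp [integral_id_gaussianReal]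
    · rw [integral_undef hint, inner_zero_right]
  refine ⟨Q.map π, Measure.isProbabilityMeasure_map hπ.aemeasurable, ?_, ?_⟩
  · rw [ae_map_iff hπ.aemeasurable (measurableSet_eq_fun (by fun_prop) (by fun_prop))]
    exact Eventually.of_forall hmem
  rw [hmean]
  have hv : Real.toNNReal (1 : ℝ)⁻¹ = 1 := by simp
  rw [hv]
  have hadd : Measurable (fun p : ℝ × EuclideanSpace ℝ (Fin n) => p.1 • e + p.2) := by
    fun_prop
  have h3 : (gaussianReal 0 1).prod (Q.map π)
      = (Q.prod (gaussianReal 0 1)).map (fun p => (p.2, π p.1)) := by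
    have h4 : (gaussianReal 0 1).prod (Q.map π)
        = ((gaussianReal 0 1).map id).prod (Q.map π) := by rw [Measure.map_id]
    rw [h4, Measure.map_prod_map _ _ measurable_id hπ, ← Measure.prod_swap,
      Measure.map_map (measurable_id.prodMap hπ) measurable_swap]
    rfl
  rw [h3, Measure.map_map hadd (by fun_prop)]
  conv_lhs => rw [← hres]
  rw [Measure.map_map (measurable_scl d) measurable_update']
  congr 1
  funext p
  exact hdecomp p.1 p.2

end Pool.Agent.LibBary
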