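import Pool.Agent.LibBary.LogConc
import Pool.Agent.LibBary.Exist

/-!
Second moments and costs, coordinate by coordinate.
-/

open MeasureTheory ProbabilityTheory Filter
open scoped ENNReal NNReal Topology

namespace Pool.Agent.LibBary

variable {n : ℕ}

theorem enorm_sq_eq_sum (x : EuclideanSpace ℝ (Fin n)) :
    ‖x‖ₑ ^ 2 = ∑ j, ENNReal.ofReal (x j ^ 2) := by
  rw [← ofReal_norm, ← ENNReal.ofReal_pow (norm_nonneg _), EuclideanSpace.real_norm_sq_eq,
    ENNReal.ofReal_sum_of_nonneg (fun i _ => sq_nonneg _)]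

theorem cost_eq_sum (π : Measure (EuclideanSpace ℝ (Fin n) × EuclideanSpace ℝ (Fin n))) :
    cost π = ∑ j, ∫⁻ p, ENNReal.ofReal ((p.1 j - p.2 j) ^ 2) ∂π := by
  unfold cost
  simp_rw [enorm_sq_eq_sum]
  rw [lintegral_finsetSum _ (fun j _ => by fun_prop)]
  rfl

/-- The second moment of a scaled measure. -/
theorem lintegral_sq_map_scl (Q : Measure (Fin n → ℝ)) (d : Fin n → ℝ) (j : Fin n)
    (hQ : ∫⁻ g, ENNReal.ofReal (g j ^ 2) ∂Q = 1) :
    ∫⁻ x, ENNReal.ofReal (x j ^ 2) ∂(Q.map (scl d)) = ENNReal.ofReal (d j ^ 2) := by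
  rw [lintegral_map (by fun_prop) (measurable_scl d)]
  simp only [scl_apply, mul_pow]
  simp_rw [ENNReal.ofReal_mul (sq_nonneg (d j))]
  rw [lintegral_const_mul _ (by fun_prop), hQ, mul_one]

theorem lintegral_enorm_sq_map_scl_lt_top (Q : Measure (Fin n → ℝ)) (d : Fin n → ℝ)
    (hQ : ∀ j, ∫⁻ g, ENNReal.ofReal (g j ^ 2) ∂Q = 1) :
    ∫⁻ x, ‖x‖ₑ ^ 2 ∂(Q.map (scl d)) < ∞ := by
  simp_rw [enorm_sq_eq_sum]
  rw [lintegral_finsetSum _ (fun j _ => by fun_prop)]
  refine ENNReal.sum_lt_top.2 fun j _ => ?_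
  rw [lintegral_sq_map_scl Q d j (hQ j)]
  exact ENNReal.ofReal_lt_top

/-- The cost of the diagonal coupling of two scalings. -/
theorem cost_map_scl_scl (Q : Measure (Fin n → ℝ)) (d d' : Fin n → ℝ)
    (hQ : ∀ j, ∫⁻ g, ENNReal.ofReal (g j ^ 2) ∂Q = 1) :
    cost (Q.map (fun g => (scl d g, scl d' g))) = ENNReal.ofReal (∑ j, (d j - d' j) ^ 2) := by
  have hm : Measurable (fun g : Fin n → ℝ => (scl d g, scl d' g)) :=
    (measurable_scl d).prodMk (measurable_scl d')
  rw [cost_eq_sum, ENNReal.ofReal_sum_of_nonneg (fun i _ => sq_nonneg _)]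
  refine Finset.sum_congr rfl fun j _ => ?_
  rw [lintegral_map (by fun_prop) hm]
  simp only [scl_apply]
  have h1 : ∀ g : Fin n → ℝ, ENNReal.ofReal ((d j * g j - d' j * g j) ^ 2)
      = ENNReal.ofReal ((d j - d' j) ^ 2) * ENNReal.ofReal (g j ^ 2) := by
    intro g
    rw [← ENNReal.ofReal_mul (sq_nonneg _)]
    congr 1
    ring
  simp_rw [h1]
  rw [lintegral_const_mul _ (by fun_prop), hQ j, mul_one]

/-- The cost of the coupling in which the coordinate `i` is resampled. -/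
theorem cost_resample_le (Q : Measure (Fin n → ℝ)) [IsProbabilityMeasure Q] (d : Fin n → ℝ)
    (i : Fin n) {δ : ℝ} (hδ : 0 < δ)
    (hQ : ∀ j, ∫⁻ g, ENNReal.ofReal (g j ^ 2) ∂Q = 1) :
    cost ((Q.prod (gaussianReal 0 1)).map (fun p =>
      (scl d p.1, scl (fun j => if j = i then δ else 1) (Function.update p.1 i p.2))))
    ≤ ENNReal.ofReal (∑ j, if j = i then (1 + δ) * d j ^ 2 + (δ ^ 2 + δ) else (d j - 1) ^ 2) := by
  have hm : Measurable (fun p : (Fin n → ℝ) × ℝ =>
      (scl d p.1, scl (fun j => if j = i then δ else 1) (Function.update p.1 i p.2))) :=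
    ((measurable_scl d).comp measurable_fst).prodMk ((measurable_scl _).comp measurable_update')
  have hfst : ∀ j, ∫⁻ p, ENNReal.ofReal (p.1 j ^ 2) ∂(Q.prod (gaussianReal 0 1)) = 1 := by
    intro j
    have h := lintegral_prod (μ := Q) (ν := gaussianReal 0 1)
      (fun p : (Fin n → ℝ) × ℝ => ENNReal.ofReal (p.1 j ^ 2)) (by fun_prop)
    rw [h]
    simp [hQ j]
  have hsnd : ∫⁻ p, ENNReal.ofReal (p.2 ^ 2) ∂(Q.prod (gaussianReal 0 1)) = 1 := by
    have h := lintegral_prod (μ := Q) (ν := gaussianReal 0 1)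
      (fun p : (Fin n → ℝ) × ℝ => ENNReal.ofReal (p.2 ^ 2)) (by fun_prop)
    rw [h]
    simp [lintegral_sq_gaussian]
  rw [cost_eq_sum, ENNReal.ofReal_sum_of_nonneg (fun j _ => by split_ifs <;> positivity)]
  refine Finset.sum_le_sum fun j _ => ?_
  rw [lintegral_map (by fun_prop) hm]
  simp only [scl_apply]
  by_cases hj : j = i
  · subst hj
    simp only [if_true, Function.update_self]
    calc ∫⁻ p : (Fin n → ℝ) × ℝ, ENNReal.ofReal ((d j * p.1 j - δ * p.2) ^ 2)
          ∂(Q.prod (gaussianReal 0 1))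
        ≤ ∫⁻ p : (Fin n → ℝ) × ℝ, (ENNReal.ofReal ((1 + δ) * d j ^ 2) * ENNReal.ofReal (p.1 j ^ 2)
          + ENNReal.ofReal (δ ^ 2 + δ) * ENNReal.ofReal (p.2 ^ 2))
          ∂(Q.prod (gaussianReal 0 1)) := by
          refine lintegral_mono fun p => ?_
          simp only
          rw [← ENNReal.ofReal_mul (by positivity), ← ENNReal.ofReal_mul (by positivity),
            ← ENNReal.ofReal_add (by positivity) (by positivity)]
          refine ENNReal.ofReal_le_ofReal ?_
          nlinarith [mul_nonneg hδ.le (sq_nonneg (d j * p.1 j + p.2))]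
      _ = ENNReal.ofReal ((1 + δ) * d j ^ 2 + (δ ^ 2 + δ)) := by
          rw [lintegral_add_left (by fun_prop), lintegral_const_mul _ (by fun_prop),
            lintegral_const_mul _ (by fun_prop), hfst j, hsnd, mul_one, mul_one,
            ← ENNReal.ofReal_add (by positivity) (by positivity)]
  · simp only [if_neg hj, Function.update_of_ne hj, one_mul]
    have h1 : ∀ p : (Fin n → ℝ) × ℝ, ENNReal.ofReal ((d j * p.1 j - p.1 j) ^ 2)
        = ENNReal.ofReal ((d j - 1) ^ 2) * ENNReal.ofReal (p.1 j ^ 2) := by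
      intro p
      rw [← ENNReal.ofReal_mul (sq_nonneg _)]
      congr 1
      ring
    simp_rw [h1]
    rw [lintegral_const_mul _ (by fun_prop), hfst j, mul_one]

/-- Square integrability of coordinates. -/
theorem memLp_of_lintegral {X : Type*} [MeasurableSpace X] {μ : Measure X} {f : X → ℝ}
    (hf : Measurable f) (h : ∫⁻ x, ENNReal.ofReal (f x ^ 2) ∂μ < ∞) : MemLp f 2 μ := by
  rw [memLp_two_iff_integrable_sq hf.aestronglyMeasurable]
  refine ⟨(hf.pow_const 2).aestronglyMeasurable, ?_⟩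
  rw [hasFiniteIntegral_iff_ofReal (Eventually.of_forall fun x => sq_nonneg _)]
  exact h

theorem integral_eq_of_lintegral {X : Type*} [MeasurableSpace X] {μ : Measure X} {f : X → ℝ}
    (hf : Measurable f) (h0 : ∀ x, 0 ≤ f x) {c : ℝ} (hc : 0 ≤ c)
    (h : ∫⁻ x, ENNReal.ofReal (f x) ∂μ = ENNReal.ofReal c) : ∫ x, f x ∂μ = c := by
  rw [integral_eq_lintegral_of_nonneg_ae (Eventually.of_forall h0) hf.aestronglyMeasurable, h,
    ENNReal.toReal_ofReal hc]

end Pool.Agent.LibBary
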