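import Pool.Agent.LibBary.Moments

/-!
Stability: barycenters of the nearly degenerate data are close to the limit measure.
-/

open MeasureTheory ProbabilityTheory Filter
open scoped ENNReal NNReal Topology

namespace Pool.Agent.LibBary

variable {n : ℕ}

/-- Scale vector of a thin Gaussian, thin in the direction `i`. -/
noncomputable def dThin (i : Fin n) (δ : ℝ) : Fin n → ℝ := fun j => if j = i then δ else 1

/-- Scale vector of the third measure. -/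
noncomputable def dThird (i₀ i₁ i₂ : Fin n) (r : ℝ) : Fin n → ℝ :=
  fun j => if j = i₀ then r / 2 else if j = i₁ then r / 4 else if j = i₂ then r / 4 else 1

/-- Scale vector of the limit measure. -/
noncomputable def dStar (i₀ i₁ i₂ : Fin n) (r : ℝ) : Fin n → ℝ :=
  fun j => if j = i₀ then r else if j = i₁ then r / 2 else if j = i₂ then r / 2 else 1

/-- The weights. -/
noncomputable def lamb (r : ℝ) : ℝ := r / (2 * (2 - r))

noncomputable def taub (r : ℝ) : ℝ := 2 * (1 - r) / (2 - r)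

noncomputable def weights (r : ℝ) : Fin 3 → ℝ := ![lamb r, lamb r, taub r]

/-- The three measures. -/
noncomputable def data (i₀ i₁ i₂ : Fin n) (r δ : ℝ) :
    Fin 3 → Measure (EuclideanSpace ℝ (Fin n)) :=
  ![(gam n).map (scl (dThin i₂ δ)), (gam n).map (scl (dThin i₁ δ)),
    (Qm i₀ i₁ i₂).map (scl (dThird i₀ i₁ i₂ r))]

/-- The limit measure. -/
noncomputable def nuStar (i₀ i₁ i₂ : Fin n) (r : ℝ) : Measure (EuclideanSpace ℝ (Fin n)) :=
  (Qm i₀ i₁ i₂).map (scl (dStar i₀ i₁ i₂ r))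

/-- The per-coordinate upper bound for the functional at the limit measure. -/
noncomputable def Ub (i₀ i₁ i₂ : Fin n) (r δ : ℝ) (j : Fin n) : ℝ :=
  lamb r * (if j = i₂ then (1 + δ) * dStar i₀ i₁ i₂ r j ^ 2 + (δ ^ 2 + δ)
    else (dStar i₀ i₁ i₂ r j - 1) ^ 2)
  + lamb r * (if j = i₁ then (1 + δ) * dStar i₀ i₁ i₂ r j ^ 2 + (δ ^ 2 + δ)
    else (dStar i₀ i₁ i₂ r j - 1) ^ 2)
  + taub r * (dStar i₀ i₁ i₂ r j - dThird i₀ i₁ i₂ r j) ^ 2

theorem lamb_pos {r : ℝ} (h0 : 0 < r) (h1 : r < 1) : 0 < lamb r :=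
  div_pos h0 (by linarith)

theorem taub_pos {r : ℝ} (h1 : r < 1) : 0 < taub r :=
  div_pos (by linarith) (by linarith)

theorem two_lamb_add_taub {r : ℝ} (h1 : r < 1) : 2 * lamb r + taub r = 1 := by
  have : (2 : ℝ) - r ≠ 0 := by linarith
  unfold lamb taub
  field_simp
  ring

theorem lamb_taub {r : ℝ} (h1 : r < 1) : 4 * lamb r * (1 - r) = taub r * r := by
  have : (2 : ℝ) - r ≠ 0 := by linarith
  unfold lamb taub
  field_simp
  ring

theorem weights_pos {r : ℝ} (h0 : 0 < r) (h1 : r < 1) (i : Fin 3) : 0 < weights r i := by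
  fin_cases i
  · exact lamb_pos h0 h1
  · exact lamb_pos h0 h1
  · exact taub_pos h1

theorem sum_weights {r : ℝ} (h1 : r < 1) : ∑ i, weights r i = 1 := by
  simp only [Fin.sum_univ_three, weights, Matrix.cons_val_zero, Matrix.cons_val_one,
    Matrix.cons_val_two, Matrix.head_cons, Matrix.tail_cons]
  linarith [two_lamb_add_taub h1]

section Couplings

variable (i₀ i₁ i₂ : Fin n) (h01 : i₀ ≠ i₁) (h02 : i₀ ≠ i₂) (h12 : i₁ ≠ i₂)

include h01 h02 h12

theorem W2sq_star_one {r δ : ℝ} (hδ : 0 < δ) :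
    W2sq (nuStar i₀ i₁ i₂ r) (data i₀ i₁ i₂ r δ 0) ≤ ENNReal.ofReal
      (∑ j, if j = i₂ then (1 + δ) * dStar i₀ i₁ i₂ r j ^ 2 + (δ ^ 2 + δ)
        else (dStar i₀ i₁ i₂ r j - 1) ^ 2) := by
  have := isProbabilityMeasure_Qm i₀ i₁ i₂ h01 h12
  refine le_trans (W2sq_le_cost (π := ((Qm i₀ i₁ i₂).prod (gaussianReal 0 1)).map (fun p =>
      (scl (dStar i₀ i₁ i₂ r) p.1, scl (dThin i₂ δ) (Function.update p.1 i₂ p.2)))) ?_ ?_)
    (cost_resample_le (Qm i₀ i₁ i₂) (dStar i₀ i₁ i₂ r) i₂ hδ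
      (lintegral_sq_Qm i₀ i₁ i₂ h01 h02 h12))
  · have hm : Measurable (fun p : (Fin n → ℝ) × ℝ =>
        (scl (dStar i₀ i₁ i₂ r) p.1, scl (dThin i₂ δ) (Function.update p.1 i₂ p.2))) :=
      ((measurable_scl _).comp measurable_fst).prodMk ((measurable_scl _).comp measurable_update')
    rw [Measure.map_map measurable_fst hm]
    have h1 : (Prod.fst ∘ fun p : (Fin n → ℝ) × ℝ =>
        (scl (dStar i₀ i₁ i₂ r) p.1, scl (dThin i₂ δ) (Function.update p.1 i₂ p.2)))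
        = scl (dStar i₀ i₁ i₂ r) ∘ Prod.fst := rfl
    rw [h1, ← Measure.map_map (measurable_scl _) measurable_fst]
    simp [nuStar]
  · have hm : Measurable (fun p : (Fin n → ℝ) × ℝ =>
        (scl (dStar i₀ i₁ i₂ r) p.1, scl (dThin i₂ δ) (Function.update p.1 i₂ p.2))) :=
      ((measurable_scl _).comp measurable_fst).prodMk ((measurable_scl _).comp measurable_update')
    rw [Measure.map_map measurable_snd hm]
    have h1 : (Prod.snd ∘ fun p : (Fin n → ℝ) × ℝ =>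
        (scl (dStar i₀ i₁ i₂ r) p.1, scl (dThin i₂ δ) (Function.update p.1 i₂ p.2)))
        = scl (dThin i₂ δ) ∘ (fun p => Function.update p.1 i₂ p.2) := rfl
    rw [h1, ← Measure.map_map (measurable_scl _) measurable_update',
      resample_two i₀ i₁ i₂ h02 h12]
    rfl

theorem W2sq_star_two {r δ : ℝ} (hδ : 0 < δ) :
    W2sq (nuStar i₀ i₁ i₂ r) (data i₀ i₁ i₂ r δ 1) ≤ ENNReal.ofReal
      (∑ j, if j = i₁ then (1 + δ) * dStar i₀ i₁ i₂ r j ^ 2 + (δ ^ 2 + δ)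
        else (dStar i₀ i₁ i₂ r j - 1) ^ 2) := by
  have := isProbabilityMeasure_Qm i₀ i₁ i₂ h01 h12
  refine le_trans (W2sq_le_cost (π := ((Qm i₀ i₁ i₂).prod (gaussianReal 0 1)).map (fun p =>
      (scl (dStar i₀ i₁ i₂ r) p.1, scl (dThin i₁ δ) (Function.update p.1 i₁ p.2)))) ?_ ?_)
    (cost_resample_le (Qm i₀ i₁ i₂) (dStar i₀ i₁ i₂ r) i₁ hδ
      (lintegral_sq_Qm i₀ i₁ i₂ h01 h02 h12))
  · have hm : Measurable (fun p : (Fin n → ℝ) × ℝ =>
        (scl (dStar i₀ i₁ i₂ r) p.1, scl (dThin i₁ δ) (Function.update p.1 i₁ p.2))) :=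
      ((measurable_scl _).comp measurable_fst).prodMk ((measurable_scl _).comp measurable_update')
    rw [Measure.map_map measurable_fst hm]
    have h1 : (Prod.fst ∘ fun p : (Fin n → ℝ) × ℝ =>
        (scl (dStar i₀ i₁ i₂ r) p.1, scl (dThin i₁ δ) (Function.update p.1 i₁ p.2)))
        = scl (dStar i₀ i₁ i₂ r) ∘ Prod.fst := rfl
    rw [h1, ← Measure.map_map (measurable_scl _) measurable_fst]
    simp [nuStar]
  · have hm : Measurable (fun p : (Fin n → ℝ) × ℝ =>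
        (scl (dStar i₀ i₁ i₂ r) p.1, scl (dThin i₁ δ) (Function.update p.1 i₁ p.2))) :=
      ((measurable_scl _).comp measurable_fst).prodMk ((measurable_scl _).comp measurable_update')
    rw [Measure.map_map measurable_snd hm]
    have h1 : (Prod.snd ∘ fun p : (Fin n → ℝ) × ℝ =>
        (scl (dStar i₀ i₁ i₂ r) p.1, scl (dThin i₁ δ) (Function.update p.1 i₁ p.2)))
        = scl (dThin i₁ δ) ∘ (fun p => Function.update p.1 i₁ p.2) := rfl
    rw [h1, ← Measure.map_map (measurable_scl _) measurable_update',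
      resample_one i₀ i₁ i₂ h01 h12]
    rfl

theorem W2sq_star_three {r δ : ℝ} :
    W2sq (nuStar i₀ i₁ i₂ r) (data i₀ i₁ i₂ r δ 2) ≤ ENNReal.ofReal
      (∑ j, (dStar i₀ i₁ i₂ r j - dThird i₀ i₁ i₂ r j) ^ 2) := by
  have := isProbabilityMeasure_Qm i₀ i₁ i₂ h01 h12
  have hm : Measurable (fun g : Fin n → ℝ => (scl (dStar i₀ i₁ i₂ r) g,
      scl (dThird i₀ i₁ i₂ r) g)) := (measurable_scl _).prodMk (measurable_scl _)
  rw [← cost_map_scl_scl (Qm i₀ i₁ i₂) (dStar i₀ i₁ i₂ r) (dThird i₀ i₁ i₂ r)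
    (lintegral_sq_Qm i₀ i₁ i₂ h01 h02 h12)]
  refine W2sq_le_cost ?_ ?_
  · rw [Measure.map_map measurable_fst hm]; rfl
  · rw [Measure.map_map measurable_snd hm]; rfl

theorem functional_star_le {r δ : ℝ} (h0 : 0 < r) (h1 : r < 1) (hδ : 0 < δ) :
    ∑ i, ENNReal.ofReal (weights r i) * W2sq (nuStar i₀ i₁ i₂ r) (data i₀ i₁ i₂ r δ i)
      ≤ ENNReal.ofReal (∑ j, Ub i₀ i₁ i₂ r δ j) := by
  have hl := lamb_pos h0 h1
  have ht := taub_pos h1
  have hs1 : 0 ≤ ∑ j, (if j = i₂ then (1 + δ) * dStar i₀ i₁ i₂ r j ^ 2 + (δ ^ 2 + δ)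
        else (dStar i₀ i₁ i₂ r j - 1) ^ 2) :=
    Finset.sum_nonneg fun j _ => by split_ifs <;> positivity
  have hs2 : 0 ≤ ∑ j, (if j = i₁ then (1 + δ) * dStar i₀ i₁ i₂ r j ^ 2 + (δ ^ 2 + δ)
        else (dStar i₀ i₁ i₂ r j - 1) ^ 2) :=
    Finset.sum_nonneg fun j _ => by split_ifs <;> positivity
  have hs3 : 0 ≤ ∑ j, (dStar i₀ i₁ i₂ r j - dThird i₀ i₁ i₂ r j) ^ 2 :=
    Finset.sum_nonneg fun j _ => by positivity
  have hU : ∑ j, Ub i₀ i₁ i₂ r δ j =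
      lamb r * (∑ j, (if j = i₂ then (1 + δ) * dStar i₀ i₁ i₂ r j ^ 2 + (δ ^ 2 + δ)
        else (dStar i₀ i₁ i₂ r j - 1) ^ 2))
      + lamb r * (∑ j, (if j = i₁ then (1 + δ) * dStar i₀ i₁ i₂ r j ^ 2 + (δ ^ 2 + δ)
        else (dStar i₀ i₁ i₂ r j - 1) ^ 2))
      + taub r * (∑ j, (dStar i₀ i₁ i₂ r j - dThird i₀ i₁ i₂ r j) ^ 2) := by
    simp only [Ub, Finset.sum_add_distrib, Finset.mul_sum]
  rw [hU, ENNReal.ofReal_add (by positivity) (by positivity),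
    ENNReal.ofReal_add (by positivity) (by positivity), ENNReal.ofReal_mul hl.le,
    ENNReal.ofReal_mul hl.le, ENNReal.ofReal_mul ht.le, Fin.sum_univ_three]
  refine add_le_add (add_le_add ?_ ?_) ?_
  · exact mul_le_mul' le_rfl (W2sq_star_one i₀ i₁ i₂ h01 h02 h12 hδ)
  · exact mul_le_mul' le_rfl (W2sq_star_two i₀ i₁ i₂ h01 h02 h12 hδ)
  · exact mul_le_mul' le_rfl (W2sq_star_three i₀ i₁ i₂ h01 h02 h12)

end Couplings

section Lower

variable {π : Measure (EuclideanSpace ℝ (Fin n) × EuclideanSpace ℝ (Fin n))}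

theorem memLp_diff (hc : cost π < ∞) (j : Fin n) : MemLp (fun p => p.1 j - p.2 j) 2 π := by
  refine memLp_of_lintegral (by fun_prop) ?_
  rw [cost_eq_sum] at hc
  exact ENNReal.sum_lt_top.1 hc j (Finset.mem_univ j)

theorem memLp_snd {μ : Measure (EuclideanSpace ℝ (Fin n))} (h2 : π.map Prod.snd = μ) (j : Fin n)
    (hμ : ∫⁻ x, ENNReal.ofReal (x j ^ 2) ∂μ < ∞) : MemLp (fun p => p.2 j) 2 π := by
  refine memLp_of_lintegral (by fun_prop) ?_
  rw [← h2, lintegral_map (by fun_prop) measurable_snd] at hμ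
  exact hμ

theorem memLp_fst {μ : Measure (EuclideanSpace ℝ (Fin n))} (hc : cost π < ∞)
    (h2 : π.map Prod.snd = μ) (j : Fin n)
    (hμ : ∫⁻ x, ENNReal.ofReal (x j ^ 2) ∂μ < ∞) : MemLp (fun p => p.1 j) 2 π := by
  have h := (memLp_diff hc j).add (memLp_snd h2 j hμ)
  refine h.congr_norm (by fun_prop) (Eventually.of_forall fun p => ?_)
  simp

theorem cost_toReal (hc : cost π < ∞) :
    (cost π).toReal = ∑ j, ∫ p, (p.1 j - p.2 j) ^ 2 ∂π := by
  have h := hc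
  rw [cost_eq_sum] at h ⊢
  rw [ENNReal.toReal_sum (fun j _ => (ENNReal.sum_lt_top.1 h j (Finset.mem_univ j)).ne)]
  refine Finset.sum_congr rfl fun j _ => ?_
  rw [integral_eq_lintegral_of_nonneg_ae (Eventually.of_forall fun p => sq_nonneg _) (by fun_prop)]

/-- The basic convexity inequality, integrated. -/
theorem diff_ge {μ : Measure (EuclideanSpace ℝ (Fin n))} (hc : cost π < ∞)
    (h2 : π.map Prod.snd = μ) (j : Fin n)
    (hμ : ∫⁻ x, ENNReal.ofReal (x j ^ 2) ∂μ < ∞) {a : ℝ} (ha : 0 < a) :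
    (1 - a) * ∫ p, p.1 j ^ 2 ∂π + (1 - 1 / a) * ∫ p, p.2 j ^ 2 ∂π
      ≤ ∫ p, (p.1 j - p.2 j) ^ 2 ∂π := by
  have i1 := (memLp_fst hc h2 j hμ).integrable_sq
  have i2 := (memLp_snd h2 j hμ).integrable_sq
  have i3 := (memLp_diff hc j).integrable_sq
  rw [← integral_const_mul, ← integral_const_mul, ← integral_add (i1.const_mul _) (i2.const_mul _)]
  refine integral_mono ((i1.const_mul _).add (i2.const_mul _)) i3 fun p => ?_
  simp only
  have h : 0 ≤ (a * p.1 j - p.2 j) ^ 2 / a := by positivity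
  have h' : (p.1 j - p.2 j) ^ 2 = ((1 - a) * p.1 j ^ 2 + (1 - 1 / a) * p.2 j ^ 2)
      + (a * p.1 j - p.2 j) ^ 2 / a := by
    field_simp
    ring
  linarith

theorem diff_eq {μ : Measure (EuclideanSpace ℝ (Fin n))} (hc : cost π < ∞)
    (h2 : π.map Prod.snd = μ) (j : Fin n)
    (hμ : ∫⁻ x, ENNReal.ofReal (x j ^ 2) ∂μ < ∞) :
    ∫ p, (p.1 j - p.2 j) ^ 2 ∂π = 1 / 2 * ∫ p, p.1 j ^ 2 ∂π - ∫ p, p.2 j ^ 2 ∂π
      + 1 / 2 * ∫ p, (p.1 j - 2 * p.2 j) ^ 2 ∂π := by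
  have m1 := memLp_fst hc h2 j hμ
  have m2 := memLp_snd h2 j hμ
  have i1 := m1.integrable_sq
  have i2 := m2.integrable_sq
  have i4 : Integrable (fun p : EuclideanSpace ℝ (Fin n) × EuclideanSpace ℝ (Fin n) =>
      (p.1 j - 2 * p.2 j) ^ 2) π := (m1.sub (m2.const_mul 2)).integrable_sq
  have i5 : Integrable (fun p : EuclideanSpace ℝ (Fin n) × EuclideanSpace ℝ (Fin n) =>
      1 / 2 * p.1 j ^ 2 - p.2 j ^ 2) π := (i1.const_mul _).sub i2
  rw [← integral_const_mul, ← integral_const_mul, ← integral_sub (i1.const_mul _) i2,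
    ← integral_add i5 (i4.const_mul _)]
  refine integral_congr_ae (Eventually.of_forall fun p => ?_)
  simp only
  ring

theorem fst_le {μ : Measure (EuclideanSpace ℝ (Fin n))} (hc : cost π < ∞)
    (h2 : π.map Prod.snd = μ) (j : Fin n)
    (hμ : ∫⁻ x, ENNReal.ofReal (x j ^ 2) ∂μ < ∞) :
    ∫ p, p.1 j ^ 2 ∂π ≤ 2 * ∫ p, (p.1 j - 2 * p.2 j) ^ 2 ∂π + 8 * ∫ p, p.2 j ^ 2 ∂π := by
  have m1 := memLp_fst hc h2 j hμ
  have m2 := memLp_snd h2 j hμ
  have i1 := m1.integrable_sq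
  have i2 := m2.integrable_sq
  have i4 : Integrable (fun p : EuclideanSpace ℝ (Fin n) × EuclideanSpace ℝ (Fin n) =>
      (p.1 j - 2 * p.2 j) ^ 2) π := (m1.sub (m2.const_mul 2)).integrable_sq
  rw [← integral_const_mul, ← integral_const_mul,
    ← integral_add (i4.const_mul _) (i2.const_mul _)]
  refine integral_mono i1 ((i4.const_mul _).add (i2.const_mul _)) fun p => ?_
  simp only
  nlinarith [sq_nonneg (p.1 j - 4 * p.2 j)]

theorem coord_zero {r δ X D1 D2 D3 G : ℝ} (h0 : 0 < r) (h1 : r < 1) (hδ : 0 < δ) (hG : 0 ≤ G)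
    (hD1 : (1 - 1 / r) * X + (1 - 1 / (1 / r)) * 1 ≤ D1)
    (hD2 : (1 - 1 / r) * X + (1 - 1 / (1 / r)) * 1 ≤ D2)
    (hD3 : D3 = 1 / 2 * X - (r / 2) ^ 2 + 1 / 2 * G) :
    (lamb r * (r - 1) ^ 2 + lamb r * (r - 1) ^ 2 + taub r * (r - r / 2) ^ 2) + taub r / 4 * G
      - 2 * δ ≤ lamb r * D1 + lamb r * D2 + taub r * D3 := by
  have hl := lamb_pos h0 h1
  have ht := taub_pos h1
  have hlt := lamb_taub (r := r) h1
  have k1 : 2 * lamb r * (1 - 1 / r) = -(taub r / 2) := by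
    field_simp
    linarith
  rw [one_div_one_div] at hD1 hD2
  have e1 := mul_le_mul_of_nonneg_left hD1 hl.le
  have e2 := mul_le_mul_of_nonneg_left hD2 hl.le
  rw [hD3]
  have e3 : 0 ≤ taub r * G := by positivity
  have k2 : 2 * lamb r * (1 - 1 / r) * X = -(taub r / 2) * X := by rw [k1]
  have k3 : 2 * lamb r * (1 - r) = taub r * r / 2 := by linarith
  have k4 : 2 * lamb r * (1 - r) * (1 - r) = taub r * r / 2 * (1 - r) := by rw [k3]
  nlinarith

theorem coord_thin {r δ X D1 D2 D3 G : ℝ} (h0 : 0 < r) (h1 : r < 1) (hδ : 0 < δ)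
    (hδ' : δ ≤ taub r / 4) (hG : 0 ≤ G)
    (hD1 : (1 - 2 / r) * X + (1 - 1 / (2 / r)) * 1 ≤ D1)
    (hD2 : (1 - δ) * X + (1 - 1 / δ) * δ ^ 2 ≤ D2)
    (hD3 : D3 = 1 / 2 * X - (r / 4) ^ 2 + 1 / 2 * G)
    (hX : X ≤ 2 * G + 8 * (r / 4) ^ 2) :
    (lamb r * (r / 2 - 1) ^ 2 + lamb r * ((1 + δ) * (r / 2) ^ 2 + (δ ^ 2 + δ))
      + taub r * (r / 2 - r / 4) ^ 2) + taub r / 4 * G
      - 2 * δ ≤ lamb r * D1 + lamb r * D2 + taub r * D3 := by
  have hl := lamb_pos h0 h1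
  have ht := taub_pos h1
  have hlt := lamb_taub (r := r) h1
  have hsum := two_lamb_add_taub (r := r) h1
  have k1 : 2 * lamb r * (1 - 1 / r) = -(taub r / 2) := by
    field_simp
    linarith
  rw [one_div_div] at hD1
  have e1 := mul_le_mul_of_nonneg_left hD1 hl.le
  have e2 := mul_le_mul_of_nonneg_left hD2 hl.le
  rw [hD3]
  have k2 : lamb r * (2 - 2 / r) * X = -(taub r / 2) * X := by
    rw [← k1]; ring
  have k4 : (1 - 1 / δ) * δ ^ 2 = δ ^ 2 - δ := by field_simp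
  rw [k4] at e2
  have hlhalf : lamb r ≤ 1 / 2 := by linarith
  have k5 : lamb r * δ * X ≤ lamb r * δ * (2 * G + 8 * (r / 4) ^ 2) :=
    mul_le_mul_of_nonneg_left hX (by positivity)
  have k6 : lamb r * δ * G ≤ taub r / 8 * G := by
    have : lamb r * δ ≤ taub r / 8 := by nlinarith
    exact mul_le_mul_of_nonneg_right this hG
  have k7 : lamb r * δ ≤ δ / 2 := by nlinarith
  have k8 : lamb r * δ * r ^ 2 ≤ δ / 2 := by
    have : r ^ 2 ≤ 1 := by nlinarith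
    nlinarith [mul_nonneg (mul_nonneg hl.le hδ.le) (sub_nonneg.2 this)]
  have k9 : lamb r * (1 - r) * r = taub r * r ^ 2 / 4 := by nlinarith
  have k10 : lamb r * (1 - 2 / r) * X = lamb r * (2 - 2 / r) * X - lamb r * X := by ring
  nlinarith

end Lower

/-- The factor relating the third measure and the limit measure. -/
noncomputable def phi (i₀ i₁ i₂ : Fin n) (j : Fin n) : ℝ :=
  if j = i₀ ∨ j = i₁ ∨ j = i₂ then 2 else 1

theorem phi_mul_dThird (i₀ i₁ i₂ : Fin n) (r : ℝ) (j : Fin n) :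
    phi i₀ i₁ i₂ j * dThird i₀ i₁ i₂ r j = dStar i₀ i₁ i₂ r j := by
  unfold phi dThird dStar
  by_cases h0 : j = i₀
  · rw [if_pos (Or.inl h0), if_pos h0, if_pos h0]; ring
  · by_cases h1 : j = i₁
    · rw [if_pos (Or.inr (Or.inl h1)), if_neg h0, if_pos h1, if_neg h0, if_pos h1]; ring
    · by_cases h2 : j = i₂
      · rw [if_pos (Or.inr (Or.inr h2)), if_neg h0, if_neg h1, if_pos h2, if_neg h0, if_neg h1,
          if_pos h2]; ring
      · simp [h0, h1, h2]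

section Assembly

variable (i₀ i₁ i₂ : Fin n) (h01 : i₀ ≠ i₁) (h02 : i₀ ≠ i₂) (h12 : i₁ ≠ i₂)

include h01 h02 h12

/-- The lower bound for each coordinate. -/
theorem coord_lower {r δ : ℝ} (h0 : 0 < r) (h1 : r < 1) (hδ : 0 < δ) (hδ' : δ ≤ taub r / 4)
    {ν : Measure (EuclideanSpace ℝ (Fin n))}
    {π₁ π₂ π₃ : Measure (EuclideanSpace ℝ (Fin n) × EuclideanSpace ℝ (Fin n))}
    (f1 : π₁.map Prod.fst = ν) (f2 : π₂.map Prod.fst = ν) (f3 : π₃.map Prod.fst = ν)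
    (s1 : π₁.map Prod.snd = data i₀ i₁ i₂ r δ 0) (s2 : π₂.map Prod.snd = data i₀ i₁ i₂ r δ 1)
    (s3 : π₃.map Prod.snd = data i₀ i₁ i₂ r δ 2)
    (c1 : cost π₁ < ∞) (c2 : cost π₂ < ∞) (c3 : cost π₃ < ∞) (j : Fin n) :
    Ub i₀ i₁ i₂ r δ j + taub r / 4 * (∫ p, (p.1 j - phi i₀ i₁ i₂ j * p.2 j) ^ 2 ∂π₃) - 2 * δ
      ≤ lamb r * (∫ p, (p.1 j - p.2 j) ^ 2 ∂π₁) + lamb r * (∫ p, (p.1 j - p.2 j) ^ 2 ∂π₂)
        + taub r * (∫ p, (p.1 j - p.2 j) ^ 2 ∂π₃) := by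
  have hl := lamb_pos h0 h1
  have ht := taub_pos h1
  -- second moments of the data
  have m1 : ∫⁻ x, ENNReal.ofReal (x j ^ 2) ∂(data i₀ i₁ i₂ r δ 0)
      = ENNReal.ofReal (dThin i₂ δ j ^ 2) :=
    lintegral_sq_map_scl (gam n) (dThin i₂ δ) j (lintegral_sq_gam j)
  have m2 : ∫⁻ x, ENNReal.ofReal (x j ^ 2) ∂(data i₀ i₁ i₂ r δ 1)
      = ENNReal.ofReal (dThin i₁ δ j ^ 2) :=
    lintegral_sq_map_scl (gam n) (dThin i₁ δ) j (lintegral_sq_gam j)
  have m3 : ∫⁻ x, ENNReal.ofReal (x j ^ 2) ∂(data i₀ i₁ i₂ r δ 2)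
      = ENNReal.ofReal (dThird i₀ i₁ i₂ r j ^ 2) :=
    lintegral_sq_map_scl (Qm i₀ i₁ i₂) (dThird i₀ i₁ i₂ r) j
      (lintegral_sq_Qm i₀ i₁ i₂ h01 h02 h12 j)
  have m1' : ∫⁻ x, ENNReal.ofReal (x j ^ 2) ∂(data i₀ i₁ i₂ r δ 0) < ∞ := by
    rw [m1]; exact ENNReal.ofReal_lt_top
  have m2' : ∫⁻ x, ENNReal.ofReal (x j ^ 2) ∂(data i₀ i₁ i₂ r δ 1) < ∞ := by
    rw [m2]; exact ENNReal.ofReal_lt_top
  have m3' : ∫⁻ x, ENNReal.ofReal (x j ^ 2) ∂(data i₀ i₁ i₂ r δ 2) < ∞ := by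
    rw [m3]; exact ENNReal.ofReal_lt_top
  have z1 : ∫ p, p.2 j ^ 2 ∂π₁ = dThin i₂ δ j ^ 2 := by
    refine integral_eq_of_lintegral (by fun_prop) (fun p => sq_nonneg _) (sq_nonneg _) ?_
    rw [← m1, ← s1, lintegral_map (by fun_prop) measurable_snd]
  have z2 : ∫ p, p.2 j ^ 2 ∂π₂ = dThin i₁ δ j ^ 2 := by
    refine integral_eq_of_lintegral (by fun_prop) (fun p => sq_nonneg _) (sq_nonneg _) ?_
    rw [← m2, ← s2, lintegral_map (by fun_prop) measurable_snd]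
  have z3 : ∫ p, p.2 j ^ 2 ∂π₃ = dThird i₀ i₁ i₂ r j ^ 2 := by
    refine integral_eq_of_lintegral (by fun_prop) (fun p => sq_nonneg _) (sq_nonneg _) ?_
    rw [← m3, ← s3, lintegral_map (by fun_prop) measurable_snd]
  -- first moments agree
  have x1 : ∫ p, p.1 j ^ 2 ∂π₁ = ∫ x, x j ^ 2 ∂ν := by
    rw [← f1, integral_map measurable_fst.aemeasurable (by fun_prop)]
  have x2 : ∫ p, p.1 j ^ 2 ∂π₂ = ∫ x, x j ^ 2 ∂ν := by
    rw [← f2, integral_map measurable_fst.aemeasurable (by fun_prop)]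
  have x3 : ∫ p, p.1 j ^ 2 ∂π₃ = ∫ x, x j ^ 2 ∂ν := by
    rw [← f3, integral_map measurable_fst.aemeasurable (by fun_prop)]
  set X := ∫ x, x j ^ 2 ∂ν with hX
  have g1 : ∀ {a : ℝ}, 0 < a → (1 - a) * X + (1 - 1 / a) * dThin i₂ δ j ^ 2
      ≤ ∫ p, (p.1 j - p.2 j) ^ 2 ∂π₁ := by
    intro a ha
    have := diff_ge c1 s1 j m1' ha
    rwa [x1, z1] at this
  have g2 : ∀ {a : ℝ}, 0 < a → (1 - a) * X + (1 - 1 / a) * dThin i₁ δ j ^ 2
      ≤ ∫ p, (p.1 j - p.2 j) ^ 2 ∂π₂ := by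
    intro a ha
    have := diff_ge c2 s2 j m2' ha
    rwa [x2, z2] at this
  have g3 := diff_eq c3 s3 j m3'
  rw [x3, z3] at g3
  have g4 := fst_le c3 s3 j m3'
  rw [x3, z3] at g4
  have hG : 0 ≤ ∫ p, (p.1 j - 2 * p.2 j) ^ 2 ∂π₃ := integral_nonneg fun p => sq_nonneg _
  by_cases j0 : j = i₀
  · subst j0
    have e1 : phi j i₁ i₂ j = 2 := by simp [phi]
    have e2 : dThin i₂ δ j = 1 := by simp [dThin, h02]
    have e3 : dThin i₁ δ j = 1 := by simp [dThin, h01]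
    have e4 : dThird j i₁ i₂ r j = r / 2 := by simp [dThird]
    have e5 : dStar j i₁ i₂ r j = r := by simp [dStar]
    have e6 : Ub j i₁ i₂ r δ j = lamb r * (r - 1) ^ 2 + lamb r * (r - 1) ^ 2
        + taub r * (r - r / 2) ^ 2 := by
      simp only [Ub, e4, e5, if_neg h02, if_neg h01]
    rw [e1, e6]
    refine coord_zero (X := X) h0 h1 hδ hG ?_ ?_ ?_
    · have := g1 (a := 1 / r) (by positivity)
      rwa [e2, one_pow] at this
    · have := g2 (a := 1 / r) (by positivity)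
      rwa [e3, one_pow] at this
    · rw [g3, e4]
  by_cases j1 : j = i₁
  · subst j1
    have e1 : phi i₀ j i₂ j = 2 := by simp [phi]
    have e2 : dThin i₂ δ j = 1 := by simp [dThin, h12]
    have e3 : dThin j δ j = δ := by simp [dThin]
    have e4 : dThird i₀ j i₂ r j = r / 4 := by simp [dThird, j0]
    have e5 : dStar i₀ j i₂ r j = r / 2 := by simp [dStar, j0]
    have e6 : Ub i₀ j i₂ r δ j = lamb r * (r / 2 - 1) ^ 2
        + lamb r * ((1 + δ) * (r / 2) ^ 2 + (δ ^ 2 + δ)) + taub r * (r / 2 - r / 4) ^ 2 := by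
      simp only [Ub, e4, e5, if_neg h12, if_true]
    rw [e1, e6]
    refine coord_thin (X := X) h0 h1 hδ hδ' hG ?_ ?_ ?_ ?_
    · have := g1 (a := 2 / r) (by positivity)
      rwa [e2, one_pow] at this
    · have := g2 (a := δ) hδ
      rwa [e3] at this
    · rw [g3, e4]
    · rwa [e4] at g4
  by_cases j2 : j = i₂
  · subst j2
    have e1 : phi i₀ i₁ j j = 2 := by simp [phi]
    have e2 : dThin i₁ δ j = 1 := by simp [dThin, j1]
    have e3 : dThin j δ j = δ := by simp [dThin]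
    have e4 : dThird i₀ i₁ j r j = r / 4 := by simp [dThird, j0]
    have e5 : dStar i₀ i₁ j r j = r / 2 := by simp [dStar, j0]
    have e6 : Ub i₀ i₁ j r δ j = lamb r * (r / 2 - 1) ^ 2
        + lamb r * ((1 + δ) * (r / 2) ^ 2 + (δ ^ 2 + δ)) + taub r * (r / 2 - r / 4) ^ 2 := by
      simp only [Ub, e4, e5, if_neg j1, if_true]
      ring
    rw [e1, e6]
    have hkey := coord_thin (X := X) (D1 := ∫ p, (p.1 j - p.2 j) ^ 2 ∂π₂)
      (D2 := ∫ p, (p.1 j - p.2 j) ^ 2 ∂π₁) (D3 := ∫ p, (p.1 j - p.2 j) ^ 2 ∂π₃)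
      (G := ∫ p, (p.1 j - 2 * p.2 j) ^ 2 ∂π₃) h0 h1 hδ hδ' hG ?_ ?_ ?_ ?_
    · linarith
    · have := g2 (a := 2 / r) (by positivity)
      rwa [e2, one_pow] at this
    · have := g1 (a := δ) hδ
      rwa [e3] at this
    · rw [g3, e4]
    · rwa [e4] at g4
  · have e1 : phi i₀ i₁ i₂ j = 1 := by simp [phi, j0, j1, j2]
    have e4 : dThird i₀ i₁ i₂ r j = 1 := by simp [dThird, j0, j1, j2]
    have e5 : dStar i₀ i₁ i₂ r j = 1 := by simp [dStar, j0, j1, j2]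
    have e6 : Ub i₀ i₁ i₂ r δ j = 0 := by
      simp [Ub, e4, e5, j1, j2]
    rw [e1, e6]
    simp only [one_mul]
    have n1 : 0 ≤ ∫ p, (p.1 j - p.2 j) ^ 2 ∂π₁ := integral_nonneg fun p => sq_nonneg _
    have n2 : 0 ≤ ∫ p, (p.1 j - p.2 j) ^ 2 ∂π₂ := integral_nonneg fun p => sq_nonneg _
    have n3 : 0 ≤ ∫ p, (p.1 j - p.2 j) ^ 2 ∂π₃ := integral_nonneg fun p => sq_nonneg _
    nlinarith [mul_nonneg hl.le n1, mul_nonneg hl.le n2, mul_nonneg ht.le n3]

/-- Stability: every barycenter of the data is close to the limit measure. -/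
theorem stability {r δ : ℝ} (h0 : 0 < r) (h1 : r < 1) (hδ : 0 < δ) (hδ' : δ ≤ taub r / 4)
    {ν : Measure (EuclideanSpace ℝ (Fin n))}
    (hν : IsBarycenter (weights r) (data i₀ i₁ i₂ r δ) ν) :
    ∃ π : Measure (EuclideanSpace ℝ (Fin n) × EuclideanSpace ℝ (Fin n)),
      π.map Prod.fst = ν ∧ π.map Prod.snd = nuStar i₀ i₁ i₂ r ∧ cost π < ∞ ∧
      (cost π).toReal ≤ 4 / taub r * ((2 * n + 1) * δ) := by
  have hl := lamb_pos h0 h1
  have ht := taub_pos h1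
  have := isProbabilityMeasure_Qm i₀ i₁ i₂ h01 h12
  have hνprob := hν.1
  have hstarprob : IsProbabilityMeasure (nuStar i₀ i₁ i₂ r) :=
    Measure.isProbabilityMeasure_map (measurable_scl _).aemeasurable
  have hB := (hν.2 _ hstarprob).trans (functional_star_le i₀ i₁ i₂ h01 h02 h12 h0 h1 hδ)
  set U := ∑ j, Ub i₀ i₁ i₂ r δ j with hU
  have hw : ∀ i, ENNReal.ofReal (weights r i) ≠ 0 := fun i => by
    simpa using weights_pos h0 h1 i
  have hfin : ∀ i, W2sq ν (data i₀ i₁ i₂ r δ i) < ∞ := by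
    intro i
    have h2 := ENNReal.sum_ne_top.1 (ne_top_of_le_ne_top ENNReal.ofReal_ne_top hB) i
      (Finset.mem_univ i)
    by_contra h3
    rw [not_lt, top_le_iff] at h3
    rw [h3, ENNReal.mul_top (hw i)] at h2
    exact h2 rfl
  have hδ'' : ENNReal.ofReal δ ≠ 0 := by simpa using hδ
  choose π hπ1 hπ2 hπ3 using fun i =>
    exists_coupling_of_W2sq_lt (ENNReal.lt_add_right (hfin i).ne hδ'')
  have hcfin : ∀ i, cost (π i) < ∞ := fun i =>
    (hπ3 i).trans (ENNReal.add_lt_top.2 ⟨hfin i, ENNReal.ofReal_lt_top⟩)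
  have hupper : ∑ i, ENNReal.ofReal (weights r i) * cost (π i)
      ≤ ENNReal.ofReal U + ENNReal.ofReal δ := by
    calc ∑ i, ENNReal.ofReal (weights r i) * cost (π i)
        ≤ ∑ i, ENNReal.ofReal (weights r i) * (W2sq ν (data i₀ i₁ i₂ r δ i) + ENNReal.ofReal δ) := by
          refine Finset.sum_le_sum fun i _ => ?_
          exact mul_le_mul' le_rfl (hπ3 i).le
      _ = ∑ i, ENNReal.ofReal (weights r i) * W2sq ν (data i₀ i₁ i₂ r δ i) + ENNReal.ofReal δ := by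
          simp_rw [mul_add]
          rw [Finset.sum_add_distrib, ← Finset.sum_mul, ← ENNReal.ofReal_sum_of_nonneg
            (fun i _ => (weights_pos h0 h1 i).le), sum_weights h1]
          simp
      _ ≤ _ := by gcongr
  have hUnn : 0 ≤ U := by
    rw [hU]
    refine Finset.sum_nonneg fun j _ => ?_
    unfold Ub
    refine add_nonneg (add_nonneg (mul_nonneg hl.le ?_) (mul_nonneg hl.le ?_))
      (mul_nonneg ht.le (sq_nonneg _)) <;> split_ifs <;> positivity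
  have hreal : lamb r * (cost (π 0)).toReal + lamb r * (cost (π 1)).toReal
      + taub r * (cost (π 2)).toReal ≤ U + δ := by
    rw [← ENNReal.ofReal_add hUnn hδ.le] at hupper
    have h5 := ENNReal.toReal_mono ENNReal.ofReal_ne_top hupper
    rw [ENNReal.toReal_ofReal (by positivity), ENNReal.toReal_sum (fun i _ =>
      (ENNReal.mul_lt_top ENNReal.ofReal_lt_top (hcfin i)).ne), Fin.sum_univ_three] at h5
    simp only [ENNReal.toReal_mul] at h5
    rw [ENNReal.toReal_ofReal (weights_pos h0 h1 0).le,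
      ENNReal.toReal_ofReal (weights_pos h0 h1 1).le,
      ENNReal.toReal_ofReal (weights_pos h0 h1 2).le] at h5
    exact h5
  have hlow := Finset.sum_le_sum fun j (_ : j ∈ Finset.univ) =>
    coord_lower i₀ i₁ i₂ h01 h02 h12 h0 h1 hδ hδ' (hπ1 0) (hπ1 1) (hπ1 2) (hπ2 0) (hπ2 1) (hπ2 2)
      (hcfin 0) (hcfin 1) (hcfin 2) j
  have hrhs : ∑ j, (lamb r * (∫ p, (p.1 j - p.2 j) ^ 2 ∂(π 0))
      + lamb r * (∫ p, (p.1 j - p.2 j) ^ 2 ∂(π 1)) + taub r * (∫ p, (p.1 j - p.2 j) ^ 2 ∂(π 2)))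
      = lamb r * (cost (π 0)).toReal + lamb r * (cost (π 1)).toReal
      + taub r * (cost (π 2)).toReal := by
    rw [cost_toReal (hcfin 0), cost_toReal (hcfin 1), cost_toReal (hcfin 2)]
    simp only [Finset.sum_add_distrib, Finset.mul_sum]
  rw [hrhs, Finset.sum_sub_distrib, Finset.sum_add_distrib, ← Finset.mul_sum,
    Finset.sum_const, Finset.card_univ, Fintype.card_fin, nsmul_eq_mul] at hlow
  set G := ∑ j, ∫ p, (p.1 j - phi i₀ i₁ i₂ j * p.2 j) ^ 2 ∂(π 2) with hG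
  have hGle : G ≤ 4 / taub r * ((2 * n + 1) * δ) := by
    rw [div_mul_eq_mul_div, le_div_iff₀ ht]
    nlinarith
  -- the coupling
  set Φ : EuclideanSpace ℝ (Fin n) × EuclideanSpace ℝ (Fin n) →
      EuclideanSpace ℝ (Fin n) × EuclideanSpace ℝ (Fin n) :=
    fun p => (p.1, scl (phi i₀ i₁ i₂) (fun j => p.2 j)) with hΦ
  have hΦm : Measurable Φ := by
    refine measurable_fst.prodMk ((measurable_scl _).comp ?_)
    fun_prop
  have hprob2 : IsProbabilityMeasure (π 2) := by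
    constructor
    have h4 : (π 2).map Prod.fst Set.univ = 1 := by rw [hπ1 2]; exact measure_univ
    rwa [Measure.map_apply measurable_fst MeasurableSet.univ, Set.preimage_univ] at h4
  have m3' : ∀ j, ∫⁻ x, ENNReal.ofReal (x j ^ 2) ∂(data i₀ i₁ i₂ r δ 2) < ∞ := by
    intro j
    have : ∫⁻ x, ENNReal.ofReal (x j ^ 2) ∂(data i₀ i₁ i₂ r δ 2)
      = ENNReal.ofReal (dThird i₀ i₁ i₂ r j ^ 2) :=
      lintegral_sq_map_scl (Qm i₀ i₁ i₂) (dThird i₀ i₁ i₂ r) j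
        (lintegral_sq_Qm i₀ i₁ i₂ h01 h02 h12 j)
    rw [this]; exact ENNReal.ofReal_lt_top
  have hmemj : ∀ j, MemLp (fun p : EuclideanSpace ℝ (Fin n) × EuclideanSpace ℝ (Fin n) =>
      p.1 j - phi i₀ i₁ i₂ j * p.2 j) 2 (π 2) := fun j =>
    (memLp_fst (hcfin 2) (hπ2 2) j (m3' j)).sub ((memLp_snd (hπ2 2) j (m3' j)).const_mul _)
  have hcostΦ : cost ((π 2).map Φ) = ENNReal.ofReal G := by
    rw [cost_eq_sum, hG, ENNReal.ofReal_sum_of_nonneg
      (fun j _ => integral_nonneg fun p => sq_nonneg _)]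
    refine Finset.sum_congr rfl fun j _ => ?_
    rw [lintegral_map (by fun_prop) hΦm, ofReal_integral_eq_lintegral_ofReal
      (hmemj j).integrable_sq (Eventually.of_forall fun p => sq_nonneg _)]
    rfl
  refine ⟨(π 2).map Φ, ?_, ?_, ?_, ?_⟩
  · rw [Measure.map_map measurable_fst hΦm]
    exact hπ1 2
  · rw [Measure.map_map measurable_snd hΦm]
    have h6 : Prod.snd ∘ Φ = (fun x : EuclideanSpace ℝ (Fin n) =>
        scl (phi i₀ i₁ i₂) (fun j => x j)) ∘ Prod.snd := rfl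
    have h7 : Measurable (fun x : EuclideanSpace ℝ (Fin n) =>
        scl (phi i₀ i₁ i₂) (fun j => x j)) := by
      refine (measurable_scl _).comp ?_
      fun_prop
    rw [h6, ← Measure.map_map h7 measurable_snd, hπ2 2]
    change ((Qm i₀ i₁ i₂).map (scl (dThird i₀ i₁ i₂ r))).map _ = _
    rw [Measure.map_map h7 (measurable_scl _)]
    unfold nuStar
    congr 1
    funext g
    ext j
    simp only [Function.comp, scl_apply]
    rw [← mul_assoc, phi_mul_dThird]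
  · rw [hcostΦ]; exact ENNReal.ofReal_lt_top
  · rw [hcostΦ, ENNReal.toReal_ofReal (Finset.sum_nonneg fun j _ =>
      integral_nonneg fun p => sq_nonneg _)]
    exact hGle

end Assembly

end Pool.Agent.LibBary
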