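import Pool.Agent.LibBary.Close

/-!
The test function: the limit measures violate the Poincare inequality with constant one.
-/

open MeasureTheory ProbabilityTheory Filter InnerProductSpace
open scoped ENNReal NNReal Topology

namespace Pool.Agent.LibBary

variable {n : ℕ}

/-- The test function before truncation. -/
noncomputable def f0 (i₀ i₁ i₂ : Fin n) (s : ℝ) (x : EuclideanSpace ℝ (Fin n)) : ℝ :=
  x i₀ + s * (Real.sin (2 * x i₁) * Real.sin (2 * x i₂))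

/-- Its gradient. -/
noncomputable def grad0 (i₀ i₁ i₂ : Fin n) (s : ℝ) (x : EuclideanSpace ℝ (Fin n)) :
    EuclideanSpace ℝ (Fin n) :=
  EuclideanSpace.single i₀ (1 : ℝ)
    + (2 * s * (Real.cos (2 * x i₁) * Real.sin (2 * x i₂))) • EuclideanSpace.single i₁ (1 : ℝ)
    + (2 * s * (Real.sin (2 * x i₁) * Real.cos (2 * x i₂))) • EuclideanSpace.single i₂ (1 : ℝ)

theorem contDiff_f0 (i₀ i₁ i₂ : Fin n) (s : ℝ) : ContDiff ℝ (⊤ : ℕ∞) (f0 i₀ i₁ i₂ s) := by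
  unfold f0
  fun_prop

theorem continuous_grad0 (i₀ i₁ i₂ : Fin n) (s : ℝ) : Continuous (grad0 i₀ i₁ i₂ s) := by
  unfold grad0
  fun_prop

theorem hasGradientAt_f0 (i₀ i₁ i₂ : Fin n) (s : ℝ) (x : EuclideanSpace ℝ (Fin n)) :
    HasGradientAt (f0 i₀ i₁ i₂ s) (grad0 i₀ i₁ i₂ s x) x := by
  rw [hasGradientAt_iff_hasFDerivAt]
  have hp : ∀ i : Fin n, HasFDerivAt (fun y : EuclideanSpace ℝ (Fin n) => y i)
      (EuclideanSpace.proj i : EuclideanSpace ℝ (Fin n) →L[ℝ] ℝ) x := fun i =>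
    (EuclideanSpace.proj i : EuclideanSpace ℝ (Fin n) →L[ℝ] ℝ).hasFDerivAt
  have h1 := ((hp i₁).const_mul 2).sin
  have h2 := ((hp i₂).const_mul 2).sin
  have h3 := (hp i₀).add ((h1.mul h2).const_mul s)
  refine h3.congr_fderiv ?_
  ext y
  have hpa : ∀ i : Fin n, (EuclideanSpace.proj i : EuclideanSpace ℝ (Fin n) →L[ℝ] ℝ) y = y i :=
    fun i => rfl
  simp only [add_apply, smul_apply, smul_eq_mul, hpa,
    toDual_apply_apply, grad0, inner_add_left, inner_smul_left, EuclideanSpace.inner_single_left,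
    map_one, one_mul, conj_trivial]
  ring

theorem gradient_f0 (i₀ i₁ i₂ : Fin n) (s : ℝ) (x : EuclideanSpace ℝ (Fin n)) :
    gradient (f0 i₀ i₁ i₂ s) x = grad0 i₀ i₁ i₂ s x :=
  (hasGradientAt_f0 i₀ i₁ i₂ s x).gradient

theorem norm_grad0_sq (i₀ i₁ i₂ : Fin n) (h01 : i₀ ≠ i₁) (h02 : i₀ ≠ i₂) (h12 : i₁ ≠ i₂) (s : ℝ)
    (x : EuclideanSpace ℝ (Fin n)) :
    ‖grad0 i₀ i₁ i₂ s x‖ ^ 2 = 1 + 4 * s ^ 2 * ((Real.cos (2 * x i₁) * Real.sin (2 * x i₂)) ^ 2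
      + (Real.sin (2 * x i₁) * Real.cos (2 * x i₂)) ^ 2) := by
  rw [← real_inner_self_eq_norm_sq]
  simp only [grad0, inner_add_left, inner_add_right, inner_smul_left, inner_smul_right,
    EuclideanSpace.inner_single_left, map_one, one_mul, conj_trivial]
  simp [h01, h02, h12, h01.symm, h02.symm, h12.symm]
  ring

theorem norm_grad0_le (i₀ i₁ i₂ : Fin n) (h01 : i₀ ≠ i₁) (h02 : i₀ ≠ i₂) (h12 : i₁ ≠ i₂) {s : ℝ}
    (hs0 : 0 ≤ s) (hs1 : s ≤ 1) (x : EuclideanSpace ℝ (Fin n)) : ‖grad0 i₀ i₁ i₂ s x‖ ≤ 3 := by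
  have h := norm_grad0_sq i₀ i₁ i₂ h01 h02 h12 s x
  have hb : (Real.cos (2 * x i₁) * Real.sin (2 * x i₂)) ^ 2
      + (Real.sin (2 * x i₁) * Real.cos (2 * x i₂)) ^ 2 ≤ 1 := by
    have e1 := Real.sin_sq_add_cos_sq (2 * x i₁)
    have e2 := Real.sin_sq_le_one (2 * x i₂)
    have e3 := Real.cos_sq_le_one (2 * x i₂)
    rw [mul_pow, mul_pow]
    nlinarith [sq_nonneg (Real.sin (2 * x i₁)), sq_nonneg (Real.cos (2 * x i₁))]
  have hnn := norm_nonneg (grad0 i₀ i₁ i₂ s x)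
  have hs2 : s ^ 2 ≤ 1 := by nlinarith
  have hb0 : 0 ≤ (Real.cos (2 * x i₁) * Real.sin (2 * x i₂)) ^ 2
      + (Real.sin (2 * x i₁) * Real.cos (2 * x i₂)) ^ 2 := by positivity
  nlinarith [mul_nonneg (sq_nonneg s) hb0]

/-- A fixed smooth cutoff. -/
noncomputable def cut (n : ℕ) : ContDiffBump (0 : EuclideanSpace ℝ (Fin n)) :=
  ⟨1, 2, one_pos, one_lt_two⟩

/-- The truncated test functions. -/
noncomputable def fk (i₀ i₁ i₂ : Fin n) (s : ℝ) (k : ℕ) (x : EuclideanSpace ℝ (Fin n)) : ℝ :=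
  cut n ((1 / ((k : ℝ) + 1)) • x) * f0 i₀ i₁ i₂ s x

theorem contDiff_cutk (k : ℕ) : ContDiff ℝ (⊤ : ℕ∞)
    (fun x : EuclideanSpace ℝ (Fin n) => cut n ((1 / ((k : ℝ) + 1)) • x)) :=
  (cut n).contDiff.comp (contDiff_const_smul _)

theorem hasCompactSupport_cutk (k : ℕ) : HasCompactSupport
    (fun x : EuclideanSpace ℝ (Fin n) => cut n ((1 / ((k : ℝ) + 1)) • x)) := by
  have h : (0 : ℝ) < 1 / ((k : ℝ) + 1) := by positivity
  exact (cut n).hasCompactSupport.comp_homeomorph (Homeomorph.smulOfNeZero _ h.ne')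

theorem contDiff_fk (i₀ i₁ i₂ : Fin n) (s : ℝ) (k : ℕ) :
    ContDiff ℝ (⊤ : ℕ∞) (fk i₀ i₁ i₂ s k) :=
  (contDiff_cutk k).mul (contDiff_f0 i₀ i₁ i₂ s)

theorem hasCompactSupport_fk (i₀ i₁ i₂ : Fin n) (s : ℝ) (k : ℕ) :
    HasCompactSupport (fk i₀ i₁ i₂ s k) :=
  (hasCompactSupport_cutk k).mul_right

theorem abs_cut_le (y : EuclideanSpace ℝ (Fin n)) : |cut n y| ≤ 1 := by
  rw [abs_of_nonneg (cut n).nonneg]
  exact (cut n).le_one

theorem abs_fk_le (i₀ i₁ i₂ : Fin n) {s : ℝ} (hs0 : 0 ≤ s) (hs1 : s ≤ 1) (k : ℕ)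
    (x : EuclideanSpace ℝ (Fin n)) : |fk i₀ i₁ i₂ s k x| ≤ |x i₀| + 1 := by
  unfold fk
  rw [abs_mul]
  have h1 := abs_cut_le ((1 / ((k : ℝ) + 1)) • x)
  have h2 : |f0 i₀ i₁ i₂ s x| ≤ |x i₀| + 1 := by
    unfold f0
    refine (abs_add_le _ _).trans (add_le_add le_rfl ?_)
    rw [abs_mul, abs_mul, abs_of_nonneg hs0]
    have e1 := Real.abs_sin_le_one (2 * x i₁)
    have e2 := Real.abs_sin_le_one (2 * x i₂)
    have e3 : |Real.sin (2 * x i₁)| * |Real.sin (2 * x i₂)| ≤ 1 := mul_le_one₀ e1 (abs_nonneg _) e2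
    exact mul_le_one₀ hs1 (by positivity) e3
  calc _ ≤ 1 * (|x i₀| + 1) := mul_le_mul h1 h2 (abs_nonneg _) zero_le_one
    _ = _ := one_mul _

theorem exists_fderiv_cut_bound : ∃ M : ℝ, 0 ≤ M ∧ ∀ (k : ℕ) (x : EuclideanSpace ℝ (Fin n)),
    ‖fderiv ℝ (fun x : EuclideanSpace ℝ (Fin n) => cut n ((1 / ((k : ℝ) + 1)) • x)) x‖ ≤ M := by
  have hc : ContDiff ℝ (⊤ : ℕ∞) (cut n) := (cut n).contDiff
  obtain ⟨L, hL⟩ := hc.lipschitzWith_of_hasCompactSupport (cut n).hasCompactSupport (by simp)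
  refine ⟨L, L.coe_nonneg, fun k x => ?_⟩
  have hLk : LipschitzWith L
      (fun x : EuclideanSpace ℝ (Fin n) => cut n ((1 / ((k : ℝ) + 1)) • x)) := by
    refine LipschitzWith.of_dist_le_mul fun x y => ?_
    refine (hL.dist_le_mul _ _).trans (mul_le_mul_of_nonneg_left ?_ L.coe_nonneg)
    rw [dist_smul₀, Real.norm_eq_abs, abs_of_pos (by positivity)]
    have : 1 / ((k : ℝ) + 1) ≤ 1 := by
      rw [div_le_one (by positivity)]
      have : (0 : ℝ) ≤ k := Nat.cast_nonneg k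
      linarith
    calc 1 / ((k : ℝ) + 1) * dist x y ≤ 1 * dist x y := by gcongr
      _ = dist x y := one_mul _
  exact norm_fderiv_le_of_lipschitz ℝ hLk

theorem norm_gradient_fk_le (i₀ i₁ i₂ : Fin n) (h01 : i₀ ≠ i₁) (h02 : i₀ ≠ i₂) (h12 : i₁ ≠ i₂)
    {s : ℝ} (hs0 : 0 ≤ s) (hs1 : s ≤ 1) {M : ℝ}
    (hM : ∀ (k : ℕ) (x : EuclideanSpace ℝ (Fin n)),
      ‖fderiv ℝ (fun x : EuclideanSpace ℝ (Fin n) => cut n ((1 / ((k : ℝ) + 1)) • x)) x‖ ≤ M)
    (k : ℕ) (x : EuclideanSpace ℝ (Fin n)) :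
    ‖gradient (fk i₀ i₁ i₂ s k) x‖ ≤ M * (|x i₀| + 1) + 3 := by
  rw [norm_gradient]
  have d1 : DifferentiableAt ℝ
      (fun x : EuclideanSpace ℝ (Fin n) => cut n ((1 / ((k : ℝ) + 1)) • x)) x :=
    ((contDiff_cutk k).differentiable (by simp)) x
  have d2 : DifferentiableAt ℝ (f0 i₀ i₁ i₂ s) x :=
    ((contDiff_f0 i₀ i₁ i₂ s).differentiable (by simp)) x
  have h1 : fderiv ℝ (fk i₀ i₁ i₂ s k) x
      = cut n ((1 / ((k : ℝ) + 1)) • x) • fderiv ℝ (f0 i₀ i₁ i₂ s) x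
        + f0 i₀ i₁ i₂ s x • fderiv ℝ
          (fun x : EuclideanSpace ℝ (Fin n) => cut n ((1 / ((k : ℝ) + 1)) • x)) x :=
    fderiv_mul d1 d2
  rw [h1]
  refine (norm_add_le _ _).trans ?_
  rw [norm_smul, norm_smul, Real.norm_eq_abs, Real.norm_eq_abs, ← norm_gradient, gradient_f0]
  have h2 := abs_cut_le ((1 / ((k : ℝ) + 1)) • x)
  have h3 := norm_grad0_le i₀ i₁ i₂ h01 h02 h12 hs0 hs1 x
  have h4 : |f0 i₀ i₁ i₂ s x| ≤ |x i₀| + 1 := by
    unfold f0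
    refine (abs_add_le _ _).trans (add_le_add le_rfl ?_)
    rw [abs_mul, abs_mul, abs_of_nonneg hs0]
    have e1 := Real.abs_sin_le_one (2 * x i₁)
    have e2 := Real.abs_sin_le_one (2 * x i₂)
    have e3 : |Real.sin (2 * x i₁)| * |Real.sin (2 * x i₂)| ≤ 1 := mul_le_one₀ e1 (abs_nonneg _) e2
    exact mul_le_one₀ hs1 (by positivity) e3
  have h5 := hM k x
  have h6 : |cut n ((1 / ((k : ℝ) + 1)) • x)| * ‖grad0 i₀ i₁ i₂ s x‖ ≤ 1 * 3 :=
    mul_le_mul h2 h3 (norm_nonneg _) zero_le_one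
  have h7 : |f0 i₀ i₁ i₂ s x| * ‖fderiv ℝ
      (fun x : EuclideanSpace ℝ (Fin n) => cut n ((1 / ((k : ℝ) + 1)) • x)) x‖
      ≤ (|x i₀| + 1) * M := mul_le_mul h4 h5 (norm_nonneg _) (by positivity)
  linarith

/-- Near points of norm less than `k + 1` the truncation is invisible. -/
theorem fk_eventuallyEq (i₀ i₁ i₂ : Fin n) (s : ℝ) {k : ℕ} {x : EuclideanSpace ℝ (Fin n)}
    (hx : ‖x‖ < k + 1) : fk i₀ i₁ i₂ s k =ᶠ[𝓝 x] f0 i₀ i₁ i₂ s := by
  have h1 : ∀ᶠ y in 𝓝 x, ‖y‖ < k + 1 := (continuous_norm.tendsto x).eventually (gt_mem_nhds hx)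
  filter_upwards [h1] with y hy
  unfold fk
  rw [(cut n).one_of_mem_closedBall, one_mul]
  rw [mem_closedBall_zero_iff, norm_smul, Real.norm_eq_abs, abs_of_pos (by positivity)]
  change 1 / ((k : ℝ) + 1) * ‖y‖ ≤ 1
  rw [div_mul_eq_mul_div, one_mul, div_le_one (by positivity)]
  exact hy.le

section Limit

variable (i₀ i₁ i₂ : Fin n) (h01 : i₀ ≠ i₁) (h02 : i₀ ≠ i₂) (h12 : i₁ ≠ i₂)

/-- The scale parameters tending to one. -/
noncomputable def rk (k : ℕ) : ℝ := 1 - 1 / ((k : ℝ) + 2)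

theorem rk_pos (k : ℕ) : 0 < rk k := by
  unfold rk
  have : (0 : ℝ) ≤ k := Nat.cast_nonneg k
  rw [sub_pos, div_lt_one (by positivity)]
  linarith

theorem rk_lt_one (k : ℕ) : rk k < 1 := by
  unfold rk
  have : (0 : ℝ) < 1 / ((k : ℝ) + 2) := by positivity
  linarith

theorem tendsto_rk : Tendsto rk atTop (𝓝 1) := by
  have h1 : Tendsto (fun k : ℕ => (k : ℝ) + 2) atTop atTop :=
    tendsto_atTop_add_const_right _ _ tendsto_natCast_atTop_atTop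
  have h2 : Tendsto (fun k : ℕ => 1 / ((k : ℝ) + 2)) atTop (𝓝 0) := by
    simp_rw [one_div]
    exact tendsto_inv_atTop_zero.comp h1
  have h3 := (tendsto_const_nhds (x := (1 : ℝ))).sub h2
  rw [sub_zero] at h3
  exact h3

theorem continuous_dStar (j : Fin n) : Continuous (fun r : ℝ => dStar i₀ i₁ i₂ r j) := by
  unfold dStar
  by_cases h0 : j = i₀
  · simp only [h0, if_true]; fun_prop
  · by_cases h1 : j = i₁
    · simp only [if_neg h0, if_pos h1]; fun_prop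
    · by_cases h2 : j = i₂
      · simp only [if_neg h0, if_neg h1, if_pos h2]; fun_prop
      · simp only [if_neg h0, if_neg h1, if_neg h2]; fun_prop

theorem tendsto_scl (g : Fin n → ℝ) :
    Tendsto (fun k => scl (dStar i₀ i₁ i₂ (rk k)) g) atTop (𝓝 (scl (dStar i₀ i₁ i₂ 1) g)) := by
  have h1 : Tendsto (fun k => (fun j => dStar i₀ i₁ i₂ (rk k) j * g j)) atTop
      (𝓝 (fun j => dStar i₀ i₁ i₂ 1 j * g j)) := by
    rw [tendsto_pi_nhds]
    intro j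
    exact (((continuous_dStar i₀ i₁ i₂ j).tendsto 1).comp tendsto_rk).mul_const (g j)
  exact ((PiLp.continuous_toLp 2 (fun _ : Fin n => ℝ)).tendsto _).comp h1

theorem eventually_norm_lt (g : Fin n → ℝ) :
    ∀ᶠ k : ℕ in atTop, ‖scl (dStar i₀ i₁ i₂ (rk k)) g‖ < k + 1 := by
  have h1 := (tendsto_scl i₀ i₁ i₂ g).norm
  have h2 : ∀ᶠ k : ℕ in atTop, ‖scl (dStar i₀ i₁ i₂ (rk k)) g‖
      < ‖scl (dStar i₀ i₁ i₂ 1) g‖ + 1 :=
    h1.eventually (gt_mem_nhds (by linarith))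
  have h3 : ∀ᶠ k : ℕ in atTop, ‖scl (dStar i₀ i₁ i₂ 1) g‖ ≤ (k : ℝ) :=
    tendsto_natCast_atTop_atTop.eventually_ge_atTop _
  filter_upwards [h2, h3] with k hk1 hk2
  linarith

theorem tendsto_fk (s : ℝ) (g : Fin n → ℝ) :
    Tendsto (fun k => fk i₀ i₁ i₂ s k (scl (dStar i₀ i₁ i₂ (rk k)) g)) atTop
      (𝓝 (f0 i₀ i₁ i₂ s (scl (dStar i₀ i₁ i₂ 1) g))) := by
  have h1 := ((contDiff_f0 i₀ i₁ i₂ s).continuous.tendsto (scl (dStar i₀ i₁ i₂ 1) g)).comp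
    (tendsto_scl i₀ i₁ i₂ g)
  refine h1.congr' ?_
  filter_upwards [eventually_norm_lt i₀ i₁ i₂ g] with k hk
  exact (fk_eventuallyEq i₀ i₁ i₂ s hk).eq_of_nhds.symm

theorem tendsto_gradient_fk (s : ℝ) (g : Fin n → ℝ) :
    Tendsto (fun k => gradient (fk i₀ i₁ i₂ s k) (scl (dStar i₀ i₁ i₂ (rk k)) g)) atTop
      (𝓝 (grad0 i₀ i₁ i₂ s (scl (dStar i₀ i₁ i₂ 1) g))) := by
  have h1 := ((continuous_grad0 i₀ i₁ i₂ s).tendsto (scl (dStar i₀ i₁ i₂ 1) g)).comp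
    (tendsto_scl i₀ i₁ i₂ g)
  refine h1.congr' ?_
  filter_upwards [eventually_norm_lt i₀ i₁ i₂ g] with k hk
  have h2 := (fk_eventuallyEq i₀ i₁ i₂ s hk).gradient_eq
  rw [h2, gradient_f0]
  rfl

include h01 h02 h12

theorem memLp_coord_Qm (j : Fin n) : MemLp (fun g : Fin n → ℝ => g j) 2 (Qm i₀ i₁ i₂) := by
  refine memLp_of_lintegral (measurable_pi_apply j) ?_
  rw [lintegral_sq_Qm i₀ i₁ i₂ h01 h02 h12 j]
  exact ENNReal.one_lt_top

/-- The gap of the truncated functions converges. -/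
theorem tendsto_gap {s : ℝ} (hs0 : 0 ≤ s) (hs1 : s ≤ 1) :
    Tendsto (fun k => gap (fk i₀ i₁ i₂ s k) (nuStar i₀ i₁ i₂ (rk k))) atTop
      (𝓝 (∫ g, f0 i₀ i₁ i₂ s (scl (dStar i₀ i₁ i₂ 1) g) ^ 2 ∂(Qm i₀ i₁ i₂)
        - (∫ g, f0 i₀ i₁ i₂ s (scl (dStar i₀ i₁ i₂ 1) g) ∂(Qm i₀ i₁ i₂)) ^ 2
        - ∫ g, ‖grad0 i₀ i₁ i₂ s (scl (dStar i₀ i₁ i₂ 1) g)‖ ^ 2 ∂(Qm i₀ i₁ i₂))) := by
  have := isProbabilityMeasure_Qm i₀ i₁ i₂ h01 h12
  obtain ⟨M, hM0, hM⟩ := exists_fderiv_cut_bound (n := n)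
  have hcoord := memLp_coord_Qm i₀ i₁ i₂ h01 h02 h12 i₀
  have i1 : Integrable (fun g : Fin n → ℝ => |g i₀|) (Qm i₀ i₁ i₂) :=
    (hcoord.integrable one_le_two).abs
  have i2 : Integrable (fun g : Fin n → ℝ => g i₀ ^ 2) (Qm i₀ i₁ i₂) := hcoord.integrable_sq
  have hrabs : ∀ (k : ℕ) (g : Fin n → ℝ), |(scl (dStar i₀ i₁ i₂ (rk k)) g) i₀| ≤ |g i₀| := by
    intro k g
    rw [scl_apply, abs_mul]
    have h3 : dStar i₀ i₁ i₂ (rk k) i₀ = rk k := by simp [dStar]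
    rw [h3, abs_of_pos (rk_pos k)]
    have := (rk_lt_one k).le
    calc rk k * |g i₀| ≤ 1 * |g i₀| := by gcongr
      _ = |g i₀| := one_mul _
  have cfk : ∀ k, Continuous (fun g : Fin n → ℝ =>
      fk i₀ i₁ i₂ s k (scl (dStar i₀ i₁ i₂ (rk k)) g)) := fun k =>
    (contDiff_fk i₀ i₁ i₂ s k).continuous.comp (continuous_scl _)
  have cgk : ∀ k, Continuous (fun g : Fin n → ℝ =>
      gradient (fk i₀ i₁ i₂ s k) (scl (dStar i₀ i₁ i₂ (rk k)) g)) := fun k =>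
    (contDiff_gradient (contDiff_fk i₀ i₁ i₂ s k)).continuous.comp (continuous_scl _)
  -- bounds
  have bf : ∀ k g, |fk i₀ i₁ i₂ s k (scl (dStar i₀ i₁ i₂ (rk k)) g)| ≤ |g i₀| + 1 := fun k g =>
    (abs_fk_le i₀ i₁ i₂ hs0 hs1 k _).trans (add_le_add (hrabs k g) le_rfl)
  have bg : ∀ k g, ‖gradient (fk i₀ i₁ i₂ s k) (scl (dStar i₀ i₁ i₂ (rk k)) g)‖
      ≤ M * (|g i₀| + 1) + 3 := by
    intro k g
    refine (norm_gradient_fk_le i₀ i₁ i₂ h01 h02 h12 hs0 hs1 hM k _).trans ?_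
    have := hrabs k g
    gcongr
  have T1 : Tendsto (fun k => ∫ g, fk i₀ i₁ i₂ s k (scl (dStar i₀ i₁ i₂ (rk k)) g) ∂(Qm i₀ i₁ i₂))
      atTop (𝓝 (∫ g, f0 i₀ i₁ i₂ s (scl (dStar i₀ i₁ i₂ 1) g) ∂(Qm i₀ i₁ i₂))) := by
    refine tendsto_integral_of_dominated_convergence (fun g => |g i₀| + 1)
      (fun k => (cfk k).aestronglyMeasurable) (i1.add (integrable_const 1))
      (fun k => Eventually.of_forall fun g => ?_) (Eventually.of_forall fun g => ?_)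
    · rw [Real.norm_eq_abs]; exact bf k g
    · exact tendsto_fk i₀ i₁ i₂ s g
  have T2 : Tendsto (fun k => ∫ g, fk i₀ i₁ i₂ s k (scl (dStar i₀ i₁ i₂ (rk k)) g) ^ 2
      ∂(Qm i₀ i₁ i₂))
      atTop (𝓝 (∫ g, f0 i₀ i₁ i₂ s (scl (dStar i₀ i₁ i₂ 1) g) ^ 2 ∂(Qm i₀ i₁ i₂))) := by
    have ib : Integrable (fun g : Fin n → ℝ => 2 * g i₀ ^ 2 + 2) (Qm i₀ i₁ i₂) :=
      (i2.const_mul 2).add (integrable_const 2)
    have mb : ∀ k, AEStronglyMeasurable (fun g : Fin n → ℝ =>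
        fk i₀ i₁ i₂ s k (scl (dStar i₀ i₁ i₂ (rk k)) g) ^ 2) (Qm i₀ i₁ i₂) := fun k =>
      ((cfk k).pow 2).aestronglyMeasurable
    refine tendsto_integral_of_dominated_convergence (fun g => 2 * g i₀ ^ 2 + 2) mb ib
      (fun k => Eventually.of_forall fun g => ?_) (Eventually.of_forall fun g => ?_)
    · rw [Real.norm_eq_abs, abs_pow]
      have h1 := bf k g
      have h2 := sq_abs (g i₀)
      have h3 := abs_nonneg (fk i₀ i₁ i₂ s k (scl (dStar i₀ i₁ i₂ (rk k)) g))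
      have h4 := pow_le_pow_left₀ h3 h1 2
      refine h4.trans ?_
      rw [← h2]
      nlinarith [sq_nonneg (|g i₀| - 1)]
    · exact (tendsto_fk i₀ i₁ i₂ s g).pow 2
  have T3 : Tendsto (fun k => ∫ g, ‖gradient (fk i₀ i₁ i₂ s k)
      (scl (dStar i₀ i₁ i₂ (rk k)) g)‖ ^ 2 ∂(Qm i₀ i₁ i₂))
      atTop (𝓝 (∫ g, ‖grad0 i₀ i₁ i₂ s (scl (dStar i₀ i₁ i₂ 1) g)‖ ^ 2 ∂(Qm i₀ i₁ i₂))) := by
    have ib : Integrable (fun g : Fin n → ℝ => 2 * M ^ 2 * g i₀ ^ 2 + 2 * (M + 3) ^ 2)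
        (Qm i₀ i₁ i₂) := (i2.const_mul (2 * M ^ 2)).add (integrable_const _)
    have mb : ∀ k, AEStronglyMeasurable (fun g : Fin n → ℝ =>
        ‖gradient (fk i₀ i₁ i₂ s k) (scl (dStar i₀ i₁ i₂ (rk k)) g)‖ ^ 2) (Qm i₀ i₁ i₂) :=
      fun k => ((cgk k).norm.pow 2).aestronglyMeasurable
    refine tendsto_integral_of_dominated_convergence
      (fun g => 2 * M ^ 2 * g i₀ ^ 2 + 2 * (M + 3) ^ 2) mb ib
      (fun k => Eventually.of_forall fun g => ?_) (Eventually.of_forall fun g => ?_)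
    · rw [Real.norm_eq_abs, abs_pow, abs_norm]
      have h1 := bg k g
      have h2 := sq_abs (g i₀)
      have h3 := norm_nonneg (gradient (fk i₀ i₁ i₂ s k) (scl (dStar i₀ i₁ i₂ (rk k)) g))
      have h4 : ‖gradient (fk i₀ i₁ i₂ s k) (scl (dStar i₀ i₁ i₂ (rk k)) g)‖ ^ 2
          ≤ (M * |g i₀| + (M + 3)) ^ 2 := by
        refine pow_le_pow_left₀ h3 (h1.trans (le_of_eq ?_)) 2
        ring
      have h5 : (M * |g i₀| + (M + 3)) ^ 2 ≤ 2 * M ^ 2 * g i₀ ^ 2 + 2 * (M + 3) ^ 2 := by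
        rw [← h2]
        nlinarith [sq_nonneg (M * |g i₀| - (M + 3))]
      exact h4.trans h5
    · exact (tendsto_gradient_fk i₀ i₁ i₂ s g).norm.pow 2
  have hgap : ∀ k, gap (fk i₀ i₁ i₂ s k) (nuStar i₀ i₁ i₂ (rk k))
      = ∫ g, fk i₀ i₁ i₂ s k (scl (dStar i₀ i₁ i₂ (rk k)) g) ^ 2 ∂(Qm i₀ i₁ i₂)
        - (∫ g, fk i₀ i₁ i₂ s k (scl (dStar i₀ i₁ i₂ (rk k)) g) ∂(Qm i₀ i₁ i₂)) ^ 2
        - ∫ g, ‖gradient (fk i₀ i₁ i₂ s k) (scl (dStar i₀ i₁ i₂ (rk k)) g)‖ ^ 2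
          ∂(Qm i₀ i₁ i₂) := by
    intro k
    have c1 := (contDiff_fk i₀ i₁ i₂ s k).continuous
    have c2 := (contDiff_gradient (contDiff_fk i₀ i₁ i₂ s k)).continuous
    unfold gap nuStar
    rw [integral_map (f := fun x => fk i₀ i₁ i₂ s k x ^ 2) (measurable_scl _).aemeasurable
        (c1.pow 2).aestronglyMeasurable,
      integral_map (f := fun x => fk i₀ i₁ i₂ s k x) (measurable_scl _).aemeasurable
        c1.aestronglyMeasurable,
      integral_map (f := fun x => ‖gradient (fk i₀ i₁ i₂ s k) x‖ ^ 2)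
        (measurable_scl _).aemeasurable (c2.norm.pow 2).aestronglyMeasurable]
  simp_rw [hgap]
  exact (T2.sub (T1.pow 2)).sub T3

end Limit

section Positive

instance isOpenPosMeasure_gaussian : (gaussianReal 0 1).IsOpenPosMeasure :=
  (gaussianReal_absolutelyContinuous' 0 one_ne_zero).isOpenPosMeasure

instance isOpenPosMeasure_gam : (gam n).IsOpenPosMeasure := by
  unfold gam
  infer_instance

theorem integrable_coord_gam (j : Fin n) : Integrable (fun g : Fin n → ℝ => g j) (gam n) := by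
  have h : MemLp (fun g : Fin n → ℝ => g j) 2 (gam n) := by
    refine memLp_of_lintegral (measurable_pi_apply j) ?_
    rw [lintegral_sq_gam j]
    exact ENNReal.one_lt_top
  exact h.integrable one_le_two

theorem integral_coord_gam (j : Fin n) : ∫ g, g j ∂(gam n) = 0 := by
  have h := (measurePreserving_eval (fun _ : Fin n => gaussianReal 0 1) j)
  have h2 : ∫ t, t ∂((gam n).map (Function.eval j)) = 0 := by
    unfold gam
    rw [h.map_eq, integral_id_gaussianReal]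
  rwa [integral_map (measurable_pi_apply j).aemeasurable (by fun_prop)] at h2

variable (i₀ i₁ i₂ : Fin n) (h01 : i₀ ≠ i₁) (h02 : i₀ ≠ i₂) (h12 : i₁ ≠ i₂)

include h01 h02 h12

theorem integral_coord_Qm : ∫ g, g i₀ ∂(Qm i₀ i₁ i₂) = 0 := by
  have := isProbabilityMeasure_Qm i₀ i₁ i₂ h01 h12
  have h1 := integral_coord_gam (n := n) i₀
  have hm0 : Measurable (fun g : Fin n → ℝ => g i₀) := measurable_pi_apply i₀
  rw [← resample_one i₀ i₁ i₂ h01 h12, integral_map (f := fun g : Fin n → ℝ => g i₀)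
    measurable_update'.aemeasurable hm0.aestronglyMeasurable] at h1
  simp only [Function.update_of_ne h01] at h1
  have h2 : ∫ p : (Fin n → ℝ) × ℝ, p.1 i₀ ∂((Qm i₀ i₁ i₂).prod (gaussianReal 0 1))
      = ∫ g, g i₀ ∂(((Qm i₀ i₁ i₂).prod (gaussianReal 0 1)).map Prod.fst) := by
    rw [integral_map (f := fun g : Fin n → ℝ => g i₀) measurable_fst.aemeasurable
      hm0.aestronglyMeasurable]
  rw [h2] at h1
  simpa using h1

theorem integral_mix_gam : ∫ g, g i₀ * (Real.sin (g i₁) * Real.sin (g i₂)) ∂(gam n) = 0 := by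
  have hcont : Continuous (fun g : Fin n → ℝ => g i₀ * (Real.sin (g i₁) * Real.sin (g i₂))) := by
    fun_prop
  have hint : Integrable (fun g : Fin n → ℝ => g i₀ * (Real.sin (g i₁) * Real.sin (g i₂)))
      (gam n) := by
    refine (integrable_coord_gam i₀).mono hcont.aestronglyMeasurable
      (Eventually.of_forall fun g => ?_)
    rw [norm_mul]
    have e1 := Real.abs_sin_le_one (g i₁)
    have e2 := Real.abs_sin_le_one (g i₂)
    have e3 : ‖Real.sin (g i₁) * Real.sin (g i₂)‖ ≤ 1 := by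
      rw [norm_mul]
      exact mul_le_one₀ e1 (abs_nonneg _) e2
    calc _ ≤ ‖g i₀‖ * 1 := by gcongr
      _ = ‖g i₀‖ := mul_one _
  rw [← resample_gam i₁, integral_map (f := fun g : Fin n → ℝ =>
      g i₀ * (Real.sin (g i₁) * Real.sin (g i₂))) measurable_update'.aemeasurable
    hcont.aestronglyMeasurable]
  rw [← resample_gam i₁] at hint
  have hint2 := (integrable_map_measure hcont.aestronglyMeasurable
    measurable_update'.aemeasurable).1 hint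
  have hint3 : Integrable (fun p : (Fin n → ℝ) × ℝ => Function.update p.1 i₁ p.2 i₀ *
      (Real.sin (Function.update p.1 i₁ p.2 i₁) * Real.sin (Function.update p.1 i₁ p.2 i₂)))
      ((gam n).prod (gaussianReal 0 1)) := hint2
  rw [integral_prod _ hint3]
  simp only [Function.update_of_ne h01, Function.update_self, Function.update_of_ne h12.symm]
  have h3 : ∀ g : Fin n → ℝ, ∫ t, g i₀ * (Real.sin t * Real.sin (g i₂)) ∂(gaussianReal 0 1) = 0 :=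
    fun g => integral_odd_gaussian fun t => by rw [Real.sin_neg]; ring
  simp_rw [h3]
  simp

/-- The correlation is positive. -/
theorem corr_pos : 0 < ∫ g, g i₀ * (Real.sin (g i₁) * Real.sin (g i₂)) ∂(Qm i₀ i₁ i₂) := by
  have hcont : Continuous (fun g : Fin n → ℝ => g i₀ * (Real.sin (g i₁) * Real.sin (g i₂))) := by
    fun_prop
  have hint : Integrable (fun g : Fin n → ℝ => g i₀ * (Real.sin (g i₁) * Real.sin (g i₂)))
      (gam n) := by
    refine (integrable_coord_gam i₀).mono hcont.aestronglyMeasurable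
      (Eventually.of_forall fun g => ?_)
    rw [norm_mul]
    have e1 := Real.abs_sin_le_one (g i₁)
    have e2 := Real.abs_sin_le_one (g i₂)
    have e3 : ‖Real.sin (g i₁) * Real.sin (g i₂)‖ ≤ 1 := by
      rw [norm_mul]
      exact mul_le_one₀ e1 (abs_nonneg _) e2
    calc _ ≤ ‖g i₀‖ * 1 := by gcongr
      _ = ‖g i₀‖ := mul_one _
  set F : (Fin n → ℝ) → ℝ := fun g =>
    g i₀ * Real.arctan (g i₀) * (Real.sin (g i₁) * Real.sin (g i₂)) ^ 2 with hF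
  have hFc : Continuous F := by
    have := Real.continuous_arctan
    rw [hF]
    fun_prop
  have hFnn : 0 ≤ F := by
    intro g
    simp only [hF, Pi.zero_apply]
    refine mul_nonneg ?_ (sq_nonneg _)
    rcases le_total 0 (g i₀) with h | h
    · exact mul_nonneg h (Real.arctan_nonneg.2 h)
    · exact mul_nonneg_of_nonpos_of_nonpos h (by
        have := Real.arctan_nonneg.2 (neg_nonneg.2 h)
        rw [Real.arctan_neg] at this
        linarith)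
  have hFint : Integrable F (gam n) := by
    refine ((integrable_coord_gam (n := n) i₀).norm.const_mul 2).mono hFc.aestronglyMeasurable
      (Eventually.of_forall fun g => ?_)
    rw [hF]
    simp only [norm_mul, Real.norm_eq_abs, abs_pow, abs_abs, abs_mul]
    have e1 := Real.abs_sin_le_one (g i₁)
    have e2 := Real.abs_sin_le_one (g i₂)
    have e3 : (|Real.sin (g i₁)| * |Real.sin (g i₂)|) ^ 2 ≤ 1 :=
      pow_le_one₀ (by positivity) (mul_le_one₀ e1 (abs_nonneg _) e2)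
    have e4 := abs_arctan_le (g i₀)
    calc |g i₀| * |Real.arctan (g i₀)| * (|Real.sin (g i₁)| * |Real.sin (g i₂)|) ^ 2
        ≤ |g i₀| * 2 * 1 := by gcongr
      _ = |(2 : ℝ)| * |g i₀| := by rw [abs_two]; ring
  have hFpos : 0 < ∫ g, F g ∂(gam n) := by
    rw [integral_pos_iff_support_of_nonneg hFnn hFint]
    refine IsOpen.measure_pos (gam n) ?_ ⟨fun _ => 1, ?_⟩
    · exact isOpen_ne_fun hFc continuous_const
    · change F (fun _ => 1) ≠ 0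
      simp only [hF, one_mul]
      have hs : Real.sin 1 ≠ 0 := (Real.sin_pos_of_pos_of_lt_pi one_pos
        (by linarith [Real.pi_gt_three])).ne'
      have ha : Real.arctan 1 ≠ 0 := by
        rw [Real.arctan_one]
        exact (by positivity : (0 : ℝ) < Real.pi / 4).ne'
      exact mul_ne_zero ha (pow_ne_zero 2 (mul_ne_zero hs hs))
  have hkey : ∫ g, g i₀ * (Real.sin (g i₁) * Real.sin (g i₂)) ∂(Qm i₀ i₁ i₂)
      = ∫ g, (g i₀ * (Real.sin (g i₁) * Real.sin (g i₂)) + 1 / 20 * F g) ∂(gam n) := by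
    unfold Qm
    rw [integral_withDensity_eq_integral_toReal_smul (measurable_ofReal_pert i₀ i₁ i₂)
      (Eventually.of_forall fun g => ENNReal.ofReal_lt_top)]
    refine integral_congr_ae (Eventually.of_forall fun g => ?_)
    simp only [smul_eq_mul]
    rw [ENNReal.toReal_ofReal (by have := pert_ge i₀ i₁ i₂ g; linarith)]
    simp only [pert, hF]
    ring
  rw [hkey, integral_add hint (hFint.const_mul _), integral_mix_gam i₀ i₁ i₂ h01 h02 h12,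
    integral_const_mul]
  linarith

/-- The limit of the gaps is positive for a suitable parameter. -/
theorem exists_gap0_pos : ∃ s : ℝ, 0 < s ∧ s ≤ 1 ∧
    0 < ∫ g, f0 i₀ i₁ i₂ s (scl (dStar i₀ i₁ i₂ 1) g) ^ 2 ∂(Qm i₀ i₁ i₂)
        - (∫ g, f0 i₀ i₁ i₂ s (scl (dStar i₀ i₁ i₂ 1) g) ∂(Qm i₀ i₁ i₂)) ^ 2
        - ∫ g, ‖grad0 i₀ i₁ i₂ s (scl (dStar i₀ i₁ i₂ 1) g)‖ ^ 2 ∂(Qm i₀ i₁ i₂) := by
  have := isProbabilityMeasure_Qm i₀ i₁ i₂ h01 h12
  have hc := corr_pos i₀ i₁ i₂ h01 h02 h12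
  set c := ∫ g, g i₀ * (Real.sin (g i₁) * Real.sin (g i₂)) ∂(Qm i₀ i₁ i₂) with hcdef
  set s : ℝ := min 1 (c / 5) with hs
  have hs0 : 0 < s := lt_min one_pos (by positivity)
  have hs1 : s ≤ 1 := min_le_left _ _
  have hsc : s ≤ c / 5 := min_le_right _ _
  refine ⟨s, hs0, hs1, ?_⟩
  set h : (Fin n → ℝ) → ℝ := fun g => Real.sin (g i₁) * Real.sin (g i₂) with hh
  have hf0 : ∀ g : Fin n → ℝ, f0 i₀ i₁ i₂ s (scl (dStar i₀ i₁ i₂ 1) g) = g i₀ + s * h g := by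
    intro g
    have e0 : dStar i₀ i₁ i₂ (1 : ℝ) i₀ = 1 := by simp [dStar]
    have e1 : dStar i₀ i₁ i₂ (1 : ℝ) i₁ = 1 / 2 := by simp [dStar, h01.symm]
    have e2 : dStar i₀ i₁ i₂ (1 : ℝ) i₂ = 1 / 2 := by simp [dStar, h02.symm]
    simp only [f0, scl_apply, e0, e1, e2, hh]
    rw [show (2 : ℝ) * (1 / 2 * g i₁) = g i₁ by ring, show (2 : ℝ) * (1 / 2 * g i₂) = g i₂ by ring,
      one_mul]
  have habs : ∀ g, |h g| ≤ 1 := by
    intro g
    simp only [hh]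
    rw [abs_mul]
    exact mul_le_one₀ (Real.abs_sin_le_one _) (abs_nonneg _) (Real.abs_sin_le_one _)
  have hhc : Continuous h := by rw [hh]; fun_prop
  have hcoord := memLp_coord_Qm i₀ i₁ i₂ h01 h02 h12 i₀
  have i1 : Integrable (fun g : Fin n → ℝ => g i₀) (Qm i₀ i₁ i₂) := hcoord.integrable one_le_two
  have i2 : Integrable (fun g : Fin n → ℝ => g i₀ ^ 2) (Qm i₀ i₁ i₂) := hcoord.integrable_sq
  have i3 : Integrable h (Qm i₀ i₁ i₂) := Integrable.of_bound hhc.aestronglyMeasurable 1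
    (Eventually.of_forall fun g => by rw [Real.norm_eq_abs]; exact habs g)
  have i4 : Integrable (fun g => h g ^ 2) (Qm i₀ i₁ i₂) :=
    Integrable.of_bound (hhc.pow 2).aestronglyMeasurable 1
    (Eventually.of_forall fun g => by
      rw [Real.norm_eq_abs, abs_pow]
      exact pow_le_one₀ (abs_nonneg _) (habs g))
  have i5 : Integrable (fun g : Fin n → ℝ => g i₀ * h g) (Qm i₀ i₁ i₂) := by
    refine i1.mono ((continuous_apply i₀).mul hhc).aestronglyMeasurable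
      (Eventually.of_forall fun g => ?_)
    rw [norm_mul]
    calc _ ≤ ‖g i₀‖ * 1 := by gcongr; exact habs g
      _ = ‖g i₀‖ := mul_one _
  have m1 : ∫ g, g i₀ ^ 2 ∂(Qm i₀ i₁ i₂) = 1 :=
    integral_eq_of_lintegral (by fun_prop) (fun g => sq_nonneg _) zero_le_one
      (by rw [lintegral_sq_Qm i₀ i₁ i₂ h01 h02 h12 i₀]; simp)
  have m2 := integral_coord_Qm i₀ i₁ i₂ h01 h02 h12
  have t1 : ∫ g, f0 i₀ i₁ i₂ s (scl (dStar i₀ i₁ i₂ 1) g) ^ 2 ∂(Qm i₀ i₁ i₂)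
      = 1 + 2 * s * c + s ^ 2 * ∫ g, h g ^ 2 ∂(Qm i₀ i₁ i₂) := by
    have : ∀ g : Fin n → ℝ, f0 i₀ i₁ i₂ s (scl (dStar i₀ i₁ i₂ 1) g) ^ 2
        = (g i₀ ^ 2 + 2 * s * (g i₀ * h g)) + s ^ 2 * h g ^ 2 := by
      intro g; rw [hf0]; ring
    simp_rw [this]
    have i6 : Integrable (fun g : Fin n → ℝ => g i₀ ^ 2 + 2 * s * (g i₀ * h g)) (Qm i₀ i₁ i₂) :=
      i2.add (i5.const_mul _)
    rw [integral_add i6 (i4.const_mul _), integral_add i2 (i5.const_mul _), integral_const_mul,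
      integral_const_mul, m1]
  have t2 : ∫ g, f0 i₀ i₁ i₂ s (scl (dStar i₀ i₁ i₂ 1) g) ∂(Qm i₀ i₁ i₂)
      = s * ∫ g, h g ∂(Qm i₀ i₁ i₂) := by
    simp_rw [hf0]
    rw [integral_add i1 (i3.const_mul _), m2, integral_const_mul, zero_add]
  have t3 : ∫ g, ‖grad0 i₀ i₁ i₂ s (scl (dStar i₀ i₁ i₂ 1) g)‖ ^ 2 ∂(Qm i₀ i₁ i₂)
      ≤ 1 + 4 * s ^ 2 := by
    have hle : ∀ g : Fin n → ℝ, ‖grad0 i₀ i₁ i₂ s (scl (dStar i₀ i₁ i₂ 1) g)‖ ^ 2
        ≤ 1 + 4 * s ^ 2 := by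
      intro g
      rw [norm_grad0_sq i₀ i₁ i₂ h01 h02 h12]
      set a := 2 * (scl (dStar i₀ i₁ i₂ 1) g) i₁
      set b := 2 * (scl (dStar i₀ i₁ i₂ 1) g) i₂
      have e1 := Real.sin_sq_add_cos_sq a
      have e2 := Real.sin_sq_le_one b
      have e3 := Real.cos_sq_le_one b
      have e4 : (Real.cos a * Real.sin b) ^ 2 + (Real.sin a * Real.cos b) ^ 2 ≤ 1 := by
        rw [mul_pow, mul_pow]
        nlinarith [sq_nonneg (Real.sin a), sq_nonneg (Real.cos a)]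
      nlinarith [sq_nonneg s]
    have hc1 : Continuous (fun g : Fin n → ℝ =>
        ‖grad0 i₀ i₁ i₂ s (scl (dStar i₀ i₁ i₂ 1) g)‖ ^ 2) :=
      ((continuous_grad0 i₀ i₁ i₂ s).comp (continuous_scl _)).norm.pow 2
    have hi : Integrable (fun g : Fin n → ℝ =>
        ‖grad0 i₀ i₁ i₂ s (scl (dStar i₀ i₁ i₂ 1) g)‖ ^ 2) (Qm i₀ i₁ i₂) :=
      Integrable.of_bound hc1.aestronglyMeasurable (1 + 4 * s ^ 2)
        (Eventually.of_forall fun g => by
          rw [Real.norm_eq_abs, abs_of_nonneg (by positivity)]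
          exact hle g)
    calc _ ≤ ∫ _ : Fin n → ℝ, (1 + 4 * s ^ 2) ∂(Qm i₀ i₁ i₂) :=
          integral_mono hi (integrable_const _) hle
      _ = 1 + 4 * s ^ 2 := by simp
  have t4 : |∫ g, h g ∂(Qm i₀ i₁ i₂)| ≤ 1 := by
    have := norm_integral_le_of_norm_le_const (μ := Qm i₀ i₁ i₂)
      (Eventually.of_forall fun g => (by rw [Real.norm_eq_abs]; exact habs g : ‖h g‖ ≤ 1))
    simpa using this
  have t5 : 0 ≤ ∫ g, h g ^ 2 ∂(Qm i₀ i₁ i₂) := integral_nonneg fun g => sq_nonneg _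
  have t6 : (∫ g, h g ∂(Qm i₀ i₁ i₂)) ^ 2 ≤ 1 := by
    rw [← sq_abs]
    exact pow_le_one₀ (abs_nonneg _) t4
  rw [t1, t2]
  have t7 : (s * ∫ g, h g ∂(Qm i₀ i₁ i₂)) ^ 2 ≤ s ^ 2 := by
    rw [mul_pow]
    nlinarith [sq_nonneg s]
  have t8 : 0 ≤ s ^ 2 * ∫ g, h g ^ 2 ∂(Qm i₀ i₁ i₂) := by positivity
  nlinarith

/-- There are a limit measure and a test function with positive gap. -/
theorem exists_gap_pos : ∃ (r : ℝ) (f : EuclideanSpace ℝ (Fin n) → ℝ), 0 < r ∧ r < 1 ∧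
    ContDiff ℝ (⊤ : ℕ∞) f ∧ HasCompactSupport f ∧ 0 < gap f (nuStar i₀ i₁ i₂ r) := by
  obtain ⟨s, hs0, hs1, hpos⟩ := exists_gap0_pos i₀ i₁ i₂ h01 h02 h12
  have hev := (tendsto_gap i₀ i₁ i₂ h01 h02 h12 hs0.le hs1).eventually (lt_mem_nhds hpos)
  obtain ⟨k, hk⟩ := hev.exists
  exact ⟨rk k, fk i₀ i₁ i₂ s k, rk_pos k, rk_lt_one k, contDiff_fk i₀ i₁ i₂ s k,
    hasCompactSupport_fk i₀ i₁ i₂ s k, hk⟩

end Positive

end Pool.Agent.LibBary
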